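import Mathlib

/-!
# Lyapunov-Schmidt chart
-/

set_option autoImplicit false

namespace Pool.Agent.Q287.LT

open Filter Topology

/-- data of a chart around `φ`: a map `g'` on the plane and a linear projection `P` -/
structure Chart {E : Type*} [NormedAddCommGroup E] [NormedSpace ℝ E] (G : E → E) (F : E → ℝ)
    (φ : E) (P : E →L[ℝ] ℝ × ℝ) (g' : ℝ × ℝ → E) (ρ r0 K : ℝ) : Prop where
  hρ : 0 < ρ
  hr0 : 0 < r0
  hK : 0 ≤ K
  maps : ∀ f ∈ Metric.ball φ r0, P (f - φ) ∈ Metric.ball (0 : ℝ × ℝ) ρ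
  ana : ∀ ξ ∈ Metric.ball (0 : ℝ × ℝ) ρ, AnalyticAt ℝ (fun ξ => F (g' ξ)) ξ
  der : ∀ ξ ∈ Metric.ball (0 : ℝ × ℝ) ρ, ‖fderiv ℝ (fun ξ => F (g' ξ)) ξ‖ ≤ K * ‖G (g' ξ)‖
  Fdiff : ∀ f ∈ Metric.ball φ r0, |F f - F (g' (P (f - φ)))| ≤ K * ‖G f‖ ^ 2
  Gle : ∀ f ∈ Metric.ball φ r0, ‖G (g' (P (f - φ)))‖ ≤ K * ‖G f‖
  dist : ∀ f ∈ Metric.ball φ r0, ‖f - g' (P (f - φ))‖ ≤ K * ‖G f‖
  lip : ∀ ξ ∈ Metric.ball (0 : ℝ × ℝ) ρ, ∀ ξ' ∈ Metric.ball (0 : ℝ × ℝ) ρ, ‖g' ξ - g' ξ'‖ ≤ K * ‖ξ - ξ'‖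

theorem chart_exists {E : Type*} [NormedAddCommGroup E] [NormedSpace ℝ E] [CompleteSpace E]
    {φ : E} {G : E → E} {F : E → ℝ} (hG : AnalyticAt ℝ G φ) (hF : AnalyticAt ℝ F φ)
    (hG0 : G φ = 0) (P : E →L[ℝ] ℝ × ℝ) (ι : ℝ × ℝ →L[ℝ] E) (M : E ≃L[ℝ] E)
    (hM : (M : E →L[ℝ] E) = fderiv ℝ G φ + ι ∘L P)
    {C : ℝ} (hC : 0 ≤ C) (hdF : ∀ᶠ f in 𝓝 φ, ‖fderiv ℝ F f‖ ≤ C * ‖G f‖) :
    ∃ g' ρ r0 K, Chart G F φ P g' ρ r0 K := by
  set Φ : E → E := fun f => G f + ι (P (f - φ)) with hΦdef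
  have hΦφ : Φ φ = 0 := by simp [hΦdef, hG0]
  have hlin : HasStrictFDerivAt (fun f : E => ι (P (f - φ))) (ι ∘L P) φ := by
    have h1 : HasStrictFDerivAt (fun f : E => f - φ) (ContinuousLinearMap.id ℝ E) φ :=
      (hasStrictFDerivAt_id φ).sub_const φ
    exact ((ι ∘L P).hasStrictFDerivAt).comp φ h1
  have hΦ : HasStrictFDerivAt Φ (M : E →L[ℝ] E) φ := by
    rw [hM]; exact hG.hasStrictFDerivAt.add hlin
  have hΦa : AnalyticAt ℝ Φ φ := by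
    refine hG.add ?_
    have h1 : AnalyticAt ℝ (fun f : E => f - φ) φ := analyticAt_id.sub analyticAt_const
    exact ((ι ∘L P).analyticAt _).comp h1
  set R := hΦ.toOpenPartialHomeomorph Φ with hR
  set g : E → E := hΦ.localInverse Φ M φ with hg
  have hginv : g 0 = φ := by rw [← hΦφ]; exact hΦ.localInverse_apply_image
  have hga : AnalyticAt ℝ g 0 := by
    have hx : φ ∈ R.source := hΦ.mem_toOpenPartialHomeomorph_source
    have := R.analyticAt_symm' (i := M) hx hΦa (by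
      have := hΦ.hasFDerivAt.fderiv
      simpa [hR] using this)
    have e : R φ = 0 := by simpa [hR] using hΦφ
    rw [e] at this
    exact this
  have hgs : HasStrictFDerivAt g (M.symm : E →L[ℝ] E) 0 := by
    have := hΦ.to_localInverse
    rwa [hΦφ] at this
  obtain ⟨K1, s1, hs1, hL1⟩ := hgs.exists_lipschitzOnWith
  obtain ⟨K2, s2, hs2, hL2⟩ := hG.hasStrictFDerivAt.exists_lipschitzOnWith
  -- first ball
  have ev1 : ∀ᶠ f in 𝓝 φ, f ∈ s2 ∧ g (Φ f) = f ∧ ‖fderiv ℝ F f‖ ≤ C * ‖G f‖ ∧ AnalyticAt ℝ F f := by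
    filter_upwards [hs2, hΦ.eventually_left_inverse, hdF, hF.eventually_analyticAt] with f h1 h2 h3 h4
    exact ⟨h1, h2, h3, h4⟩
  obtain ⟨r1, hr1, hb1⟩ := Metric.eventually_nhds_iff_ball.1 ev1
  set g' : ℝ × ℝ → E := fun ξ => g (ι ξ) with hg'
  have hg'c : ContinuousAt g' 0 := by
    refine ContinuousAt.comp (g := g) (f := ι) ?_ ι.continuous.continuousAt
    rw [map_zero]; exact hga.continuousAt
  have hg'0 : g' 0 = φ := by simp [hg', hginv]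
  have hιt : Tendsto ι (𝓝 (0 : ℝ × ℝ)) (𝓝 0) := by
    have := ι.continuous.tendsto 0
    rwa [map_zero] at this
  -- ball in the plane
  have ev2 : ∀ᶠ ξ in 𝓝 (0 : ℝ × ℝ), ι ξ ∈ interior s1 ∧ AnalyticAt ℝ g (ι ξ) ∧ g' ξ ∈ Metric.ball φ r1 := by
    have t1 : ∀ᶠ ξ in 𝓝 (0 : ℝ × ℝ), ι ξ ∈ interior s1 := hιt.eventually (interior_mem_nhds.2 hs1)
    have t2 : ∀ᶠ ξ in 𝓝 (0 : ℝ × ℝ), AnalyticAt ℝ g (ι ξ) := hιt.eventually hga.eventually_analyticAt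
    have t3 : ∀ᶠ ξ in 𝓝 (0 : ℝ × ℝ), g' ξ ∈ Metric.ball φ r1 := by
      have : Tendsto g' (𝓝 0) (𝓝 φ) := by rw [← hg'0]; exact hg'c
      exact this.eventually (Metric.ball_mem_nhds _ hr1)
    filter_upwards [t1, t2, t3] with ξ h1 h2 h3
    exact ⟨h1, h2, h3⟩
  obtain ⟨ρ, hρ, hbρ⟩ := Metric.eventually_nhds_iff_ball.1 ev2
  have hPt : Tendsto (fun f => P (f - φ)) (𝓝 φ) (𝓝 (0 : ℝ × ℝ)) := by
    have : ContinuousAt (fun f => P (f - φ)) φ := by fun_prop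
    simpa [ContinuousAt] using this
  have hΦt : Tendsto Φ (𝓝 φ) (𝓝 0) := by
    have := hΦa.continuousAt
    rwa [ContinuousAt, hΦφ] at this
  have ev3 : ∀ᶠ f in 𝓝 φ, P (f - φ) ∈ Metric.ball (0 : ℝ × ℝ) ρ ∧ Φ f ∈ s1 ∧ f ∈ Metric.ball φ r1 := by
    filter_upwards [hPt.eventually (Metric.ball_mem_nhds _ hρ), hΦt.eventually hs1,
      Metric.ball_mem_nhds φ hr1] with f h1 h2 h3
    exact ⟨h1, h2, h3⟩
  obtain ⟨r0, hr0, hb0⟩ := Metric.eventually_nhds_iff_ball.1 ev3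
  -- basic distance estimate
  have hdist : ∀ f ∈ Metric.ball φ r0, ‖f - g' (P (f - φ))‖ ≤ K1 * ‖G f‖ := by
    intro f hf
    obtain ⟨h1, h2, h3⟩ := hb0 f hf
    have hinv : g (Φ f) = f := (hb1 f h3).2.1
    have h4 : ι (P (f - φ)) ∈ s1 := interior_subset (hbρ _ h1).1
    have := hL1.norm_sub_le h2 h4
    rw [hinv] at this
    have e : Φ f - ι (P (f - φ)) = G f := by simp [hΦdef]
    rw [e] at this
    exact this
  have hGx : ∀ f ∈ Metric.ball φ r0, ∀ y ∈ Metric.ball φ r1, ‖y - f‖ ≤ K1 * ‖G f‖ →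
      ‖G y‖ ≤ (1 + K2 * K1) * ‖G f‖ := by
    intro f hf y hy hyf
    obtain ⟨h1, h2, h3⟩ := hb0 f hf
    have := hL2.norm_sub_le (hb1 y hy).1 (hb1 f h3).1
    have e : G y = G f + (G y - G f) := by abel
    calc ‖G y‖ = ‖G f + (G y - G f)‖ := by rw [← e]
      _ ≤ ‖G f‖ + ‖G y - G f‖ := norm_add_le _ _
      _ ≤ ‖G f‖ + K2 * (K1 * ‖G f‖) := by
          have : (K2 : ℝ) * ‖y - f‖ ≤ K2 * (K1 * ‖G f‖) := mul_le_mul_of_nonneg_left hyf K2.2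
          linarith
      _ = _ := by ring
  have hK1 : (0 : ℝ) ≤ K1 := K1.2
  have hK2 : (0 : ℝ) ≤ K2 := K2.2
  refine ⟨g', ρ, r0, K1 + (1 + K2 * K1) + C * (1 + K2 * K1) * K1 + C * (K1 * ‖ι‖) + K1 * ‖ι‖, hρ, hr0,
    by positivity, fun f hf => (hb0 f hf).1, ?_, ?_, ?_, ?_, ?_, ?_⟩
  · intro ξ hξ
    obtain ⟨h1, h2, h3⟩ := hbρ ξ hξ
    have h4 : AnalyticAt ℝ g' ξ := h2.comp (ι.analyticAt ξ)
    exact (hb1 _ h3).2.2.2.comp h4
  · intro ξ hξ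
    obtain ⟨h1, h2, h3⟩ := hbρ ξ hξ
    have hd1 : HasFDerivAt g' ((fderiv ℝ g (ι ξ)) ∘L ι) ξ :=
      h2.differentiableAt.hasFDerivAt.comp ξ ι.hasFDerivAt
    have hd2 : HasFDerivAt (fun ξ => F (g' ξ)) ((fderiv ℝ F (g' ξ)) ∘L ((fderiv ℝ g (ι ξ)) ∘L ι)) ξ :=
      (hb1 _ h3).2.2.2.differentiableAt.hasFDerivAt.comp ξ hd1
    rw [hd2.fderiv]
    have n1 : ‖fderiv ℝ g (ι ξ)‖ ≤ K1 := norm_fderiv_le_of_lipschitzOn ℝ (mem_interior_iff_mem_nhds.1 h1) hL1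
    have n2 := (hb1 _ h3).2.2.1
    have n3 : ‖(fderiv ℝ F (g' ξ)) ∘L ((fderiv ℝ g (ι ξ)) ∘L ι)‖ ≤ C * ‖G (g' ξ)‖ * (K1 * ‖ι‖) := by
      refine (ContinuousLinearMap.opNorm_comp_le _ _).trans ?_
      refine mul_le_mul n2 ?_ (norm_nonneg _) (by positivity)
      exact (ContinuousLinearMap.opNorm_comp_le _ _).trans (mul_le_mul_of_nonneg_right n1 (norm_nonneg _))
    refine n3.trans ?_
    have hGn := norm_nonneg (G (g' ξ))
    have : (K1 : ℝ) + (1 + K2 * K1) + C * (1 + K2 * K1) * K1 + C * (K1 * ‖ι‖) + K1 * ‖ι‖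
      = C * (K1 * ‖ι‖) + (K1 + (1 + K2 * K1) + C * (1 + K2 * K1) * K1 + K1 * ‖ι‖) := by ring
    rw [this, add_mul]
    have : 0 ≤ ((K1 : ℝ) + (1 + K2 * K1) + C * (1 + K2 * K1) * K1 + K1 * ‖ι‖) * ‖G (g' ξ)‖ := by positivity
    nlinarith
  · intro f hf
    obtain ⟨h1, h2, h3⟩ := hb0 f hf
    have hd := hdist f hf
    have hγ : g' (P (f - φ)) ∈ Metric.ball φ r1 := (hbρ _ h1).2.2
    set γ := g' (P (f - φ)) with hγdef
    have hseg : segment ℝ γ f ⊆ Metric.ball φ r1 := (convex_ball φ r1).segment_subset hγ h3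
    have hb : ∀ y ∈ segment ℝ γ f, ‖fderiv ℝ F y‖ ≤ C * ((1 + K2 * K1) * ‖G f‖) := by
      intro y hy
      have h4 := hb1 y (hseg hy)
      refine h4.2.2.1.trans ?_
      refine mul_le_mul_of_nonneg_left ?_ hC
      refine hGx f hf y (hseg hy) ?_
      obtain ⟨a, b, ha, hb, hab, rfl⟩ := hy
      have : a • γ + b • f - f = a • (γ - f) := by
        have : b = 1 - a := by linarith
        rw [this]; module
      rw [this, norm_smul, Real.norm_of_nonneg ha, norm_sub_rev]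
      have : a ≤ 1 := by linarith
      calc a * ‖f - γ‖ ≤ 1 * ‖f - γ‖ := mul_le_mul_of_nonneg_right this (norm_nonneg _)
        _ ≤ _ := by rw [one_mul]; exact hd
    have hmv := Convex.norm_image_sub_le_of_norm_fderiv_le (𝕜 := ℝ)
      (fun y hy => (hb1 y (hseg hy)).2.2.2.differentiableAt) hb (convex_segment γ f)
      (left_mem_segment ℝ γ f) (right_mem_segment ℝ γ f)
    rw [Real.norm_eq_abs] at hmv
    refine hmv.trans ?_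
    have hGn := norm_nonneg (G f)
    have q1 : C * ((1 + K2 * K1) * ‖G f‖) * ‖f - γ‖ ≤ C * ((1 + K2 * K1) * ‖G f‖) * (K1 * ‖G f‖) :=
      mul_le_mul_of_nonneg_left hd (by positivity)
    have q2 : 0 ≤ ((K1 : ℝ) + (1 + K2 * K1) + C * (K1 * ‖ι‖) + K1 * ‖ι‖) * ‖G f‖ ^ 2 := by positivity
    nlinarith
  · intro f hf
    obtain ⟨h1, h2, h3⟩ := hb0 f hf
    have hγ : g' (P (f - φ)) ∈ Metric.ball φ r1 := (hbρ _ h1).2.2
    have := hGx f hf _ hγ (by rw [norm_sub_rev]; exact hdist f hf)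
    refine this.trans ?_
    have hGn := norm_nonneg (G f)
    have q2 : 0 ≤ ((K1 : ℝ) + C * (1 + K2 * K1) * K1 + C * (K1 * ‖ι‖) + K1 * ‖ι‖) * ‖G f‖ := by positivity
    nlinarith
  · intro f hf
    refine (hdist f hf).trans ?_
    have hGn := norm_nonneg (G f)
    have q2 : 0 ≤ ((1 + K2 * K1 : ℝ) + C * (1 + K2 * K1) * K1 + C * (K1 * ‖ι‖) + K1 * ‖ι‖) * ‖G f‖ := by
      positivity
    nlinarith
  · intro ξ hξ ξ' hξ'
    have h4 : ι ξ ∈ s1 := interior_subset (hbρ _ hξ).1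
    have h5 : ι ξ' ∈ s1 := interior_subset (hbρ _ hξ').1
    have := hL1.norm_sub_le h4 h5
    rw [← map_sub] at this
    have h6 : (K1 : ℝ) * ‖ι (ξ - ξ')‖ ≤ K1 * (‖ι‖ * ‖ξ - ξ'‖) :=
      mul_le_mul_of_nonneg_left (ι.le_opNorm _) hK1
    have hn := norm_nonneg (ξ - ξ')
    have q2 : 0 ≤ ((K1 : ℝ) + (1 + K2 * K1 : ℝ) + C * (1 + K2 * K1) * K1 + C * (K1 * ‖ι‖)) * ‖ξ - ξ'‖ := by
      positivity
    change ‖g (ι ξ) - g (ι ξ')‖ ≤ _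
    nlinarith

end Pool.Agent.Q287.LT
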