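import Mathlib

/-!
# Łojasiewicz trap lemma and connectedness of limit sets
-/

set_option autoImplicit false

namespace Pool.Agent.Q287.LT

open Filter Topology

/-- concavity inequality -/
lemma rpow_concave {a b s : ℝ} (ha : 0 < a) (hb : 0 ≤ b) (hba : b ≤ a) (hs0 : 0 ≤ s) (hs1 : s ≤ 1) :
    s * a ^ (s - 1) * (a - b) ≤ a ^ s - b ^ s := by
  have h1 : (1 + (b / a - 1)) ^ s ≤ 1 + s * (b / a - 1) :=
    rpow_one_add_le_one_add_mul_self (by
      have : 0 ≤ b / a := by positivity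
      linarith) hs0 hs1
  rw [show 1 + (b / a - 1) = b / a by ring, Real.div_rpow hb ha.le] at h1
  have hp : 0 < a ^ s := Real.rpow_pos_of_pos ha s
  rw [div_le_iff₀ hp] at h1
  have h2 : a ^ (s - 1) = a ^ s / a := Real.rpow_sub_one ha.ne' s
  rw [h2]
  have h3 : s * (a ^ s / a) * (a - b) = a ^ s - (1 + s * (b / a - 1)) * a ^ s := by
    field_simp
    ring
  rw [h3]; linarith

/-- one step of the Łojasiewicz argument -/
lemma loja_step {θ C a0 a1 : ℝ} (hθ0 : 1 / 2 ≤ θ) (hθ1 : θ < 1) (hC : 0 ≤ C)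
    (h1 : 0 ≤ a1) (h10 : a1 ≤ a0) (hsmall : a0 - a1 ≤ 1) (hL : a1 ^ θ ≤ C * √(a0 - a1)) :
    √(a0 - a1) ≤ (C + 1) / (1 - θ) * (a0 ^ (1 - θ) - a1 ^ (1 - θ)) := by
  set δ := √(a0 - a1) with hδ
  have hδ0 : 0 ≤ δ := Real.sqrt_nonneg _
  have hδ2 : δ ^ 2 = a0 - a1 := Real.sq_sqrt (by linarith)
  have hδ1 : δ ≤ 1 := by rw [hδ]; exact Real.sqrt_le_one.2 hsmall
  have hθ' : 0 < 1 - θ := by linarith
  rcases hδ0.eq_or_lt with h0 | hpos
  · rw [← h0]
    have : a0 = a1 := by nlinarith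
    rw [this]; simp
  · have ha0 : 0 < a0 := by nlinarith
    have k1 : a0 ^ θ ≤ (C + 1) * δ := by
      have e : a0 = a1 + δ ^ 2 := by linarith
      have k2 : a0 ^ θ ≤ a1 ^ θ + (δ ^ 2) ^ θ := by
        rw [e]; exact Real.rpow_add_le_add_rpow h1 (by positivity) (by linarith) hθ1.le
      have k3 : (δ ^ 2) ^ θ ≤ δ := by
        rw [← Real.rpow_natCast, ← Real.rpow_mul hδ0]
        calc δ ^ (((2 : ℕ) : ℝ) * θ) ≤ δ ^ (1 : ℝ) :=
              Real.rpow_le_rpow_of_exponent_ge hpos hδ1 (by push_cast; linarith)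
          _ = δ := Real.rpow_one _
      linarith
    have k4 := rpow_concave ha0 h1 h10 hθ'.le (by linarith : 1 - θ ≤ 1)
    rw [show 1 - θ - 1 = -θ by ring, ← hδ2, Real.rpow_neg ha0.le] at k4
    have hp : 0 < a0 ^ θ := Real.rpow_pos_of_pos ha0 θ
    have k5 : (1 - θ) * ((C + 1) * δ)⁻¹ * δ ^ 2 ≤ (1 - θ) * (a0 ^ θ)⁻¹ * δ ^ 2 := by
      have : ((C + 1) * δ)⁻¹ ≤ (a0 ^ θ)⁻¹ := inv_anti₀ hp k1
      gcongr
    have k6 : (1 - θ) * ((C + 1) * δ)⁻¹ * δ ^ 2 = (1 - θ) / (C + 1) * δ := by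
      have : C + 1 ≠ 0 := by positivity
      field_simp
    rw [k6] at k5
    have k7 : (1 - θ) / (C + 1) * δ ≤ a0 ^ (1 - θ) - a1 ^ (1 - θ) := k5.trans k4
    have hC1 : 0 < C + 1 := by positivity
    calc δ = (C + 1) / (1 - θ) * ((1 - θ) / (C + 1) * δ) := by field_simp
      _ ≤ _ := mul_le_mul_of_nonneg_left k7 (by positivity)

/-- the trap lemma -/
lemma trap {E : Type*} [NormedAddCommGroup E] [CompleteSpace E] {X : ℕ → E} {K : ℕ → ℝ}
    (hK0 : ∀ n, 0 ≤ K n) (hKa : Antitone K) (hKt : Tendsto K atTop (𝓝 0))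
    {C : ℝ} (hC : 0 ≤ C) (hstep : ∀ n, ‖X (n + 1) - X n‖ ≤ C * √(K n - K (n + 1)))
    {ψ : E} (hψ : MapClusterPt ψ atTop X) {θ C' : ℝ} (hθ0 : 1 / 2 ≤ θ) (hθ1 : θ < 1) (hC' : 0 ≤ C')
    (hL : ∀ᶠ y in 𝓝 ψ, ∀ n, X n = y → K (n + 1) ^ θ ≤ C' * √(K n - K (n + 1))) :
    Tendsto X atTop (𝓝 ψ) := by
  have hθ' : 0 < 1 - θ := by linarith
  obtain ⟨r, hr, hr'⟩ := Metric.eventually_nhds_iff_ball.1 hL
  set D : ℝ := C * ((C' + 1) / (1 - θ)) with hD
  have hD0 : 0 ≤ D := by positivity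
  -- for every small radius
  have main : ∀ ε, 0 < ε → ε ≤ r → ∃ N, ∀ n, N ≤ n → X n ∈ Metric.ball ψ ε := by
    intro ε hε hεr
    have t1 : Tendsto (fun n => D * K n ^ (1 - θ)) atTop (𝓝 0) := by
      have := (hKt.rpow_const (Or.inr hθ'.le : (0 : ℝ) ≠ 0 ∨ 0 ≤ 1 - θ)).const_mul D
      rwa [Real.zero_rpow hθ'.ne', mul_zero] at this
    have e1 : ∀ᶠ n in atTop, D * K n ^ (1 - θ) < ε / 2 := t1.eventually (gt_mem_nhds (by positivity))
    have e2 : ∀ᶠ n in atTop, K n < 1 := hKt.eventually (gt_mem_nhds one_pos)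
    have e3 : ∃ᶠ n in atTop, X n ∈ Metric.ball ψ (ε / 2) :=
      (mapClusterPt_iff_frequently.1 hψ) _ (Metric.ball_mem_nhds _ (by positivity))
    obtain ⟨N, hN3, hN1, hN2⟩ := (e3.and_eventually (e1.and e2)).exists
    refine ⟨N, ?_⟩
    have claim : ∀ k, X (N + k) ∈ Metric.ball ψ ε ∧
        ‖X (N + k) - X N‖ ≤ D * (K N ^ (1 - θ) - K (N + k) ^ (1 - θ)) := by
      intro k
      induction k with
      | zero =>
        refine ⟨Metric.ball_subset_ball (by linarith) hN3, by simp⟩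
      | succ k ih =>
        obtain ⟨ih1, ih2⟩ := ih
        have hk : K (N + k + 1) ^ θ ≤ C' * √(K (N + k) - K (N + k + 1)) :=
          hr' _ (Metric.ball_subset_ball hεr ih1) (N + k) rfl
        have hanti := hKa (show N + k ≤ N + k + 1 by omega)
        have hle1 : K (N + k) - K (N + k + 1) ≤ 1 := by
          have := hKa (show N ≤ N + k by omega)
          have := hK0 (N + k + 1)
          linarith
        have s1 := loja_step hθ0 hθ1 hC' (hK0 _) hanti hle1 hk
        have s2 := hstep (N + k)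
        have s3 : ‖X (N + k + 1) - X (N + k)‖ ≤ D * (K (N + k) ^ (1 - θ) - K (N + k + 1) ^ (1 - θ)) := by
          refine s2.trans ?_
          rw [hD, mul_assoc]
          exact mul_le_mul_of_nonneg_left s1 hC
        have s4 : ‖X (N + k + 1) - X N‖ ≤ D * (K N ^ (1 - θ) - K (N + k + 1) ^ (1 - θ)) := by
          have : X (N + k + 1) - X N = (X (N + k + 1) - X (N + k)) + (X (N + k) - X N) := by abel
          rw [this]
          refine (norm_add_le _ _).trans ?_
          linarith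
        refine ⟨?_, s4⟩
        rw [Metric.mem_ball] at hN3 ⊢
        have s5 : dist (X (N + k + 1)) (X N) ≤ D * K N ^ (1 - θ) := by
          rw [dist_eq_norm]
          refine s4.trans ?_
          have : 0 ≤ K (N + k + 1) ^ (1 - θ) := Real.rpow_nonneg (hK0 _) _
          nlinarith
        have := dist_triangle (X (N + k + 1)) (X N) ψ
        change dist (X (N + k + 1)) ψ < ε
        linarith
    intro n hn
    obtain ⟨k, rfl⟩ := Nat.exists_eq_add_of_le hn
    exact (claim k).1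
  rw [Metric.tendsto_atTop]
  intro ε hε
  obtain ⟨N, hN⟩ := main (min ε r) (lt_min hε hr) (min_le_right _ _)
  exact ⟨N, fun n hn => lt_of_lt_of_le (hN n hn) (min_le_left _ _)⟩

/-- limit sets of precompact sequences with vanishing steps are preconnected -/
lemma limitSet_preconnected {E : Type*} [NormedAddCommGroup E] {X : ℕ → E} {Q : Set E}
    (hQ : IsCompact Q) (hX : ∀ n, X n ∈ Q) (hstep : Tendsto (fun n => ‖X (n + 1) - X n‖) atTop (𝓝 0)) :
    IsPreconnected {ψ : E | MapClusterPt ψ atTop X} := by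
  set Λ := {ψ : E | MapClusterPt ψ atTop X} with hΛ
  have hΛc : IsClosed Λ := isClosed_setOfPred_clusterPt
  have hΛQ : Λ ⊆ Q := by
    intro ψ hψ
    exact hQ.isClosed.mem_of_mapClusterPt hψ (Eventually.of_forall hX)
  have hΛk : IsCompact Λ := hQ.of_isClosed_subset hΛc hΛQ
  rw [isPreconnected_closed_iff]
  intro s t hs ht hst hΛs hΛt
  by_contra hcon
  rw [Set.not_nonempty_iff_eq_empty] at hcon
  have hA : IsCompact (Λ ∩ s) := hΛk.inter_right hs
  have hB : IsCompact (Λ ∩ t) := hΛk.inter_right ht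
  have hdisj : Disjoint (Λ ∩ s) (Λ ∩ t) := by
    rw [Set.disjoint_iff_inter_eq_empty]
    ext z
    simp only [Set.mem_inter_iff, Set.mem_empty_iff_false, iff_false]
    rintro ⟨⟨h1, h2⟩, _, h3⟩
    have : z ∈ Λ ∩ (s ∩ t) := ⟨h1, h2, h3⟩
    rw [hcon] at this
    exact this
  obtain ⟨δ, hδ, hdisj'⟩ := hdisj.exists_cthickenings hA hB.isClosed
  -- eventually in the union of thickenings
  have hev : ∀ᶠ n in atTop, X n ∈ Metric.thickening (δ / 3) (Λ ∩ s) ∪ Metric.thickening (δ / 3) (Λ ∩ t) := by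
    by_contra hne
    rw [not_eventually] at hne
    have hopen : IsOpen (Metric.thickening (δ / 3) (Λ ∩ s) ∪ Metric.thickening (δ / 3) (Λ ∩ t)) :=
      Metric.isOpen_thickening.union Metric.isOpen_thickening
    have hQ' : IsCompact (Q \ (Metric.thickening (δ / 3) (Λ ∩ s) ∪ Metric.thickening (δ / 3) (Λ ∩ t))) :=
      hQ.diff hopen
    obtain ⟨ψ, hψ, hcl⟩ := hQ'.exists_mapClusterPt_of_frequently (l := atTop) (f := X)
      (hne.mono (fun n hn => ⟨hX n, hn⟩))
    have hψΛ : ψ ∈ Λ := hcl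
    rcases hst hψΛ with h | h
    · exact hψ.2 (Or.inl (Metric.self_subset_thickening (by positivity) _ ⟨hψΛ, h⟩))
    · exact hψ.2 (Or.inr (Metric.self_subset_thickening (by positivity) _ ⟨hψΛ, h⟩))
  have hst' : ∀ᶠ n in atTop, ‖X (n + 1) - X n‖ < δ / 3 := hstep.eventually (gt_mem_nhds (by positivity))
  obtain ⟨N, hN⟩ := (hev.and hst').exists_forall_of_atTop
  -- stays on one side
  have hcross : ∀ (P Q' : Set E), Disjoint (Metric.cthickening δ P) (Metric.cthickening δ Q') →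
      ∀ a b : E, a ∈ Metric.thickening (δ / 3) P → ‖b - a‖ < δ / 3 → b ∉ Metric.thickening (δ / 3) Q' := by
    intro P Q' hPQ a b ha hab hb
    have h1 : a ∈ Metric.cthickening δ P :=
      Metric.cthickening_mono (by linarith) _ (Metric.thickening_subset_cthickening _ _ ha)
    have h2 : a ∈ Metric.cthickening δ Q' := by
      rw [Metric.mem_thickening_iff] at hb
      obtain ⟨z, hz, hbz⟩ := hb
      refine Metric.thickening_subset_cthickening _ _ (Metric.mem_thickening_iff.2 ⟨z, hz, ?_⟩)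
      have : dist a b < δ / 3 := by rw [dist_comm, dist_eq_norm]; exact hab
      have := dist_triangle a b z
      linarith
    exact Set.disjoint_left.1 hPQ h1 h2
  have stay : ∀ (P Q' : Set E), Disjoint (Metric.cthickening δ P) (Metric.cthickening δ Q') →
      (∀ n, N ≤ n → X n ∈ Metric.thickening (δ / 3) P ∪ Metric.thickening (δ / 3) Q') →
      X N ∈ Metric.thickening (δ / 3) P → (Λ ∩ t = Q' ∨ Λ ∩ s = Q') → Q' = ∅ := by
    intro P Q' hPQ hu h0 hcase
    have hall : ∀ k, X (N + k) ∈ Metric.thickening (δ / 3) P := by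
      intro k
      induction k with
      | zero => exact h0
      | succ k ih =>
        rcases hu (N + k + 1) (by omega) with h | h
        · exact h
        · exact absurd h (hcross P Q' hPQ _ _ ih (hN (N + k) (by omega)).2)
    by_contra hne
    obtain ⟨ψ, hψ⟩ := Set.nonempty_iff_ne_empty.2 hne
    have hψΛ : ψ ∈ Λ := by
      rcases hcase with h | h
      · rw [← h] at hψ; exact hψ.1
      · rw [← h] at hψ; exact hψ.1
    have hfr : ∃ᶠ n in atTop, X n ∈ Metric.ball ψ (δ / 3) :=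
      (mapClusterPt_iff_frequently.1 hψΛ) _ (Metric.ball_mem_nhds _ (by positivity))
    obtain ⟨n, hn, hnN⟩ := (hfr.and_eventually (eventually_ge_atTop N)).exists
    obtain ⟨k, rfl⟩ := Nat.exists_eq_add_of_le hnN
    have h1 := hall k
    refine hcross P Q' hPQ _ (X (N + k)) h1 (by simp; positivity) ?_
    exact Metric.mem_thickening_iff.2 ⟨ψ, hψ, hn⟩
  rcases (hN N le_rfl).1 with h | h
  · have := stay (Λ ∩ s) (Λ ∩ t) hdisj' (fun n hn => (hN n hn).1) h (Or.inl rfl)
    rw [this] at hΛt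
    exact Set.not_nonempty_empty hΛt
  · have := stay (Λ ∩ t) (Λ ∩ s) hdisj'.symm (fun n hn => (hN n hn).1.symm) h (Or.inr rfl)
    rw [this] at hΛs
    exact Set.not_nonempty_empty hΛs

end Pool.Agent.Q287.LT
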