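import Pool.Agent.Q287.LT.Chart
import Pool.Agent.Q287.LT.Trap

/-!
# A Kurdyka-Łojasiewicz inequality at some point of a connected set of critical points,
for analytic functionals whose linearisation has a kernel of dimension at most two
-/

set_option autoImplicit false

namespace Pool.Agent.Q287.LT

open Filter Topology

/-- arcs in preconnected sets which are graphs over a function -/
lemma arc {E : Type*} [NormedAddCommGroup E] {Λ : Set E} (hΛ : IsPreconnected Λ) {ψ0 : E}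
    (h0 : ψ0 ∈ Λ) {W : E → ℝ} (hW : Continuous W) {r C : ℝ} (hr : 0 < r) (hC : 0 < C)
    (hg : ∀ ψ ∈ Λ, ∀ ψ' ∈ Λ, dist ψ ψ0 < r → dist ψ' ψ0 < r → dist ψ ψ' ≤ C * |W ψ - W ψ'|)
    (hne : ∃ ψ' ∈ Λ, ψ' ≠ ψ0) :
    ∃ ψ1 ∈ Λ, dist ψ1 ψ0 < r ∧ ∃ δ > 0, ∀ s, |s - W ψ1| < δ → ∃ ψ ∈ Λ, dist ψ ψ0 < r ∧ W ψ = s := by
  obtain ⟨ψ', hψ', hne'⟩ := hne
  have hd : 0 < dist ψ' ψ0 := dist_pos.2 hne'
  set δ0 : ℝ := min (r / (2 * C)) (dist ψ' ψ0 / (2 * C)) with hδ0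
  have hδpos : 0 < δ0 := lt_min (by positivity) (by positivity)
  have hδ1 : C * δ0 ≤ r / 2 := by
    have := min_le_left (r / (2 * C)) (dist ψ' ψ0 / (2 * C))
    calc C * δ0 ≤ C * (r / (2 * C)) := mul_le_mul_of_nonneg_left this hC.le
      _ = r / 2 := by field_simp
  have hδ2 : C * δ0 ≤ dist ψ' ψ0 / 2 := by
    have := min_le_right (r / (2 * C)) (dist ψ' ψ0 / (2 * C))
    calc C * δ0 ≤ C * (dist ψ' ψ0 / (2 * C)) := mul_le_mul_of_nonneg_left this hC.le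
      _ = dist ψ' ψ0 / 2 := by field_simp
  have key : ∃ σ : ℝ, (σ = 1 ∨ σ = -1) ∧ ∀ s, 0 < s → s < δ0 →
      ∃ ψ ∈ Λ, dist ψ ψ0 < r ∧ W ψ = W ψ0 + σ * s := by
    by_contra hcon
    push Not at hcon
    obtain ⟨sp, hsp0, hsp1, hsp⟩ := hcon 1 (Or.inl rfl)
    obtain ⟨sm, hsm0, hsm1, hsm⟩ := hcon (-1) (Or.inr rfl)
    set u : Set E := {z | dist z ψ0 < r ∧ W ψ0 - sm < W z ∧ W z < W ψ0 + sp} with hu
    set v : Set E := {z | r / 2 < dist z ψ0 ∨ W z < W ψ0 - sm ∨ W ψ0 + sp < W z} with hv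
    have ho1 : IsOpen u := by
      have a1 : IsOpen {z : E | dist z ψ0 < r} := isOpen_lt (by fun_prop) continuous_const
      have a2 : IsOpen {z : E | W ψ0 - sm < W z} := isOpen_lt continuous_const hW
      have a3 : IsOpen {z : E | W z < W ψ0 + sp} := isOpen_lt hW continuous_const
      exact a1.inter (a2.inter a3)
    have ho2 : IsOpen v := by
      have a1 : IsOpen {z : E | r / 2 < dist z ψ0} := isOpen_lt continuous_const (by fun_prop)
      have a2 : IsOpen {z : E | W z < W ψ0 - sm} := isOpen_lt hW continuous_const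
      have a3 : IsOpen {z : E | W ψ0 + sp < W z} := isOpen_lt continuous_const hW
      exact a1.union (a2.union a3)
    have habs : ∀ z, W ψ0 - sm ≤ W z → W z ≤ W ψ0 + sp → |W z - W ψ0| < δ0 := by
      intro z h1 h2
      rw [abs_lt]; constructor <;> linarith
    have hcov : Λ ⊆ u ∪ v := by
      intro z hz
      by_cases h1 : r / 2 < dist z ψ0
      · exact Or.inr (Or.inl h1)
      · push Not at h1
        by_cases h2 : W z < W ψ0 - sm
        · exact Or.inr (Or.inr (Or.inl h2))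
        · by_cases h3 : W ψ0 + sp < W z
          · exact Or.inr (Or.inr (Or.inr h3))
          · push Not at h2 h3
            have hr' : dist z ψ0 < r := by linarith
            left
            refine ⟨hr', lt_of_le_of_ne h2 ?_, lt_of_le_of_ne h3 ?_⟩
            · intro he
              exact hsm z hz hr' (by linarith)
            · intro he
              exact hsp z hz hr' (by linarith)
    have hn1 : (Λ ∩ u).Nonempty := ⟨ψ0, h0, by simpa using hr, by linarith, by linarith⟩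
    have hn2 : (Λ ∩ v).Nonempty := by
      refine ⟨ψ', hψ', ?_⟩
      by_contra hnot
      simp only [hv, Set.mem_ofPred_eq, not_or, not_lt] at hnot
      obtain ⟨q1, q2, q3⟩ := hnot
      have q4 := hg ψ' hψ' ψ0 h0 (by linarith) (by simpa using hr)
      have q5 := habs ψ' q2 q3
      have q6 : C * |W ψ' - W ψ0| < C * δ0 := mul_lt_mul_of_pos_left q5 hC
      linarith
    obtain ⟨z, hz, hzu, hzv⟩ := hΛ u v ho1 ho2 hcov hn1 hn2
    obtain ⟨q1, q2, q3⟩ := hzu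
    rcases hzv with h | h | h
    · have q4 := hg z hz ψ0 h0 q1 (by simpa using hr)
      have q5 := habs z q2.le q3.le
      have q6 : C * |W z - W ψ0| < C * δ0 := mul_lt_mul_of_pos_left q5 hC
      linarith
    · linarith
    · linarith
  obtain ⟨σ, hσ, hk⟩ := key
  have hσσ : σ * σ = 1 := by rcases hσ with h | h <;> rw [h] <;> norm_num
  have hσa : |σ| = 1 := by rcases hσ with h | h <;> rw [h] <;> norm_num
  obtain ⟨ψ1, h1, h2, h3⟩ := hk (δ0 / 2) (by positivity) (by linarith)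
  refine ⟨ψ1, h1, h2, δ0 / 2, by positivity, fun s hs => ?_⟩
  have e : s = W ψ0 + σ * (σ * (s - W ψ0)) := by rw [← mul_assoc, hσσ]; ring
  have e2 : σ * (s - W ψ0) = σ * (s - W ψ1) + δ0 / 2 := by
    rw [h3]
    have : σ * (s - (W ψ0 + σ * (δ0 / 2))) = σ * (s - W ψ0) - (σ * σ) * (δ0 / 2) := by ring
    rw [this, hσσ]; ring
  have e3 : |σ * (s - W ψ1)| < δ0 / 2 := by rw [abs_mul, hσa, one_mul]; exact hs
  rw [abs_lt] at e3
  obtain ⟨ψ, g1, g2, g3⟩ := hk (σ * (s - W ψ0)) (by rw [e2]; linarith) (by rw [e2]; linarith)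
  exact ⟨ψ, g1, g2, by rw [g3]; exact e.symm⟩

/-- one-variable Taylor comparison -/
lemma taylor01 (f : ℕ → ℝ → ℝ) (k : ℕ)
    (hder : ∀ i < k, ∀ τ ∈ Set.Icc (0 : ℝ) 1, HasDerivAt (f i) (f (i + 1) τ) τ)
    (h0 : ∀ i < k, f i 0 = 0) {a : ℝ} (ha : ∀ τ ∈ Set.Icc (0 : ℝ) 1, a ≤ f k τ) :
    ∀ j ≤ k, ∀ τ ∈ Set.Icc (0 : ℝ) 1, a * τ ^ j / (j.factorial : ℝ) ≤ f (k - j) τ := by
  intro j
  induction j with
  | zero => intro _ τ hτ; simpa using ha τ hτ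
  | succ j ih =>
    intro hj τ hτ
    have ih' := ih (by omega)
    set g : ℝ → ℝ := fun t => f (k - (j + 1)) t - a * t ^ (j + 1) / ((j + 1).factorial : ℝ) with hg
    have hgd : ∀ t ∈ Set.Icc (0 : ℝ) 1, HasDerivAt g (f (k - j) t - a * t ^ j / (j.factorial : ℝ)) t := by
      intro t ht
      have d1 := hder (k - (j + 1)) (by omega) t ht
      rw [show k - (j + 1) + 1 = k - j by omega] at d1
      have d2 : HasDerivAt (fun t : ℝ => a * t ^ (j + 1) / ((j + 1).factorial : ℝ))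
          (a * t ^ j / (j.factorial : ℝ)) t := by
        have := ((hasDerivAt_pow (j + 1) t).const_mul a).div_const ((j + 1).factorial : ℝ)
        convert! this using 1
        rw [Nat.factorial_succ]
        have h1 : ((j.factorial : ℕ) : ℝ) ≠ 0 := by positivity
        push_cast
        field_simp
      exact d1.sub d2
    have hmono : MonotoneOn g (Set.Icc 0 1) := by
      refine monotoneOn_of_deriv_nonneg (convex_Icc 0 1)
        (fun t ht => (hgd t ht).continuousAt.continuousWithinAt) (fun t ht => ?_) (fun t ht => ?_)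
      · exact (hgd t (interior_subset ht)).differentiableAt.differentiableWithinAt
      · rw [(hgd t (interior_subset ht)).deriv]
        have := ih' t (interior_subset ht)
        linarith
    have h00 : g 0 = 0 := by
      simp only [hg]
      rw [h0 _ (by omega)]; simp
    have := hmono (Set.left_mem_Icc.2 zero_le_one) hτ hτ.1
    rw [h00] at this
    simp only [hg] at this
    linarith

/-- iterated directional derivatives -/
noncomputable def Hd {V : Type*} [NormedAddCommGroup V] [NormedSpace ℝ V] (H : V → ℝ) (e : V) : ℕ → V → ℝ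
  | 0 => H
  | j + 1 => fun ξ => fderiv ℝ (Hd H e j) ξ e

lemma Hd_ana {V : Type*} [NormedAddCommGroup V] [NormedSpace ℝ V] {H : V → ℝ} (e : V) {s : Set V}
    (hH : AnalyticOnNhd ℝ H s) (j : ℕ) : AnalyticOnNhd ℝ (Hd H e j) s := by
  induction j with
  | zero => exact hH
  | succ j ih =>
    intro z hz
    have h1 : AnalyticAt ℝ (fderiv ℝ (Hd H e j)) z := (ih z hz).fderiv
    exact ((ContinuousLinearMap.apply ℝ ℝ e).analyticAt _).comp h1

lemma Hd_line {V : Type*} [NormedAddCommGroup V] [NormedSpace ℝ V] {H : V → ℝ} (e : V) {s : Set V}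
    (hH : AnalyticOnNhd ℝ H s) (j : ℕ) (a : V) (t τ : ℝ) (hz : a + (τ * t) • e ∈ s) :
    HasDerivAt (fun τ : ℝ => t ^ j * Hd H e j (a + (τ * t) • e))
      (t ^ (j + 1) * Hd H e (j + 1) (a + (τ * t) • e)) τ := by
  have h1 : HasFDerivAt (Hd H e j) (fderiv ℝ (Hd H e j) (a + (τ * t) • e)) (a + (τ * t) • e) :=
    (Hd_ana e hH j _ hz).differentiableAt.hasFDerivAt
  have h2 : HasDerivAt (fun τ : ℝ => a + (τ * t) • e) (t • e) τ := by
    have : HasDerivAt (fun τ : ℝ => τ * t) t τ := by simpa using (hasDerivAt_id τ).mul_const t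
    exact (this.smul_const e).const_add a
  have h3 := (h1.comp_hasDerivAt τ h2).const_mul (t ^ j)
  convert! h3 using 1
  rw [map_smul, smul_eq_mul, pow_succ]
  change _ * fderiv ℝ (Hd H e j) (a + (τ * t) • e) e = _
  ring

lemma exists_dir {V : Type*} [NormedAddCommGroup V] [NormedSpace ℝ V] {H : V → ℝ} {ρ : ℝ} (hρ : 0 < ρ)
    (hH : AnalyticOnNhd ℝ H (Metric.ball 0 ρ)) (hne : ¬ ∀ᶠ ξ in 𝓝 (0 : V), H ξ = 0) :
    ∃ e j, Hd H e j 0 ≠ 0 := by
  by_contra hall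
  push Not at hall
  apply hne
  filter_upwards [Metric.ball_mem_nhds (0 : V) hρ] with ξ hξ
  set f : ℝ → ℝ := fun τ => H (τ • ξ) with hf
  set O : Set ℝ := {τ | τ • ξ ∈ Metric.ball (0 : V) ρ} with hO
  have hOo : IsOpen O := Metric.isOpen_ball.preimage (by fun_prop : Continuous fun τ : ℝ => τ • ξ)
  have h0O : (0 : ℝ) ∈ O := by simp [hO, hρ]
  have h1O : (1 : ℝ) ∈ O := by simpa [hO] using hξ
  have hOc : Convex ℝ O := by
    have := (convex_ball (0 : V) ρ).linear_preimage (LinearMap.toSpanSingleton ℝ V ξ)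
    exact this
  have hfa : AnalyticOnNhd ℝ f O := by
    intro τ hτ
    have : AnalyticAt ℝ (fun τ : ℝ => τ • ξ) τ := by fun_prop
    exact AnalyticAt.comp (g := H) (f := fun τ : ℝ => τ • ξ) (hH _ hτ) this
  have hit : ∀ j, ∀ τ ∈ O, iteratedDeriv j f τ = Hd H ξ j (τ • ξ) := by
    intro j
    induction j with
    | zero => intro τ _; simp [hf, Hd]
    | succ j ih =>
      intro τ hτ
      rw [iteratedDeriv_succ]
      have e1 : iteratedDeriv j f =ᶠ[𝓝 τ] fun t => Hd H ξ j (t • ξ) := by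
        filter_upwards [hOo.mem_nhds hτ] with t ht
        exact ih t ht
      rw [e1.deriv_eq]
      have := Hd_line ξ hH j 0 1 τ (by rw [zero_add, mul_one]; exact hτ)
      simp only [one_pow, one_mul, zero_add, mul_one] at this
      exact this.deriv
  have hz : ∀ᶠ τ in 𝓝 (0 : ℝ), f τ = 0 := by
    have h1 := (hfa 0 h0O).hasFPowerSeriesAt
    rw [h1.locally_zero_iff]
    have : (fun n => iteratedDeriv n f 0 / (n.factorial : ℝ)) = fun _ => 0 := by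
      funext n
      rw [hit n 0 h0O, zero_smul, hall, zero_div]
    rw [this]
    ext n; simp
  have := hfa.eqOn_zero_of_preconnected_of_eventuallyEq_zero hOc.isPreconnected h0O hz h1O
  simpa [hf] using this

/-- transfer of the inequality from the chart -/
lemma kl_transfer {E : Type*} [NormedAddCommGroup E] [NormedSpace ℝ E]
    {φ : E} {G : E → E} {F : E → ℝ} {Fs : ℝ} (hGc : Continuous G)
    {P : E →L[ℝ] ℝ × ℝ} {g' : ℝ × ℝ → E} {ρ r0 K : ℝ} (hc : Chart G F φ P g' ρ r0 K)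
    {ψ : E} (hψb : ψ ∈ Metric.ball φ r0) (hψ : G ψ = 0) {θ C1 : ℝ} (hθ0 : 1 / 2 ≤ θ) (hθ1 : θ < 1)
    (hC1 : 0 ≤ C1)
    (h : ∀ᶠ ξ in 𝓝 (P (ψ - φ)), |F (g' ξ) - Fs| ^ θ ≤ C1 * ‖fderiv ℝ (fun ξ => F (g' ξ)) ξ‖) :
    ∃ C', 0 ≤ C' ∧ ∀ᶠ f in 𝓝 ψ, |F f - Fs| ^ θ ≤ C' * ‖G f‖ := by
  have hK := hc.hK
  refine ⟨(K + 1) + C1 * (K * K), by positivity, ?_⟩
  have t1 : Tendsto (fun f => P (f - φ)) (𝓝 ψ) (𝓝 (P (ψ - φ))) := by
    have : ContinuousAt (fun f => P (f - φ)) ψ := by fun_prop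
    exact this
  have t2 : ∀ᶠ f in 𝓝 ψ, ‖G f‖ < 1 := by
    have : Tendsto (fun f => ‖G f‖) (𝓝 ψ) (𝓝 ‖G ψ‖) := hGc.norm.continuousAt
    rw [hψ, norm_zero] at this
    exact this.eventually (gt_mem_nhds one_pos)
  filter_upwards [t1.eventually h, t2, Metric.isOpen_ball.mem_nhds hψb] with f h1 h2 h3
  have hG0 := norm_nonneg (G f)
  set ξ := P (f - φ) with hξ
  have a1 : |F f - Fs| ≤ K * ‖G f‖ ^ 2 + |F (g' ξ) - Fs| := by
    have e : F f - Fs = (F f - F (g' ξ)) + (F (g' ξ) - Fs) := by ring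
    rw [e]
    exact (abs_add_le _ _).trans (add_le_add (hc.Fdiff f h3) le_rfl)
  have hθ : 0 ≤ θ := by linarith
  have a2 : |F f - Fs| ^ θ ≤ (K * ‖G f‖ ^ 2) ^ θ + |F (g' ξ) - Fs| ^ θ :=
    (Real.rpow_le_rpow (abs_nonneg _) a1 hθ).trans
      (Real.rpow_add_le_add_rpow (by positivity) (abs_nonneg _) hθ hθ1.le)
  have a3 : (K * ‖G f‖ ^ 2) ^ θ ≤ (K + 1) * ‖G f‖ := by
    rw [Real.mul_rpow hK (by positivity)]
    have b1 : K ^ θ ≤ K + 1 := by
      calc K ^ θ ≤ (K + 1) ^ θ := Real.rpow_le_rpow hK (by linarith) hθ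
        _ ≤ (K + 1) ^ (1 : ℝ) := Real.rpow_le_rpow_of_exponent_le (by linarith) hθ1.le
        _ = K + 1 := Real.rpow_one _
    have b2 : (‖G f‖ ^ 2) ^ θ ≤ ‖G f‖ := by
      rcases hG0.eq_or_lt with h0 | hpos
      · rw [← h0]; simp [Real.zero_rpow (by linarith : θ ≠ 0)]
      · rw [← Real.rpow_natCast, ← Real.rpow_mul hG0]
        calc ‖G f‖ ^ (((2 : ℕ) : ℝ) * θ) ≤ ‖G f‖ ^ (1 : ℝ) :=
              Real.rpow_le_rpow_of_exponent_ge hpos h2.le (by push_cast; linarith)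
          _ = ‖G f‖ := Real.rpow_one _
    exact mul_le_mul b1 b2 (Real.rpow_nonneg (by positivity) _) (by positivity)
  have hξb := hc.maps f h3
  have a4 : |F (g' ξ) - Fs| ^ θ ≤ C1 * (K * (K * ‖G f‖)) := by
    refine h1.trans (mul_le_mul_of_nonneg_left ?_ hC1)
    exact (hc.der ξ hξb).trans (mul_le_mul_of_nonneg_left (hc.Gle f h3) hK)
  calc |F f - Fs| ^ θ ≤ (K + 1) * ‖G f‖ + C1 * (K * (K * ‖G f‖)) := by linarith
    _ = _ := by ring

/-- the local inequality in the plane -/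
lemma kl_plane {H : ℝ × ℝ → ℝ} {U : Set (ℝ × ℝ)} (hUc : Convex ℝ U)
    (hH : AnalyticOnNhd ℝ H U) {e : ℝ × ℝ} {n : ℕ} {h : ℝ} (hh : h ≠ 0)
    (hU : ∀ ξ ∈ U, |Hd H e (n + 2) ξ - h| ≤ |h| / 2)
    {ξ ξ' : ℝ × ℝ} (hξ : ξ ∈ U) (hξ' : ξ' ∈ U) {t : ℝ} (ht : ξ = ξ' + t • e)
    (hz : ∀ i < n + 2, Hd H e i ξ' = 0) :
    |H ξ| ^ (((n : ℝ) + 1) / (n + 2)) ≤
      ((3 / 2 * |h|) ^ (((n : ℝ) + 1) / (n + 2)) * (2 * ((n + 1).factorial : ℝ) / |h|) * ‖e‖) * ‖fderiv ℝ H ξ‖ := by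
  have hθ : 0 < ((n : ℝ) + 1) / (n + 2) := by positivity
  have hh' : 0 < |h| := abs_pos.2 hh
  set f : ℕ → ℝ → ℝ := fun i τ => t ^ i * Hd H e i (ξ' + (τ * t) • e) with hf
  have hmem : ∀ τ ∈ Set.Icc (0 : ℝ) 1, ξ' + (τ * t) • e ∈ U := by
    intro τ hτ
    have : ξ' + (τ * t) • e = (1 - τ) • ξ' + τ • ξ := by rw [ht]; module
    rw [this]
    exact hUc hξ' hξ (by linarith [hτ.2]) hτ.1 (by ring)
  have hder : ∀ i < n + 2, ∀ τ ∈ Set.Icc (0 : ℝ) 1, HasDerivAt (f i) (f (i + 1) τ) τ :=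
    fun i _ τ hτ => Hd_line e hH i ξ' t τ (hmem τ hτ)
  have h0 : ∀ i < n + 2, f i 0 = 0 := by
    intro i hi
    simp [hf, hz i hi]
  set s : ℝ := t ^ (n + 2) * h with hs
  have hdiff : ∀ τ ∈ Set.Icc (0 : ℝ) 1, |f (n + 2) τ - s| ≤ |s| / 2 := by
    intro τ hτ
    have e1 : f (n + 2) τ - s = t ^ (n + 2) * (Hd H e (n + 2) (ξ' + (τ * t) • e) - h) := by
      simp only [hf, hs]; ring
    rw [e1, abs_mul, hs, abs_mul]
    have := hU _ (hmem τ hτ)
    have h2 : 0 ≤ |t ^ (n + 2)| := abs_nonneg _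
    nlinarith
  have hlo := taylor01 f (n + 2) hder h0 (a := s - |s| / 2) (fun τ hτ => by
    have := abs_le.1 (hdiff τ hτ); linarith [this.1])
  have hup := taylor01 (fun i τ => - f i τ) (n + 2)
    (fun i hi τ hτ => (hder i hi τ hτ).neg) (fun i hi => by simp [h0 i hi]) (a := -(s + |s| / 2))
    (fun τ hτ => by have := abs_le.1 (hdiff τ hτ); linarith [this.2])
  have l0 := hlo (n + 2) le_rfl 1 (by simp)
  have l1 := hlo (n + 1) (by omega) 1 (by simp)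
  have u0 := hup (n + 2) le_rfl 1 (by simp)
  have u1 := hup (n + 1) (by omega) 1 (by simp)
  simp only [Nat.sub_self, one_pow, mul_one, show n + 2 - (n + 1) = 1 by omega] at l0 l1 u0 u1
  have hf0 : f 0 1 = H ξ := by simp [hf, Hd, ht]
  have hf1 : f 1 1 = t * fderiv ℝ H ξ e := by simp [hf, Hd, ht]
  rw [hf0] at l0 u0
  rw [hf1] at l1 u1
  have F2 : (1 : ℝ) ≤ ((n + 2).factorial : ℝ) := by exact_mod_cast Nat.factorial_pos _
  have F1 : (0 : ℝ) < ((n + 1).factorial : ℝ) := by positivity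
  have F2' : (0 : ℝ) < ((n + 2).factorial : ℝ) := by positivity
  -- bound for H
  have b0 : |H ξ| ≤ 3 / 2 * |s| := by
    rw [div_le_iff₀ F2'] at l0 u0
    have hsa := abs_nonneg s
    have c1 := neg_abs_le s
    have c2 := le_abs_self s
    rw [abs_le]
    constructor
    · by_contra hcon
      push Not at hcon
      nlinarith
    · by_contra hcon
      push Not at hcon
      nlinarith
  have b1 : |s| / 2 / ((n + 1).factorial : ℝ) ≤ |t * fderiv ℝ H ξ e| := by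
    rcases le_total 0 s with h1 | h1
    · rw [abs_of_nonneg h1] at l1 ⊢
      refine le_trans (le_of_eq ?_) (l1.trans (le_abs_self _))
      ring
    · rw [abs_of_nonpos h1] at u1 ⊢
      refine le_trans (le_of_eq ?_) (u1.trans (neg_le_abs _))
      ring
  have hsabs : |s| = |t| ^ (n + 2) * |h| := by rw [hs, abs_mul, abs_pow]
  have he : |fderiv ℝ H ξ e| ≤ ‖fderiv ℝ H ξ‖ * ‖e‖ := (fderiv ℝ H ξ).le_opNorm e
  rcases eq_or_ne t 0 with ht0 | ht0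
  · have : |H ξ| = 0 := by
      rw [hsabs, ht0] at b0
      simp only [abs_zero] at b0
      rw [zero_pow (by omega)] at b0
      have := abs_nonneg (H ξ)
      linarith
    rw [this, Real.zero_rpow hθ.ne']
    positivity
  · have ht' : 0 < |t| := abs_pos.2 ht0
    have b2 : |t| ^ (n + 1) * |h| / (2 * ((n + 1).factorial : ℝ)) ≤ ‖fderiv ℝ H ξ‖ * ‖e‖ := by
      rw [hsabs, abs_mul] at b1
      have : |t| ^ (n + 2) * |h| / 2 / ((n + 1).factorial : ℝ)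
        = |t| * (|t| ^ (n + 1) * |h| / (2 * ((n + 1).factorial : ℝ))) := by
        rw [pow_succ]; field_simp
      rw [this] at b1
      exact (le_of_mul_le_mul_left b1 ht').trans he
    have b3 : |H ξ| ^ (((n : ℝ) + 1) / (n + 2)) ≤ (3 / 2 * |h|) ^ (((n : ℝ) + 1) / (n + 2)) * |t| ^ (n + 1) := by
      have c1 : |H ξ| ≤ (3 / 2 * |h|) * |t| ^ (n + 2) := by rw [hsabs] at b0; linarith
      refine (Real.rpow_le_rpow (abs_nonneg _) c1 hθ.le).trans (le_of_eq ?_)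
      rw [Real.mul_rpow (by positivity) (by positivity)]
      congr 1
      rw [← Real.rpow_natCast |t| (n + 2), ← Real.rpow_mul ht'.le, ← Real.rpow_natCast |t| (n + 1)]
      congr 1
      push_cast
      field_simp
    refine b3.trans ?_
    have hp : 0 ≤ (3 / 2 * |h|) ^ (((n : ℝ) + 1) / (n + 2)) := by positivity
    have b4 : |t| ^ (n + 1) ≤ 2 * ((n + 1).factorial : ℝ) / |h| * (‖fderiv ℝ H ξ‖ * ‖e‖) := by
      rw [div_le_iff₀ (by positivity)] at b2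
      rw [div_mul_eq_mul_div, le_div_iff₀ hh']
      linarith
    calc _ ≤ (3 / 2 * |h|) ^ (((n : ℝ) + 1) / (n + 2)) *
          (2 * ((n + 1).factorial : ℝ) / |h| * (‖fderiv ℝ H ξ‖ * ‖e‖)) := mul_le_mul_of_nonneg_left b4 hp
      _ = _ := by ring

theorem kl_of_chart {E : Type*} [NormedAddCommGroup E] [NormedSpace ℝ E] {Λ : Set E}
    (hΛ : IsPreconnected Λ) {φ : E} (hφ : φ ∈ Λ) {G : E → E} {F : E → ℝ} {Fs : ℝ} (hGc : Continuous G)
    (hG0 : ∀ ψ ∈ Λ, G ψ = 0) (hF0 : ∀ ψ ∈ Λ, F ψ = Fs)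
    {P : E →L[ℝ] ℝ × ℝ} {g' : ℝ × ℝ → E} {ρ r0 K : ℝ} (hc : Chart G F φ P g' ρ r0 K) :
    ∃ ψ ∈ Λ, Λ = {ψ} ∨ ∃ θ : ℝ, 1 / 2 ≤ θ ∧ θ < 1 ∧
      ∃ C', 0 ≤ C' ∧ ∀ᶠ f in 𝓝 ψ, |F f - Fs| ^ θ ≤ C' * ‖G f‖ := by
  classical
  have hK := hc.hK
  set H : ℝ × ℝ → ℝ := fun ξ => F (g' ξ) - Fs with hH
  have hHa : AnalyticOnNhd ℝ H (Metric.ball 0 ρ) := fun ξ hξ => (hc.ana ξ hξ).sub analyticAt_const
  have hHf : ∀ ξ, fderiv ℝ H ξ = fderiv ℝ (fun ξ => F (g' ξ)) ξ := fun ξ => by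
    rw [hH, fderiv_sub_const]
  have hrep : ∀ ψ ∈ Λ, ψ ∈ Metric.ball φ r0 → g' (P (ψ - φ)) = ψ := by
    intro ψ hψ hb
    have := hc.dist ψ hb
    rw [hG0 ψ hψ, norm_zero, mul_zero] at this
    have h2 := norm_le_zero_iff.1 this
    exact (sub_eq_zero.1 h2).symm
  have hH0 : ∀ ψ ∈ Λ, ψ ∈ Metric.ball φ r0 → H (P (ψ - φ)) = 0 := by
    intro ψ hψ hb
    simp only [hH]
    rw [hrep ψ hψ hb, hF0 ψ hψ, sub_self]
  have hH1 : ∀ ψ ∈ Λ, ψ ∈ Metric.ball φ r0 → fderiv ℝ H (P (ψ - φ)) = 0 := by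
    intro ψ hψ hb
    have := hc.der _ (hc.maps ψ hb)
    rw [hrep ψ hψ hb, hG0 ψ hψ, norm_zero, mul_zero] at this
    rw [hHf]
    exact norm_le_zero_iff.1 this
  have hφb : φ ∈ Metric.ball φ r0 := Metric.mem_ball_self hc.hr0
  have hP0 : P (φ - φ) = 0 := by simp
  by_cases hz : ∀ᶠ ξ in 𝓝 (0 : ℝ × ℝ), H ξ = 0
  · refine ⟨φ, hφ, Or.inr ⟨1 / 2, le_rfl, by norm_num, ?_⟩⟩
    refine kl_transfer hGc hc hφb (hG0 φ hφ) (C1 := 0) le_rfl (by norm_num) le_rfl ?_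
    rw [hP0]
    filter_upwards [hz] with ξ hξ
    simp only [hH] at hξ
    rw [hξ, abs_zero, Real.zero_rpow (by norm_num), zero_mul]
  obtain ⟨e, j, hej⟩ := exists_dir hc.hρ hHa hz
  have hex : ∃ k, ∃ ψ ∈ Λ, ψ ∈ Metric.ball φ r0 ∧ Hd H e k (P (ψ - φ)) ≠ 0 :=
    ⟨j, φ, hφ, hφb, by rw [hP0]; exact hej⟩
  obtain ⟨ψ0, hψ0, hψ0b, hk⟩ := Nat.find_spec hex
  have hmin : ∀ i < Nat.find hex, ∀ ψ ∈ Λ, ψ ∈ Metric.ball φ r0 → Hd H e i (P (ψ - φ)) = 0 := by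
    intro i hi ψ hψ hb
    by_contra hcon
    exact Nat.find_min hex hi ⟨ψ, hψ, hb, hcon⟩
  obtain ⟨n, hn⟩ : ∃ n, Nat.find hex = n + 2 := by
    refine ⟨Nat.find hex - 2, ?_⟩
    have h1 : Nat.find hex ≠ 0 := by
      intro h0
      rw [h0] at hk
      exact hk (hH0 ψ0 hψ0 hψ0b)
    have h2 : Nat.find hex ≠ 1 := by
      intro h0
      rw [h0] at hk
      apply hk
      change fderiv ℝ H _ e = 0
      rw [hH1 ψ0 hψ0 hψ0b]; rfl
    omega
  rw [hn] at hk hmin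
  by_cases hsing : Λ = {ψ0}
  · exact ⟨ψ0, hψ0, Or.inl hsing⟩
  have hne : ∃ ψ' ∈ Λ, ψ' ≠ ψ0 := by
    by_contra hcon
    push Not at hcon
    exact hsing (Set.eq_singleton_iff_unique_mem.2 ⟨hψ0, hcon⟩)
  set ξ0 := P (ψ0 - φ) with hξ0
  have hξ0b : ξ0 ∈ Metric.ball (0 : ℝ × ℝ) ρ := hc.maps ψ0 hψ0b
  set h := Hd H e (n + 2) ξ0 with hh
  set A : ℝ × ℝ →L[ℝ] ℝ := fderiv ℝ (Hd H e (n + 1)) ξ0 with hA
  have hAe : A e = h := rfl
  have he : e ≠ 0 := by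
    intro h0
    rw [h0, map_zero] at hAe
    exact hk hAe.symm
  set w : ℝ × ℝ →L[ℝ] ℝ := e.2 • ContinuousLinearMap.fst ℝ ℝ ℝ - e.1 • ContinuousLinearMap.snd ℝ ℝ ℝ
    with hw
  have hwker : ∀ η : ℝ × ℝ, w η = 0 → ∃ t : ℝ, η = t • e := by
    intro η hη
    have h1 : e.2 * η.1 - e.1 * η.2 = 0 := by simpa [hw] using hη
    by_cases h2 : e.1 = 0
    · have h3 : e.2 ≠ 0 := by
        intro h3
        exact he (Prod.ext h2 h3)
      refine ⟨η.2 / e.2, ?_⟩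
      have h4 : η.1 = 0 := by
        rw [h2, zero_mul, sub_zero] at h1
        exact (mul_eq_zero.1 h1).resolve_left h3
      refine Prod.ext ?_ ?_
      · simp [h2, h4]
      · simp only [Prod.smul_snd, smul_eq_mul]; field_simp
    · refine ⟨η.1 / e.1, ?_⟩
      refine Prod.ext ?_ ?_
      · simp only [Prod.smul_fst, smul_eq_mul]; field_simp
      · simp only [Prod.smul_snd, smul_eq_mul]; field_simp; linarith
  set L : ℝ × ℝ →L[ℝ] ℝ × ℝ := A.prod w with hL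
  have hLker : LinearMap.ker (L : ℝ × ℝ →ₗ[ℝ] ℝ × ℝ) = ⊥ := by
    rw [LinearMap.ker_eq_bot']
    intro η hη
    have h1 : A η = 0 ∧ w η = 0 := by
      have : (A η, w η) = ((0 : ℝ), (0 : ℝ)) := hη
      exact ⟨congrArg Prod.fst this, congrArg Prod.snd this⟩
    obtain ⟨t, rfl⟩ := hwker η h1.2
    have : t * h = 0 := by rw [← hAe, ← smul_eq_mul, ← map_smul]; exact h1.1
    rw [(mul_eq_zero.1 this).resolve_right hk, zero_smul]
  obtain ⟨c, hc0, hanti⟩ := LinearMap.exists_antilipschitzWith _ hLker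
  have hcL : ∀ η : ℝ × ℝ, ‖η‖ ≤ c * (|A η| + |w η|) := by
    intro η
    have := hanti.le_mul_dist η 0
    rw [dist_zero_right, map_zero, dist_zero_right] at this
    refine this.trans (mul_le_mul_of_nonneg_left ?_ c.2)
    change ‖(A η, w η)‖ ≤ _
    rw [Prod.norm_def]
    refine max_le ?_ ?_
    · rw [Real.norm_eq_abs]; linarith [abs_nonneg (w η)]
    · rw [Real.norm_eq_abs]; linarith [abs_nonneg (A η)]
  have hcpos : (0 : ℝ) < c := hc0
  -- neighbourhood in the plane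
  have hst : HasStrictFDerivAt (Hd H e (n + 1)) A ξ0 := (Hd_ana e hHa (n + 1) ξ0 hξ0b).hasStrictFDerivAt
  obtain ⟨s, hs, hsA⟩ := hst.approximates_deriv_on_nhds (c := (2 * c)⁻¹) (Or.inr (by positivity))
  have hcont : ∀ᶠ ξ in 𝓝 ξ0, |Hd H e (n + 2) ξ - h| < |h| / 2 := by
    have h1 : ContinuousAt (Hd H e (n + 2)) ξ0 := (Hd_ana e hHa (n + 2) ξ0 hξ0b).continuousAt
    have h2 := (Metric.tendsto_nhds.1 h1) (|h| / 2) (by have := abs_pos.2 hk; positivity)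
    simpa [Real.dist_eq] using h2
  have hev : ∀ᶠ ξ in 𝓝 ξ0, ξ ∈ s ∧ |Hd H e (n + 2) ξ - h| < |h| / 2 ∧ ξ ∈ Metric.ball (0 : ℝ × ℝ) ρ :=
    (show ∀ᶠ ξ in 𝓝 ξ0, ξ ∈ s from hs).and (hcont.and (Metric.isOpen_ball.mem_nhds hξ0b))
  obtain ⟨δ, hδ, hδb⟩ := Metric.eventually_nhds_iff_ball.1 hev
  have hPc : Continuous (fun f : E => P (f - φ)) := by fun_prop
  have hev2 : ∀ᶠ ψ in 𝓝 ψ0, P (ψ - φ) ∈ Metric.ball ξ0 δ ∧ ψ ∈ Metric.ball φ r0 :=
    (hPc.continuousAt.eventually (Metric.ball_mem_nhds ξ0 hδ)).and (Metric.isOpen_ball.mem_nhds hψ0b)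
  obtain ⟨r1, hr1, hr1b⟩ := Metric.eventually_nhds_iff_ball.1 hev2
  set W : E → ℝ := fun ψ => w (P (ψ - φ)) with hW
  have hWc : Continuous W := w.continuous.comp hPc
  have hgraph : ∀ ψ ∈ Λ, ∀ ψ' ∈ Λ, dist ψ ψ0 < r1 → dist ψ' ψ0 < r1 →
      dist ψ ψ' ≤ (2 * c * K + 1) * |W ψ - W ψ'| := by
    intro ψ hψ ψ' hψ' hd hd'
    obtain ⟨a1, a2⟩ := hr1b ψ hd
    obtain ⟨b1, b2⟩ := hr1b ψ' hd'
    have e1 : Hd H e (n + 1) (P (ψ - φ)) = 0 := hmin (n + 1) (by omega) ψ hψ a2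
    have e2 : Hd H e (n + 1) (P (ψ' - φ)) = 0 := hmin (n + 1) (by omega) ψ' hψ' b2
    have e3 := hsA _ (hδb _ a1).1 _ (hδb _ b1).1
    rw [e1, e2, sub_zero, zero_sub, norm_neg, Real.norm_eq_abs] at e3
    have e4 := hcL (P (ψ - φ) - P (ψ' - φ))
    set η := P (ψ - φ) - P (ψ' - φ) with hη
    have e5 : |w η| = |W ψ - W ψ'| := by rw [hη, map_sub]
    push_cast at e3
    have e6 : (c : ℝ) * |A η| ≤ ‖η‖ / 2 := by
      calc (c : ℝ) * |A η| ≤ c * ((2 * (c : ℝ))⁻¹ * ‖η‖) := mul_le_mul_of_nonneg_left e3 hcpos.le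
        _ = ‖η‖ / 2 := by field_simp
    have e7 : ‖η‖ ≤ 2 * c * |W ψ - W ψ'| := by
      rw [← e5]
      have : (c : ℝ) * (|A η| + |w η|) = c * |A η| + c * |w η| := by ring
      rw [this] at e4
      linarith
    have e8 : dist ψ ψ' ≤ K * ‖η‖ := by
      rw [dist_eq_norm]
      nth_rewrite 1 [← hrep ψ hψ a2, ← hrep ψ' hψ' b2]
      exact hc.lip _ (hδb _ a1).2.2 _ (hδb _ b1).2.2
    have e9 : K * ‖η‖ ≤ K * (2 * c * |W ψ - W ψ'|) := mul_le_mul_of_nonneg_left e7 hK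
    have e10 := abs_nonneg (W ψ - W ψ')
    linarith
  obtain ⟨ψ1, hψ1, hd1, δ1, hδ1, harc⟩ := arc hΛ hψ0 hWc hr1 (by positivity : 0 < 2 * (c : ℝ) * K + 1) hgraph hne
  obtain ⟨a1, a2⟩ := hr1b ψ1 hd1
  have hθ0 : (1 : ℝ) / 2 ≤ ((n : ℝ) + 1) / (n + 2) := by
    rw [div_le_div_iff₀ (by norm_num) (by positivity)]
    have : (0 : ℝ) ≤ n := Nat.cast_nonneg n
    linarith
  have hθ1 : ((n : ℝ) + 1) / (n + 2) < 1 := by
    rw [div_lt_one (by positivity)]; linarith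
  refine ⟨ψ1, hψ1, Or.inr ⟨((n : ℝ) + 1) / (n + 2), hθ0, hθ1, ?_⟩⟩
  refine kl_transfer hGc hc a2 (hG0 ψ1 hψ1)
    (C1 := ((3 / 2 * |h|) ^ (((n : ℝ) + 1) / (n + 2)) * (2 * ((n + 1).factorial : ℝ) / |h|) * ‖e‖))
    hθ0 hθ1 (by positivity) ?_
  have hwt : ∀ᶠ ξ in 𝓝 (P (ψ1 - φ)), |w ξ - W ψ1| < δ1 := by
    have h1 : Tendsto w (𝓝 (P (ψ1 - φ))) (𝓝 (w (P (ψ1 - φ)))) := w.continuous.continuousAt
    have h2 := (Metric.tendsto_nhds.1 h1) δ1 hδ1
    simp only [Real.dist_eq] at h2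
    exact h2
  filter_upwards [hwt, Metric.isOpen_ball.mem_nhds a1] with ξ hξ1 hξ2
  obtain ⟨ψ, hψ, hdψ, hWψ⟩ := harc (w ξ) hξ1
  obtain ⟨b1, b2⟩ := hr1b ψ hdψ
  have hw0 : w (ξ - P (ψ - φ)) = 0 := by
    rw [map_sub, sub_eq_zero]; exact hWψ.symm
  obtain ⟨t, ht⟩ := hwker _ hw0
  have hU : ∀ ξ ∈ Metric.ball ξ0 δ, |Hd H e (n + 2) ξ - h| ≤ |h| / 2 := fun ξ hξ => (hδb ξ hξ).2.1.le
  have hHaU : AnalyticOnNhd ℝ H (Metric.ball ξ0 δ) := fun ξ hξ => hHa ξ (hδb ξ hξ).2.2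
  have := kl_plane (convex_ball ξ0 δ) hHaU (e := e) hk hU hξ2 b1 (t := t) (by rw [← ht]; abel)
    (fun i hi => hmin i hi ψ hψ b2)
  rw [hHf] at this
  exact this

end Pool.Agent.Q287.LT
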