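import Mathlib

/-!
# Messages of Lipschitz functions on trees: the Banach algebra and the operator `A`
-/

set_option autoImplicit false

namespace Pool.Agent.Q287.LT

open Filter Topology BoundedContinuousFunction

/-- bounded sequences indexed by `ℤ` -/
abbrev B := BoundedContinuousFunction ℤ ℝ

/-- the weight -/
noncomputable def w (i : ℤ) : ℝ := (1 / 2 : ℝ) ^ i.natAbs

lemma w_pos (i : ℤ) : 0 < w i := by unfold w; positivity

lemma w_le_one (i : ℤ) : w i ≤ 1 := by
  unfold w; exact pow_le_one₀ (by norm_num) (by norm_num)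

lemma w_le_two (i j : ℤ) (h : i.natAbs ≤ j.natAbs + 1) : w j ≤ 2 * w i := by
  unfold w
  have : (1 / 2 : ℝ) ^ (j.natAbs + 1) ≤ (1 / 2 : ℝ) ^ i.natAbs :=
    pow_le_pow_of_le_one (by norm_num) (by norm_num) h
  rw [pow_succ] at this
  linarith

lemma w_add_one (i : ℤ) : w (i + 1) ≤ 2 * w i := w_le_two _ _ (by omega)
lemma w_sub_one (i : ℤ) : w (i - 1) ≤ 2 * w i := w_le_two _ _ (by omega)

lemma w_summable : Summable w := by
  have h1 : Summable (fun n : ℕ => w (n : ℤ)) := by
    simpa [w] using (summable_geometric_of_lt_one (r := (1 / 2 : ℝ)) (by norm_num) (by norm_num))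
  have h2 : Summable (fun n : ℕ => w (-(n : ℤ))) := by
    simpa [w] using (summable_geometric_of_lt_one (r := (1 / 2 : ℝ)) (by norm_num) (by norm_num))
  exact Summable.of_nat_of_neg h1 h2

lemma w_tendsto : Tendsto w cofinite (𝓝 0) := w_summable.tendsto_cofinite_zero

/-- build an element of `B` -/
noncomputable def mk (f : ℤ → ℝ) (C : ℝ) (h : ∀ i, |f i| ≤ C) : B :=
  BoundedContinuousFunction.ofNormedAddCommGroupDiscrete f C (by simpa using h)

@[simp] lemma mk_apply (f : ℤ → ℝ) (C : ℝ) (h : ∀ i, |f i| ≤ C) (i : ℤ) : mk f C h i = f i := rfl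

lemma abs_apply_le (f : B) (i : ℤ) : |f i| ≤ ‖f‖ := by
  have := f.norm_coe_le_norm i
  simpa using this

lemma norm_le' {f : B} {C : ℝ} (hC : 0 ≤ C) (h : ∀ i, |f i| ≤ C) : ‖f‖ ≤ C :=
  (BoundedContinuousFunction.norm_le hC).2 (by simpa using h)

/-- shift -/
noncomputable def shift (s : ℤ) : B →L[ℝ] B :=
  LinearMap.mkContinuous
    { toFun := fun f => mk (fun i => f (i + s)) ‖f‖ (fun i => abs_apply_le f _)
      map_add' := by intro f g; ext i; simp
      map_smul' := by intro c f; ext i; simp } 1 (by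
    intro f
    rw [one_mul]
    exact norm_le' (norm_nonneg _) (fun i => abs_apply_le f _))

@[simp] lemma shift_apply (s : ℤ) (f : B) (i : ℤ) : shift s f i = f (i + s) := rfl

/-- evaluation -/
noncomputable def ev (i : ℤ) : B →L[ℝ] ℝ :=
  LinearMap.mkContinuous
    { toFun := fun f => f i
      map_add' := by intro f g; simp
      map_smul' := by intro c f; simp } 1 (by
    intro f
    rw [one_mul]
    simpa using abs_apply_le f i)

@[simp] lemma ev_apply (i : ℤ) (f : B) : ev i f = f i := rfl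

/-- multiplication -/
noncomputable def mulL (c : B) : B →L[ℝ] B := ContinuousLinearMap.mul ℝ B c

@[simp] lemma mulL_apply (c f : B) : mulL c f = c * f := rfl

/-- coefficient -/
noncomputable def coef (d : ℕ) (s : ℤ) (i : ℤ) : ℝ := w (i + s) ^ d / w i

lemma coef_nonneg (d : ℕ) (s i : ℤ) : 0 ≤ coef d s i := by
  unfold coef; have := w_pos (i + s); have := w_pos i; positivity

lemma coef_pos (d : ℕ) (s i : ℤ) : 0 < coef d s i := by
  unfold coef; have := w_pos (i + s); have := w_pos i; positivity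

lemma coef_le (d : ℕ) (hd : 2 ≤ d) (s : ℤ) (hs : s = -1 ∨ s = 0 ∨ s = 1) (i : ℤ) :
    coef d s i ≤ 2 ^ d * w i := by
  have h1 : w (i + s) ≤ 2 * w i := w_le_two _ _ (by omega)
  have h0 := w_pos i
  have h0' := w_pos (i + s)
  unfold coef
  rw [div_le_iff₀ h0]
  have h2 : w (i + s) ^ d ≤ (2 * w i) ^ d := pow_le_pow_left₀ h0'.le h1 d
  have h3 : (2 * w i) ^ d ≤ 2 ^ d * w i * w i := by
    rw [mul_pow]
    have : w i ^ d ≤ w i ^ 2 := pow_le_pow_of_le_one h0.le (w_le_one i) hd
    nlinarith [pow_pos (show (0:ℝ) < 2 by norm_num) d]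
  exact h2.trans h3

lemma coef_le' (d : ℕ) (hd : 2 ≤ d) (s : ℤ) (hs : s = -1 ∨ s = 0 ∨ s = 1) (i : ℤ) :
    |coef d s i| ≤ 2 ^ d := by
  rw [abs_of_nonneg (coef_nonneg _ _ _)]
  have := coef_le d hd s hs i
  have h1 := w_le_one i
  nlinarith [pow_pos (show (0:ℝ) < 2 by norm_num) d]

/-- the coefficients as elements of `B` -/
noncomputable def coefB (d : ℕ) (s : ℤ) : B := by
  classical
  exact if h : 2 ≤ d ∧ (s = -1 ∨ s = 0 ∨ s = 1) then mk (coef d s) (2 ^ d) (coef_le' d h.1 s h.2)
    else 0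

lemma coefB_apply (d : ℕ) (hd : 2 ≤ d) (s : ℤ) (hs : s = -1 ∨ s = 0 ∨ s = 1) (i : ℤ) :
    coefB d s i = coef d s i := by
  unfold coefB
  rw [dif_pos ⟨hd, hs⟩]
  rfl

/-- the operator `A`: if `u i = w i * f i`, then `w i * A (f ^ d) i = ∑ u j ^ d` -/
noncomputable def A (d : ℕ) : B →L[ℝ] B :=
  mulL (coefB d (-1)) ∘L shift (-1) + mulL (coefB d 0) ∘L shift 0 + mulL (coefB d 1) ∘L shift 1

lemma A_apply (d : ℕ) (hd : 2 ≤ d) (f : B) (i : ℤ) :
    A d f i = coef d (-1) i * f (i - 1) + coef d 0 i * f i + coef d 1 i * f (i + 1) := by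
  simp [A, coefB_apply d hd, sub_eq_add_neg]

lemma w_mul_A (d : ℕ) (hd : 2 ≤ d) (f : B) (i : ℤ) :
    w i * A d f i = w (i - 1) ^ d * f (i - 1) + w i ^ d * f i + w (i + 1) ^ d * f (i + 1) := by
  rw [A_apply d hd]
  have := (w_pos i).ne'
  unfold coef
  rw [add_zero, ← sub_eq_add_neg]
  field_simp

lemma A_nonneg (d : ℕ) (hd : 2 ≤ d) (f : B) (hf : ∀ i, 0 ≤ f i) (i : ℤ) : 0 ≤ A d f i := by
  rw [A_apply d hd]
  have h1 := coef_nonneg d (-1) i
  have h2 := coef_nonneg d 0 i
  have h3 := coef_nonneg d 1 i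
  have := hf (i - 1); have := hf i; have := hf (i + 1)
  positivity

/-- weighted sum functional -/
noncomputable def wsum (ω : ℤ → ℝ) (h0 : ∀ i, 0 ≤ ω i) (hs : Summable ω) : B →L[ℝ] ℝ :=
  have key : ∀ f : B, Summable (fun i => ω i * f i) := fun f => by
    refine Summable.of_norm_bounded (g := fun i => ω i * ‖f‖) (hs.mul_right _) (fun i => ?_)
    rw [norm_mul, Real.norm_of_nonneg (h0 i)]
    exact mul_le_mul_of_nonneg_left (f.norm_coe_le_norm i) (h0 i)
  LinearMap.mkContinuous
    { toFun := fun f => ∑' i, ω i * f i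
      map_add' := by
        intro f g
        rw [← (key f).tsum_add (key g)]
        simp [mul_add]
      map_smul' := by
        intro c f
        simp only [BoundedContinuousFunction.coe_smul, smul_eq_mul, RingHom.id_apply]
        rw [← tsum_mul_left]
        congr 1; ext i; ring } (∑' i, ω i) (by
    intro f
    have h1 : ‖∑' i, ω i * f i‖ ≤ ∑' i, ω i * ‖f‖ := by
      refine tsum_of_norm_bounded (hs.mul_right ‖f‖).hasSum (fun i => ?_)
      rw [norm_mul, Real.norm_of_nonneg (h0 i)]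
      exact mul_le_mul_of_nonneg_left (f.norm_coe_le_norm i) (h0 i)
    rw [tsum_mul_right] at h1
    exact h1)

lemma wsum_apply (ω : ℤ → ℝ) (h0 : ∀ i, 0 ≤ ω i) (hs : Summable ω) (f : B) :
    wsum ω h0 hs f = ∑' i, ω i * f i := rfl

lemma summable_mul (ω : ℤ → ℝ) (h0 : ∀ i, 0 ≤ ω i) (hs : Summable ω) (f : B) :
    Summable (fun i => ω i * f i) := by
  refine Summable.of_norm_bounded (g := fun i => ω i * ‖f‖) (hs.mul_right _) (fun i => ?_)
  rw [norm_mul, Real.norm_of_nonneg (h0 i)]
  exact mul_le_mul_of_nonneg_left (f.norm_coe_le_norm i) (h0 i)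

lemma wpow_summable (k : ℕ) (hk : 1 ≤ k) : Summable (fun i => w i ^ k) := by
  refine Summable.of_nonneg_of_le (fun i => pow_nonneg (w_pos i).le _) (fun i => ?_) w_summable
  calc w i ^ k ≤ w i ^ 1 := pow_le_pow_of_le_one (w_pos i).le (w_le_one i) hk
    _ = w i := pow_one _

lemma wpow_nonneg (k : ℕ) (i : ℤ) : 0 ≤ w i ^ k := pow_nonneg (w_pos i).le _

/-- the functional `∑ w i ^ (d+1) * f i` -/
noncomputable def sg (d : ℕ) : B →L[ℝ] ℝ :=
  wsum (fun i => w i ^ (d + 1)) (wpow_nonneg _) (wpow_summable _ (by omega))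

lemma sg_apply (d : ℕ) (f : B) : sg d f = ∑' i, w i ^ (d + 1) * f i := rfl

lemma sg_summable (d : ℕ) (f : B) : Summable (fun i => w i ^ (d + 1) * f i) :=
  summable_mul _ (wpow_nonneg _) (wpow_summable _ (by omega)) f

lemma sg_nonneg (d : ℕ) (f : B) (hf : ∀ i, 0 ≤ f i) : 0 ≤ sg d f := by
  rw [sg_apply]
  exact tsum_nonneg (fun i => mul_nonneg (wpow_nonneg _ _) (hf i))

lemma sg_le_of_nonneg (d : ℕ) (f : B) (hf : ∀ i, 0 ≤ f i) (i : ℤ) : w i ^ (d + 1) * f i ≤ sg d f := by
  rw [sg_apply]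
  exact (sg_summable d f).le_tsum i (fun j _ => mul_nonneg (wpow_nonneg _ _) (hf j))

lemma sg_eq_zero (d : ℕ) (f : B) (hf : ∀ i, 0 ≤ f i) (h : sg d f = 0) : f = 0 := by
  ext i
  have h1 := sg_le_of_nonneg d f hf i
  rw [h] at h1
  have h2 := hf i
  have h3 := pow_pos (w_pos i) (d + 1)
  have : f i ≤ 0 := by
    by_contra hcon
    push Not at hcon
    have := mul_pos h3 hcon
    linarith
  simp; linarith

lemma sg_mono (d : ℕ) (f g : B) (h : ∀ i, f i ≤ g i) : sg d f ≤ sg d g := by
  have := sg_nonneg d (g - f) (fun i => by simpa using h i)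
  rw [map_sub] at this; linarith

/-- symmetry of `A` -/
lemma sg_symm (d : ℕ) (hd : 2 ≤ d) (f g : B) : sg d (f * A d g) = sg d (g * A d f) := by
  have key : ∀ f g : B, sg d (f * A d g) =
      (∑' i, w i ^ d * w (i - 1) ^ d * (f i * g (i - 1))) + (∑' i, w i ^ d * w i ^ d * (f i * g i))
      + ∑' i, w i ^ d * w (i + 1) ^ d * (f i * g (i + 1)) := by
    intro f g
    have hb : ∀ s : ℤ, Summable (fun i => w i ^ d * w (i + s) ^ d * (f i * g (i + s))) := by
      intro s
      refine Summable.of_norm_bounded (g := fun i => w i ^ d * (‖f‖ * ‖g‖))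
        ((wpow_summable d (by omega)).mul_right _) (fun i => ?_)
      rw [norm_mul, norm_mul, norm_mul, Real.norm_of_nonneg (wpow_nonneg _ _),
        Real.norm_of_nonneg (wpow_nonneg _ _)]
      have h1 : w (i + s) ^ d ≤ 1 := pow_le_one₀ (w_pos _).le (w_le_one _)
      have h2 := f.norm_coe_le_norm i
      have h3 := g.norm_coe_le_norm (i + s)
      have h4 := wpow_nonneg d i
      have h5 := wpow_nonneg d (i + s)
      have h6 : ‖f i‖ * ‖g (i + s)‖ ≤ ‖f‖ * ‖g‖ := mul_le_mul h2 h3 (norm_nonneg _) (norm_nonneg _)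
      calc w i ^ d * w (i + s) ^ d * (‖f i‖ * ‖g (i + s)‖)
          ≤ w i ^ d * 1 * (‖f i‖ * ‖g (i + s)‖) := by gcongr
        _ ≤ w i ^ d * (‖f‖ * ‖g‖) := by rw [mul_one]; gcongr
    have h0 := hb 0
    have hm := hb (-1)
    have hp := hb 1
    simp only [add_zero, ← sub_eq_add_neg] at h0 hm
    rw [sg_apply, ← hm.tsum_add h0, ← (hm.add h0).tsum_add hp]
    congr 1; ext i
    have := w_mul_A d hd g i
    rw [BoundedContinuousFunction.mul_apply, pow_succ]
    calc w i ^ d * w i * (f i * A d g i) = w i ^ d * f i * (w i * A d g i) := by ring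
      _ = _ := by rw [this]; ring
  rw [key f g, key g f]
  have e1 : (∑' i, w i ^ d * w (i - 1) ^ d * (f i * g (i - 1)))
      = ∑' i, w i ^ d * w (i + 1) ^ d * (g i * f (i + 1)) := by
    rw [← (Equiv.addRight (1 : ℤ)).tsum_eq]
    congr 1; ext i
    simp only [Equiv.coe_addRight, add_sub_cancel_right]
    ring
  have e2 : (∑' i, w i ^ d * w (i + 1) ^ d * (f i * g (i + 1)))
      = ∑' i, w i ^ d * w (i - 1) ^ d * (g i * f (i - 1)) := by
    rw [← (Equiv.addRight (-1 : ℤ)).tsum_eq]
    congr 1; ext i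
    simp only [Equiv.coe_addRight, ← sub_eq_add_neg, sub_add_cancel]
    ring
  have e3 : (∑' i, w i ^ d * w i ^ d * (f i * g i)) = ∑' i, w i ^ d * w i ^ d * (g i * f i) := by
    congr 1; ext i; ring
  rw [e1, e2, e3]; ring

/-! ### compactness -/

lemma compact_rank_one (φ : B →L[ℝ] ℝ) (x : B) : IsCompactOperator (φ.smulRight x) := by
  have h1 : IsCompactOperator φ := isCompactOperator_of_locallyCompactSpace_dom φ
  have h2 := h1.clm_comp (ContinuousLinearMap.toSpanSingleton ℝ x)
  have e : (φ.smulRight x : B → B) = (ContinuousLinearMap.toSpanSingleton ℝ x) ∘ φ := by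
    ext f; simp [ContinuousLinearMap.toSpanSingleton_apply]
  rw [e]; exact h2

lemma compact_finsum {ι : Type*} (s : Finset ι) (T : ι → (B →L[ℝ] B))
    (h : ∀ i ∈ s, IsCompactOperator (T i)) : IsCompactOperator (∑ i ∈ s, T i : B →L[ℝ] B) := by
  classical
  induction s using Finset.induction_on with
  | empty => simpa using isCompactOperator_zero
  | insert a s ha ih =>
    rw [Finset.sum_insert ha]
    exact (h a (Finset.mem_insert_self _ _)).add (ih (fun i hi => h i (Finset.mem_insert_of_mem hi)))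

/-- unit vector -/
noncomputable def dl (i : ℤ) : B := mk (fun j => if j = i then 1 else 0) 1 (by
  intro j; split_ifs <;> simp)

lemma dl_apply (i j : ℤ) : dl i j = if j = i then 1 else 0 := rfl

lemma compact_mul (c : B) (hc : Tendsto (fun i => c i) cofinite (𝓝 0)) :
    IsCompactOperator (mulL c) := by
  classical
  let T : Finset ℤ → (B →L[ℝ] B) := fun s => ∑ i ∈ s, (ev i).smulRight (c i • dl i)
  have hT : ∀ s f j, T s f j = if j ∈ s then c j * f j else 0 := by
    intro s f j
    simp only [T]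
    rw [ContinuousLinearMap.sum_apply]
    have e1 : (∑ i ∈ s, ((ev i).smulRight (c i • dl i)) f) j
        = ∑ i ∈ s, (((ev i).smulRight (c i • dl i)) f) j := by
      change ev j (∑ i ∈ s, ((ev i).smulRight (c i • dl i)) f) = _
      rw [map_sum]; rfl
    rw [e1]
    simp only [ContinuousLinearMap.smulRight_apply, ev_apply, BoundedContinuousFunction.coe_smul,
      smul_eq_mul, dl_apply]
    have e2 : ∀ i ∈ s, f i * (c i * if j = i then (1 : ℝ) else 0) = if j = i then c j * f j else 0 := by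
      intro i _
      split_ifs with h
      · subst h; ring
      · ring
    rw [Finset.sum_congr rfl e2, Finset.sum_ite_eq]
  refine isCompactOperator_of_tendsto (l := atTop) (F := T) (f := mulL c) ?_
    (Eventually.of_forall fun s => compact_finsum s _ (fun i _ => compact_rank_one _ _))
  rw [Metric.tendsto_nhds]
  intro ε hε
  have hfin : {i : ℤ | ¬ (|c i| < ε / 2)}.Finite := by
    have := (Metric.tendsto_nhds.1 hc) (ε / 2) (by positivity)
    rw [Filter.eventually_cofinite] at this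
    simpa [Real.dist_eq] using this
  filter_upwards [eventually_ge_atTop hfin.toFinset] with s hs
  rw [dist_eq_norm]
  have : ‖T s - mulL c‖ ≤ ε / 2 := by
    refine ContinuousLinearMap.opNorm_le_bound _ (by positivity) (fun f => ?_)
    refine norm_le' (by positivity) (fun j => ?_)
    have e : (T s - mulL c) f j = (if j ∈ s then c j * f j else 0) - c j * f j := by
      rw [ContinuousLinearMap.sub_apply, BoundedContinuousFunction.sub_apply, hT]; rfl
    rw [e]
    split_ifs with hj
    · simp; positivity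
    · have h1 : |c j| < ε / 2 := by
        by_contra hcon
        exact hj (hs (by simpa using hcon))
      rw [zero_sub, abs_neg, abs_mul]
      exact mul_le_mul h1.le (abs_apply_le f j) (abs_nonneg _) (by positivity)
  linarith

lemma coefB_tendsto (d : ℕ) (hd : 2 ≤ d) (s : ℤ) (hs : s = -1 ∨ s = 0 ∨ s = 1) :
    Tendsto (fun i => coefB d s i) cofinite (𝓝 0) := by
  have h1 : Tendsto (fun i => 2 ^ d * w i) cofinite (𝓝 0) := by
    simpa using w_tendsto.const_mul ((2 : ℝ) ^ d)
  refine squeeze_zero (fun i => ?_) (fun i => ?_) h1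
  · rw [coefB_apply d hd s hs]; exact coef_nonneg _ _ _
  · rw [coefB_apply d hd s hs]; exact coef_le d hd s hs i

lemma compact_A (d : ℕ) (hd : 2 ≤ d) : IsCompactOperator (A d) := by
  have h1 := (compact_mul _ (coefB_tendsto d hd (-1) (by simp))).comp_clm (shift (-1))
  have h2 := (compact_mul _ (coefB_tendsto d hd 0 (by simp))).comp_clm (shift 0)
  have h3 := (compact_mul _ (coefB_tendsto d hd 1 (by simp))).comp_clm (shift 1)
  exact (h1.add h2).add h3

end Pool.Agent.Q287.LT
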