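import Pool.Agent.Q287.LT.LT9

/-!
# Convergence of the laws
-/

set_option autoImplicit false

namespace Pool.Agent.Q287.LT

open Filter Topology BoundedContinuousFunction MeasureTheory ProbabilityTheory
open scoped ENNReal NNReal

variable {d : ℕ}

/-- the profile of an element of `B` -/
noncomputable def uF (f : B) : ℤ → ℝ≥0 := fun i => Real.toNNReal (w i * f i)

lemma T_nonneg (hd : 2 ≤ d) {f : B} (hf : ∀ i, 0 ≤ f i) : ∀ i, 0 ≤ T d f i :=
  A_nonneg d hd _ (fun i => by simp only [BoundedContinuousFunction.pow_apply]; exact pow_nonneg (hf i) _)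

lemma uF_T (hd : 2 ≤ d) {f : B} (hf : ∀ i, 0 ≤ f i) : TU d (uF f) = uF (T d f) := by
  funext i
  have h1 := w_mul_A d hd (f ^ d) i
  have h2 : w i * T d f i = (w (i - 1) * f (i - 1)) ^ d + (w i * f i) ^ d + (w (i + 1) * f (i + 1)) ^ d := by
    rw [T, h1]
    simp only [BoundedContinuousFunction.pow_apply]
    ring
  have p : ∀ j, 0 ≤ w j * f j := fun j => mul_nonneg (w_pos j).le (hf j)
  simp only [uF, TU]
  rw [h2, Real.toNNReal_add (by have := p (i - 1); have := p i; positivity) (pow_nonneg (p _) _),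
    Real.toNNReal_add (pow_nonneg (p _) _) (pow_nonneg (p _) _),
    Real.toNNReal_pow (p _), Real.toNNReal_pow (p _), Real.toNNReal_pow (p _)]

lemma uF_iter (hd : 2 ≤ d) {f : B} (hf : ∀ i, 0 ≤ f i) (r : ℕ) :
    (TU d)^[r] (uF f) = uF ((T d)^[r] f) ∧ ∀ i, 0 ≤ ((T d)^[r] f) i := by
  induction r with
  | zero => exact ⟨rfl, hf⟩
  | succ r ih =>
    rw [Function.iterate_succ_apply', Function.iterate_succ_apply', ih.1, uF_T hd ih.2]
    exact ⟨rfl, T_nonneg hd ih.2⟩

lemma Wt_cont (r : ℕ) (g : Ball d r → ℤ) : Continuous (fun f : B => Wt d (uF f) r g) := by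
  induction r with
  | zero =>
    simp only [Wt, uF]
    have : Continuous (fun f : B => w (g (rt d 0)) * f (g (rt d 0))) :=
      continuous_const.mul (ev (g (rt d 0))).continuous
    exact (continuous_real_toNNReal.comp this).pow d
  | succ r ih =>
    simp only [Wt]
    refine continuous_finsetProd _ (fun i _ => ?_)
    split_ifs
    · exact ih _
    · exact continuous_const

/-- partition function -/
noncomputable def ZZ (d r : ℕ) (u : ℤ → ℝ≥0) : ℝ≥0∞ := ∑' x, (((TU d)^[r] u x : ℝ≥0) : ℝ≥0∞) ^ d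

lemma ZZ_total (u : ℤ → ℝ≥0) (n : ℕ) : ∑' f : Ball d n → ℤ, (Wt d u n f : ℝ≥0∞) = ZZ d n u := sum_total u n

/-- summation functional -/
noncomputable def tau (d : ℕ) (hd : 1 ≤ d) : B →L[ℝ] ℝ :=
  wsum (fun i => w i ^ d) (wpow_nonneg _) (wpow_summable _ hd)

lemma ZZ_eq (hd : 2 ≤ d) {f : B} (hf : ∀ i, 0 ≤ f i) (r : ℕ) :
    ZZ d r (uF f) = ENNReal.ofReal (tau d (by omega) (((T d)^[r] f) ^ d)) := by
  obtain ⟨h1, h2⟩ := uF_iter hd hf r
  rw [ZZ, h1, tau, wsum_apply, ENNReal.ofReal_tsum_of_nonneg]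
  · congr 1; ext x
    simp only [uF]
    rw [← ENNReal.coe_pow, ← Real.toNNReal_pow (mul_nonneg (w_pos x).le (h2 x)), ENNReal.ofReal]
    congr 2
    simp only [BoundedContinuousFunction.pow_apply]
    ring
  · intro x
    simp only [BoundedContinuousFunction.pow_apply]
    exact mul_nonneg (wpow_nonneg _ _) (pow_nonneg (h2 x) _)
  · exact summable_mul _ (wpow_nonneg _) (wpow_summable _ (by omega)) _

lemma Pos.iter (hd : 2 ≤ d) {f : B} (h : Pos f) (r : ℕ) : Pos ((T d)^[r] f) := by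
  induction r with
  | zero => exact h
  | succ r ih => rw [Function.iterate_succ_apply']; exact ih.A hd

lemma ZZ_pos (hd : 2 ≤ d) {f : B} (h : Pos f) (r : ℕ) : ZZ d r (uF f) ≠ 0 := by
  rw [ZZ_eq hd h.1]
  have hp := h.iter hd r
  obtain ⟨h1, i, hi⟩ := hp
  have h2 : 0 < tau d (by omega) (((T d)^[r] f) ^ d) := by
    rw [tau, wsum_apply]
    have hs := summable_mul (fun i => w i ^ d) (wpow_nonneg _) (wpow_summable d (by omega)) (((T d)^[r] f) ^ d)
    refine hs.tsum_pos (fun j => ?_) i ?_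
    · simp only [BoundedContinuousFunction.pow_apply]
      exact mul_nonneg (wpow_nonneg _ _) (pow_nonneg (h1 j) _)
    · simp only [BoundedContinuousFunction.pow_apply]
      exact mul_pos (pow_pos (w_pos _) _) (pow_pos hi _)
  exact (ENNReal.ofReal_pos.2 h2).ne'

lemma ZZ_fin (hd : 2 ≤ d) {f : B} (h : Pos f) (r : ℕ) : ZZ d r (uF f) ≠ ⊤ := by
  rw [ZZ_eq hd h.1]; exact ENNReal.ofReal_ne_top

/-! scaling -/

lemma Wt_smul (c : ℝ≥0) (u : ℤ → ℝ≥0) (r : ℕ) (g : Ball d r → ℤ) :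
    Wt d (fun i => c * u i) r g = c ^ (d ^ (r + 1)) * Wt d u r g := by
  induction r with
  | zero => simp only [Wt, mul_pow, zero_add, pow_one]
  | succ r ih =>
    simp only [Wt]
    have : ∀ i, (if |g (rt d (r + 1)) - sub g i (rt d r)| ≤ 1 then Wt d (fun i => c * u i) r (sub g i) else 0)
      = c ^ (d ^ (r + 1)) * (if |g (rt d (r + 1)) - sub g i (rt d r)| ≤ 1 then Wt d u r (sub g i) else 0) := by
      intro i
      split_ifs
      · exact ih _
      · simp
    simp only [this]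
    rw [Finset.prod_mul_distrib, Finset.prod_const, Finset.card_univ, Fintype.card_fin, ← pow_mul,
      ← pow_succ]

lemma TU_smul (c : ℝ≥0) (u : ℤ → ℝ≥0) (r : ℕ) :
    (TU d)^[r] (fun i => c * u i) = fun i => c ^ (d ^ r) * (TU d)^[r] u i := by
  induction r with
  | zero => simp
  | succ r ih =>
    rw [Function.iterate_succ_apply', Function.iterate_succ_apply', ih]
    funext i
    simp only [TU, mul_pow, ← pow_mul, ← pow_succ]
    ring

lemma ZZ_smul (c : ℝ≥0) (u : ℤ → ℝ≥0) (r : ℕ) :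
    ZZ d r (fun i => c * u i) = ((c ^ (d ^ (r + 1)) : ℝ≥0) : ℝ≥0∞) * ZZ d r u := by
  rw [ZZ, TU_smul, ZZ, ← ENNReal.tsum_mul_left]
  congr 1; ext x
  push_cast
  rw [mul_pow, ← pow_mul, ← pow_succ]

lemma U_nonneg (S : Finset ℤ) (k : ℕ) : ∀ i, 0 ≤ U d S k i := by
  induction k with
  | zero => intro i; simp only [U]; split_ifs <;> norm_num
  | succ k ih =>
    intro i
    have := ih (i - 1); have := ih i; have := ih (i + 1)
    simp only [U]; positivity

lemma TU_ind (S : Finset ℤ) (k : ℕ) :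
    (TU d)^[k] (ind S) = fun i => Real.toNNReal (U d S k i) := by
  induction k with
  | zero =>
    funext i
    simp only [Function.iterate_zero, id_eq, ind, U]
    split_ifs <;> simp
  | succ k ih =>
    rw [Function.iterate_succ_apply', ih]
    funext i
    have h := U_nonneg (d := d) S k
    simp only [TU, U]
    rw [Real.toNNReal_add (by have := h (i - 1); have := h i; positivity) (pow_nonneg (h _) _),
      Real.toNNReal_add (pow_nonneg (h _) _) (pow_nonneg (h _) _),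
      Real.toNNReal_pow (h _), Real.toNNReal_pow (h _), Real.toNNReal_pow (h _)]

lemma TU_ind_orb (hd : 2 ≤ d) (S : Finset ℤ) (hS : S.Nonempty) (k : ℕ) :
    ∃ c : ℝ≥0, c ≠ 0 ∧ (TU d)^[k] (ind S) = fun i => c * uF (orb d S k) i := by
  obtain ⟨κ, hκ, hU⟩ := orb_U hd S hS k
  refine ⟨Real.toNNReal κ, (Real.toNNReal_pos.2 hκ).ne', ?_⟩
  rw [TU_ind]
  funext i
  rw [hU, Real.toNNReal_mul hκ.le]
  rfl

/-! ### laws -/

/-- the law of the restriction to the ball of radius `r` of a uniform random Lipschitz function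
on the ball of radius `n` with leaf values in `S` -/
noncomputable def law (d : ℕ) (S : Finset ℤ) (n r : ℕ) : Measure (Ball d r → ℤ) :=
  (uniformOn (Lip d n (S : Set ℤ))).map (restr d n r)

lemma count_eq {Y : Type*} [MeasurableSpace Y] [Countable Y] [MeasurableSingletonClass Y] (s : Set Y) :
    (Measure.count s : ℝ≥0∞) = by classical exact ∑' y, if y ∈ s then 1 else 0 := by
  classical
  have h1 : MeasurableSet s := s.to_countable.measurableSet
  rw [← lintegral_indicator_one h1, lintegral_count]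
  congr 1

lemma count_Lip (hd : 1 ≤ d) (S : Finset ℤ) (n : ℕ) :
    (Measure.count (Lip d n (S : Set ℤ)) : ℝ≥0∞) = ZZ d n (ind S) := by
  classical
  rw [count_eq, ← ZZ_total]
  congr 1; ext f
  rw [Wt_ind hd]
  split_ifs <;> simp

lemma ZZ_split (k r : ℕ) (u : ℤ → ℝ≥0) : ZZ d (k + r) u = ZZ d r ((TU d)^[k] u) := by
  rw [ZZ, ZZ, add_comm, Function.iterate_add_apply]

lemma count_restr (hd : 1 ≤ d) (S : Finset ℤ) (k r : ℕ) (g : Ball d r → ℤ) :
    (Measure.count (Lip d (k + r) (S : Set ℤ) ∩ (restr d (k + r) r) ⁻¹' {g}) : ℝ≥0∞)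
      = ((Wt d ((TU d)^[k] (ind S)) r g : ℝ≥0) : ℝ≥0∞) := by
  classical
  rw [count_eq, ← sum_restr]
  congr 1; ext f
  rw [Wt_ind hd]
  simp only [Set.mem_inter_iff, Set.mem_preimage, Set.mem_singleton_iff]
  by_cases h1 : restr d (k + r) r f = g
  · by_cases h2 : f ∈ Lip d (k + r) (S : Set ℤ)
    · simp [h1, h2]
    · simp [h1, h2]
  · simp [h1]

lemma ZZ_ratio (hd : 2 ≤ d) (S : Finset ℤ) (hS : S.Nonempty) (k r : ℕ) :
    ZZ d (k + r) (ind S) ≠ 0 ∧ ZZ d (k + r) (ind S) ≠ ⊤ ∧ ∀ g : Ball d r → ℤ,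
      ((Wt d ((TU d)^[k] (ind S)) r g : ℝ≥0) : ℝ≥0∞) / ZZ d (k + r) (ind S)
        = ((Wt d (uF (orb d S k)) r g : ℝ≥0) : ℝ≥0∞) / ZZ d r (uF (orb d S k)) := by
  obtain ⟨c, hc, hTU⟩ := TU_ind_orb hd S hS k
  have hp := orb_pos hd S hS k
  have e := ZZ_split (d := d) k r (ind S)
  rw [hTU, ZZ_smul] at e
  have hc1 : ((c ^ (d ^ (r + 1)) : ℝ≥0) : ℝ≥0∞) ≠ 0 := by
    rw [ENNReal.coe_ne_zero]; exact pow_ne_zero _ hc
  have hc2 : ((c ^ (d ^ (r + 1)) : ℝ≥0) : ℝ≥0∞) ≠ ⊤ := ENNReal.coe_ne_top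
  refine ⟨?_, ?_, fun g => ?_⟩
  · rw [e]; exact mul_ne_zero hc1 (ZZ_pos hd hp r)
  · rw [e]; exact ENNReal.mul_ne_top hc2 (ZZ_fin hd hp r)
  · rw [e, hTU, Wt_smul, ENNReal.coe_mul, ENNReal.mul_div_mul_left _ _ hc1 hc2]

lemma law_prob' (hd : 2 ≤ d) (S : Finset ℤ) (hS : S.Nonempty) (k r : ℕ) :
    IsProbabilityMeasure (law d S (k + r) r) := by
  obtain ⟨h0, h1, -⟩ := ZZ_ratio hd S hS k r
  rw [← count_Lip (by omega)] at h0 h1
  have : IsProbabilityMeasure (uniformOn (Lip d (k + r) (S : Set ℤ))) :=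
    cond_isProbabilityMeasure_of_finite h0 h1
  exact Measure.isProbabilityMeasure_map (measurable_of_countable _).aemeasurable

lemma law_singleton (hd : 2 ≤ d) (S : Finset ℤ) (hS : S.Nonempty) (k r : ℕ) (g : Ball d r → ℤ) :
    law d S (k + r) r {g}
      = ((Wt d (uF (orb d S k)) r g : ℝ≥0) : ℝ≥0∞) / ZZ d r (uF (orb d S k)) := by
  rw [law, Measure.map_apply (measurable_of_countable _) (measurableSet_singleton g), uniformOn,
    cond_apply (Set.to_countable _).measurableSet, count_restr (by omega), count_Lip (by omega),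
    ← (ZZ_ratio hd S hS k r).2.2 g, mul_comm]
  rfl

/-- pointwise convergence of the masses implies setwise convergence -/
lemma scheffe {Y : Type*} [Countable Y] [MeasurableSpace Y] [MeasurableSingletonClass Y]
    (μ : ℕ → Measure Y) (hμ : ∀ n, IsProbabilityMeasure (μ n)) (ν : Measure Y) [IsProbabilityMeasure ν]
    (h : ∀ y, Tendsto (fun n => μ n {y}) atTop (𝓝 (ν {y}))) (A : Set Y) :
    Tendsto (fun n => μ n A) atTop (𝓝 (ν A)) := by
  have hm : ∀ A : Set Y, MeasurableSet A := fun A => A.to_countable.measurableSet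
  have rep : ∀ (ρ : Measure Y) (A : Set Y), ρ A = ∫⁻ y, A.indicator (fun y => ρ {y}) y ∂Measure.count := by
    intro ρ A
    rw [lintegral_count]
    exact (ρ.tsum_indicator_apply_singleton A (hm A)).symm
  have low : ∀ A : Set Y, ν A ≤ liminf (fun n => μ n A) atTop := by
    intro A
    rw [rep ν A]
    have e : ∀ y, A.indicator (fun y => ν {y}) y = liminf (fun n => A.indicator (fun y => μ n {y}) y) atTop := by
      intro y
      by_cases hy : y ∈ A
      · simp only [Set.indicator_of_mem hy]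
        exact (h y).liminf_eq.symm
      · simp only [Set.indicator_of_notMem hy]
        simp
    simp only [e]
    refine (lintegral_liminf_le (fun n => measurable_of_countable _)).trans (le_of_eq ?_)
    congr 1
    funext n
    exact (rep (μ n) A).symm
  have ev : ∀ (A : Set Y) (a : ℝ≥0∞), a < ν A → ∀ᶠ n in atTop, a < μ n A := by
    intro A a ha
    exact eventually_lt_of_lt_liminf (lt_of_lt_of_le ha (low A))
  rw [tendsto_order]
  refine ⟨fun a ha => ev A a ha, fun b hb => ?_⟩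
  rcases lt_or_ge 1 b with hb1 | hb1
  · exact Eventually.of_forall (fun n => lt_of_le_of_lt (by have := hμ n; exact prob_le_one) hb1)
  · have hc : ν Aᶜ = 1 - ν A := prob_compl_eq_one_sub (hm A)
    have h1 : 1 - b < ν Aᶜ := by
      rw [hc]
      by_contra hcon
      push Not at hcon
      have := tsub_le_tsub_left hcon 1
      rw [ENNReal.sub_sub_cancel ENNReal.one_ne_top hb1,
        ENNReal.sub_sub_cancel ENNReal.one_ne_top prob_le_one] at this
      exact absurd hb (not_lt.2 this)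
    filter_upwards [ev Aᶜ _ h1] with n hn
    have := hμ n
    rw [prob_compl_eq_one_sub (hm A)] at hn
    by_contra hcon
    push Not at hcon
    exact absurd hn (not_lt.2 (tsub_le_tsub_left hcon 1))

/-- limit law -/
lemma limit_law (hd : 2 ≤ d) (S : Finset ℤ) (hS : S.Nonempty) (r : ℕ) {κ : ℕ → ℕ} {φ : B}
    (hφ : Pos φ) (hκ : Tendsto (fun j => orb d S (κ j)) atTop (𝓝 φ)) :
    ∃ ν : Measure (Ball d r → ℤ), IsProbabilityMeasure ν ∧
      ∀ A, Tendsto (fun j => law d S (κ j + r) r A) atTop (𝓝 (ν A)) := by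
  set p : (Ball d r → ℤ) → ℝ≥0∞ := fun g => ((Wt d (uF φ) r g : ℝ≥0) : ℝ≥0∞) / ZZ d r (uF φ) with hp
  have hZ0 := ZZ_pos hd hφ r
  have hZ1 := ZZ_fin hd hφ r
  set ν : Measure (Ball d r → ℤ) := Measure.count.withDensity p with hν
  have hνs : ∀ g, ν {g} = p g := by
    intro g
    rw [hν, withDensity_apply _ (measurableSet_singleton g), lintegral_singleton,
      Measure.count_singleton, mul_one]
  have hνp : IsProbabilityMeasure ν := by
    constructor
    rw [hν, withDensity_apply _ MeasurableSet.univ, Measure.restrict_univ, lintegral_count]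
    simp only [hp, ENNReal.div_eq_inv_mul]
    rw [ENNReal.tsum_mul_left, ZZ_total]
    exact ENNReal.inv_mul_cancel hZ0 hZ1
  refine ⟨ν, hνp, scheffe _ (fun j => law_prob' hd S hS (κ j) r) ν (fun g => ?_)⟩
  rw [hνs]
  simp only [law_singleton hd S hS]
  have t1 : Tendsto (fun j => ((Wt d (uF (orb d S (κ j))) r g : ℝ≥0) : ℝ≥0∞)) atTop
      (𝓝 ((Wt d (uF φ) r g : ℝ≥0) : ℝ≥0∞)) :=
    ENNReal.tendsto_coe.2 (((Wt_cont r g).tendsto φ).comp hκ)
  have t2 : Tendsto (fun j => ZZ d r (uF (orb d S (κ j)))) atTop (𝓝 (ZZ d r (uF φ))) := by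
    simp only [ZZ_eq hd (orb_pos hd S hS _).1, ZZ_eq hd hφ.1]
    refine ENNReal.tendsto_ofReal ?_
    have hc : Continuous (fun f : B => tau d (by omega) (((T d)^[r] f) ^ d)) := by
      refine (tau d (by omega)).continuous.comp ?_
      exact ((T_cont d).iterate r).pow d
    exact (hc.tendsto φ).comp hκ
  exact ENNReal.Tendsto.div t1 (Or.inr hZ0) t2 (Or.inr ENNReal.coe_ne_top)

/-- limits of the orbit along parities are critical points -/
lemma orb_limits (hd : 2 ≤ d) (S : Finset ℤ) (hS : S.Nonempty) :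
    ∃ L φ φ', Crit d L φ φ' ∧ Tendsto (fun n => orb d S (2 * n)) atTop (𝓝 φ) ∧
      Tendsto (fun n => orb d S (2 * n + 1)) atTop (𝓝 φ') := by
  have ho := orb_Orb hd S hS
  set lam := (fun m => nrm d (A d (orb d S m ^ d))) with hlam
  obtain ⟨C, hC, ht⟩ := orb_tail hd S hS
  obtain ⟨L, hL, hLt, -⟩ := ho.lam_tendsto hC ht
  obtain ⟨φ, hφ⟩ := ho.parity_conv hC ht 0
  obtain ⟨φ', hφ'⟩ := ho.parity_conv hC ht 1
  simp only [add_zero] at hφ
  have h2 : Tendsto (fun n => orb d S (2 * n + 2)) atTop (𝓝 φ) := by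
    have := hφ.comp (tendsto_add_atTop_nat 1)
    exact this
  have e0 : Tendsto (fun n : ℕ => 2 * n) atTop atTop :=
    tendsto_atTop_mono (fun n => by omega : ∀ n : ℕ, n ≤ 2 * n) tendsto_id
  have e1 : Tendsto (fun n : ℕ => 2 * n + 1) atTop atTop :=
    tendsto_atTop_mono (fun n => by omega : ∀ n : ℕ, n ≤ 2 * n + 1) tendsto_id
  have nn : ∀ (f : ℕ → B) (g : B), (∀ k i, 0 ≤ f k i) → Tendsto f atTop (𝓝 g) → ∀ i, 0 ≤ g i := by
    intro f g hf hg i
    have : Tendsto (fun k => ev i (f k)) atTop (𝓝 (ev i g)) := ((ev i).continuous.tendsto g).comp hg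
    exact ge_of_tendsto' this (fun k => hf k i)
  have no : ∀ (f : ℕ → B) (g : B), (∀ k, N d (f k) = 1) → Tendsto f atTop (𝓝 g) → N d g = 1 := by
    intro f g hf hg
    have : Tendsto (fun k => N d (f k)) atTop (𝓝 (N d g)) := ((N_cont d).tendsto g).comp hg
    simp only [hf] at this
    exact (tendsto_nhds_unique this tendsto_const_nhds)
  refine ⟨L, φ, φ', ⟨hd, hL, nn _ _ (fun k => ho.nonneg _) hφ, nn _ _ (fun k => ho.nonneg _) hφ',
    no _ _ (fun k => ho.norm_one _) hφ, no _ _ (fun k => ho.norm_one _) hφ', ?_, ?_⟩, hφ, hφ'⟩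
  · refine tendsto_nhds_unique (((T_cont d).tendsto φ).comp hφ) ?_
    have : ∀ n, (T d ∘ fun n => orb d S (2 * n)) n = lam (2 * n) • orb d S (2 * n + 1) :=
      fun n => ho.T_step (2 * n)
    refine Tendsto.congr (fun n => (this n).symm) ?_
    exact (hLt.comp e0).smul hφ'
  · refine tendsto_nhds_unique (((T_cont d).tendsto φ').comp hφ') ?_
    have : ∀ n, (T d ∘ fun n => orb d S (2 * n + 1)) n = lam (2 * n + 1) • orb d S (2 * n + 2) :=
      fun n => ho.T_step (2 * n + 1)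
    refine Tendsto.congr (fun n => (this n).symm) ?_
    exact (hLt.comp e1).smul h2

lemma Crit.Pos {L : ℝ} {φ φ' : B} (h : Crit d L φ φ') : Pos φ := ⟨h.nonneg, 0, h.pos 0⟩

/-- (b): both parities, every `d ≥ 2` -/
theorem parity_laws (hd : 2 ≤ d) (S : Finset ℤ) (hS : S.Nonempty) (s r : ℕ) :
    ∃ ν : Measure (Ball d r → ℤ), IsProbabilityMeasure ν ∧
      ∀ A, Tendsto (fun n => law d S (2 * n + s) r A) atTop (𝓝 (ν A)) := by
  obtain ⟨L, φ, φ', hc, h0, h1⟩ := orb_limits hd S hS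
  have key : ∀ m : ℕ, ∃ ψ : B, LT.Pos ψ ∧ Tendsto (fun j => orb d S (2 * j + m)) atTop (𝓝 ψ) := by
    intro m
    rcases Nat.even_or_odd' m with ⟨a, ha | ha⟩
    · refine ⟨φ, hc.Pos, ?_⟩
      have := h0.comp (tendsto_add_atTop_nat a)
      refine this.congr (fun n => ?_)
      simp only [Function.comp]
      rw [ha]; congr 1; ring
    · refine ⟨φ', hc.swap.Pos, ?_⟩
      have := h1.comp (tendsto_add_atTop_nat a)
      refine this.congr (fun n => ?_)
      simp only [Function.comp]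
      rw [ha]; congr 1; ring
  obtain ⟨ψ, hψ, ht⟩ := key (r + s)
  obtain ⟨ν, hν, hA⟩ := limit_law hd S hS r hψ ht
  refine ⟨ν, hν, fun A => ?_⟩
  rw [← tendsto_add_atTop_iff_nat r]
  refine (hA A).congr (fun j => ?_)
  rw [show 2 * j + (r + s) + r = 2 * (j + r) + s by ring]

/-- (a): `d = 2` -/
theorem full_laws (S : Finset ℤ) (hS : S.Nonempty) (r : ℕ) :
    ∃ ν : Measure (Ball 2 r → ℤ), IsProbabilityMeasure ν ∧
      ∀ A, Tendsto (fun n => law 2 S n r A) atTop (𝓝 (ν A)) := by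
  obtain ⟨L, φ, φ', hc, h0, h1⟩ := orb_limits (d := 2) le_rfl S hS
  have he : φ = φ' := hc.eq_two
  rw [← he] at h1
  have hfull : Tendsto (fun j => orb 2 S j) atTop (𝓝 φ) := by
    rw [Metric.tendsto_atTop] at h0 h1 ⊢
    intro ε hε
    obtain ⟨N0, hN0⟩ := h0 ε hε
    obtain ⟨N1, hN1⟩ := h1 ε hε
    refine ⟨2 * N0 + 2 * N1 + 1, fun n hn => ?_⟩
    rcases Nat.even_or_odd' n with ⟨a, ha | ha⟩
    · rw [ha]; exact hN0 a (by omega)
    · rw [ha]; exact hN1 a (by omega)
  obtain ⟨ν, hν, hA⟩ := limit_law (d := 2) le_rfl S hS r (κ := fun j => j) hc.Pos hfull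
  refine ⟨ν, hν, fun A => ?_⟩
  rw [← tendsto_add_atTop_iff_nat r]
  exact hA A

end Pool.Agent.Q287.LT
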