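import Pool.Agent.Q287.LT.LT1

/-!
# Normalised orbits: monotonicity of the multipliers and the step bound
-/

set_option autoImplicit false

namespace Pool.Agent.Q287.LT

open Filter Topology BoundedContinuousFunction

/-- pointwise inequality -/
lemma pointwise_ineq (n : ℕ) (a b : ℝ) (ha : 0 ≤ a) (hb : 0 ≤ b) :
    (b - a) ^ 2 * max a b ^ n ≤ b ^ (n + 2) + (n + 1) * a ^ (n + 2) - (n + 2) * (b * a ^ (n + 1)) := by
  induction n with
  | zero => simp; nlinarith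
  | succ n ih =>
    have hP : b ^ (n + 1 + 2) + ((n + 1 : ℕ) + 1) * a ^ (n + 1 + 2) - ((n + 1 : ℕ) + 2) * (b * a ^ (n + 1 + 1))
        = b * (b ^ (n + 2) + (n + 1) * a ^ (n + 2) - (n + 2) * (b * a ^ (n + 1)))
          + (n + 2) * (a ^ (n + 1) * (b - a) ^ 2) := by
      push_cast; ring
    rw [hP]
    have h0 : 0 ≤ (b - a) ^ 2 := sq_nonneg _
    have hpos : 0 ≤ b ^ (n + 2) + (n + 1) * a ^ (n + 2) - (n + 2) * (b * a ^ (n + 1)) := by
      refine le_trans ?_ ih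
      have : 0 ≤ max a b := le_max_of_le_left ha
      positivity
    rcases le_total a b with h | h
    · rw [max_eq_right h] at ih ⊢
      have h1 : b * ((b - a) ^ 2 * b ^ n) ≤ b * (b ^ (n + 2) + (n + 1) * a ^ (n + 2) - (n + 2) * (b * a ^ (n + 1))) :=
        mul_le_mul_of_nonneg_left ih hb
      have h2 : 0 ≤ (n + 2 : ℝ) * (a ^ (n + 1) * (b - a) ^ 2) := by positivity
      have h3 : (b - a) ^ 2 * b ^ (n + 1) = b * ((b - a) ^ 2 * b ^ n) := by ring
      linarith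
    · rw [max_eq_left h]
      have h1 : 0 ≤ b * (b ^ (n + 2) + (n + 1) * a ^ (n + 2) - (n + 2) * (b * a ^ (n + 1))) :=
        mul_nonneg hb hpos
      have h2 : (b - a) ^ 2 * a ^ (n + 1) ≤ (n + 2 : ℝ) * (a ^ (n + 1) * (b - a) ^ 2) := by
        have h4 : 0 ≤ a ^ (n + 1) * (b - a) ^ 2 := by positivity
        nlinarith [show (0 : ℝ) ≤ n from Nat.cast_nonneg n]
      linarith

/-- difference of powers -/
lemma abs_pow_sub_pow (n : ℕ) (a b : ℝ) (ha : 0 ≤ a) (hb : 0 ≤ b) :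
    |b ^ (n + 1) - a ^ (n + 1)| ≤ (n + 1) * (|b - a| * max a b ^ n) := by
  induction n with
  | zero => simp
  | succ n ih =>
    have e : b ^ (n + 1 + 1) - a ^ (n + 1 + 1) = b * (b ^ (n + 1) - a ^ (n + 1)) + a ^ (n + 1) * (b - a) := by
      ring
    rw [e]
    have hM : 0 ≤ max a b := le_max_of_le_left ha
    have h1 : |b * (b ^ (n + 1) - a ^ (n + 1))| ≤ max a b * ((n + 1) * (|b - a| * max a b ^ n)) := by
      rw [abs_mul, abs_of_nonneg hb]
      exact mul_le_mul (le_max_right _ _) ih (abs_nonneg _) hM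
    have h2 : |a ^ (n + 1) * (b - a)| ≤ max a b ^ (n + 1) * |b - a| := by
      rw [abs_mul, abs_of_nonneg (pow_nonneg ha _)]
      exact mul_le_mul_of_nonneg_right (pow_le_pow_left₀ ha (le_max_left _ _) _) (abs_nonneg _)
    refine (abs_add_le _ _).trans ?_
    push_cast
    have e2 : max a b * ((n + 1) * (|b - a| * max a b ^ n)) + max a b ^ (n + 1) * |b - a|
        = (n + 1 + 1) * (|b - a| * max a b ^ (n + 1)) := by ring
    linarith

/-- orbit data -/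
structure Orb (d : ℕ) (x : ℕ → B) (lam : ℕ → ℝ) : Prop where
  hd : 2 ≤ d
  nonneg : ∀ m i, 0 ≤ x m i
  norm_one : ∀ m, sg d (x m ^ (d + 1)) = 1
  lam_pos : ∀ m, 0 < lam m
  step : ∀ m, A d (x m ^ d) = lam m • x (m + 1)

variable {d : ℕ} {x : ℕ → B} {lam : ℕ → ℝ}

lemma Orb.lam_eq (h : Orb d x lam) (m : ℕ) : lam m = sg d (x (m + 1) ^ d * A d (x m ^ d)) := by
  rw [h.step, mul_smul_comm, map_smul, ← pow_succ, h.norm_one, smul_eq_mul, mul_one]

lemma Orb.lam_eq' (h : Orb d x lam) (m : ℕ) :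
    lam m = lam (m + 1) * sg d (x m ^ d * x (m + 2)) := by
  rw [h.lam_eq m, sg_symm d h.hd, h.step (m + 1), mul_smul_comm, map_smul, smul_eq_mul]

/-- the pointwise defect -/
noncomputable def defect (d : ℕ) (b a : B) : B :=
  b ^ (d + 1) + (d : ℝ) • a ^ (d + 1) - ((d : ℝ) + 1) • (b * a ^ d)

lemma defect_apply (b a : B) (i : ℤ) :
    defect d b a i = (b i) ^ (d + 1) + d * (a i) ^ (d + 1) - (d + 1) * (b i * (a i) ^ d) := by
  simp [defect]

lemma defect_ge (hd : 1 ≤ d) (b a : B) (i : ℤ) (ha : 0 ≤ a i) (hb : 0 ≤ b i) :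
    (b i - a i) ^ 2 * max (a i) (b i) ^ (d - 1) ≤ defect d b a i := by
  obtain ⟨n, rfl⟩ : ∃ n, d = n + 1 := ⟨d - 1, by omega⟩
  rw [defect_apply]
  have := pointwise_ineq n (a i) (b i) ha hb
  simp only [Nat.add_sub_cancel]
  push_cast
  have e : b i ^ (n + 1 + 1) + (n + 1) * a i ^ (n + 1 + 1) - (n + 1 + 1) * (b i * a i ^ (n + 1))
    = b i ^ (n + 2) + (n + 1) * a i ^ (n + 2) - (n + 2) * (b i * a i ^ (n + 1)) := by ring
  rw [e]; exact this

lemma Orb.sg_defect (h : Orb d x lam) (m : ℕ) :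
    sg d (defect d (x (m + 2)) (x m)) = (d + 1) * (1 - lam m / lam (m + 1)) := by
  have h1 : sg d (x (m + 2) * x m ^ d) = lam m / lam (m + 1) := by
    have := h.lam_eq' m
    have hp := (h.lam_pos (m + 1)).ne'
    rw [mul_comm (x (m + 2))]
    field_simp
    linarith
  unfold defect
  rw [map_sub, map_add, map_smul, map_smul, h.norm_one, h.norm_one, h1]
  simp only [smul_eq_mul]; ring

lemma Orb.defect_nonneg (h : Orb d x lam) (m : ℕ) (i : ℤ) : 0 ≤ defect d (x (m + 2)) (x m) i := by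
  have hd := h.hd
  refine le_trans ?_ (defect_ge (by omega) _ _ i (h.nonneg _ _) (h.nonneg _ _))
  have : 0 ≤ max (x m i) (x (m + 2) i) := le_max_of_le_left (h.nonneg _ _)
  positivity

lemma Orb.lam_mono (h : Orb d x lam) : Monotone lam := by
  refine monotone_nat_of_le_succ (fun m => ?_)
  have h1 := sg_nonneg d _ (h.defect_nonneg m)
  rw [h.sg_defect] at h1
  have h2 : 0 ≤ 1 - lam m / lam (m + 1) := by
    by_contra hcon
    push Not at hcon
    have : (d + 1 : ℝ) * (1 - lam m / lam (m + 1)) < 0 := mul_neg_of_pos_of_neg (by positivity) hcon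
    linarith
  have h3 := h.lam_pos (m + 1)
  have h4 : lam m / lam (m + 1) ≤ 1 := by linarith
  rwa [div_le_one h3] at h4

/-- tail hypothesis -/
def Tail (x : ℕ → B) (C : ℝ) : Prop := ∀ m i, w i * x m i ≤ C * (1 / 4 : ℝ) ^ i.natAbs

lemma w_sq (i : ℤ) : w i ^ 2 = (1 / 4 : ℝ) ^ i.natAbs := by
  unfold w; rw [← pow_mul, mul_comm, pow_mul]; norm_num

lemma Orb.apply_le (h : Orb d x lam) {C : ℝ} (ht : Tail x C) (m : ℕ) (i : ℤ) : x m i ≤ C * w i := by
  have h1 := ht m i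
  rw [← w_sq] at h1
  have h2 := w_pos i
  have : w i * x m i ≤ w i * (C * w i) := by nlinarith
  exact le_of_mul_le_mul_left this h2

lemma Orb.norm_le (h : Orb d x lam) {C : ℝ} (hC : 0 ≤ C) (ht : Tail x C) (m : ℕ) : ‖x m‖ ≤ C := by
  refine norm_le' hC (fun i => ?_)
  rw [abs_of_nonneg (h.nonneg m i)]
  refine (h.apply_le ht m i).trans ?_
  have := w_le_one i
  nlinarith

lemma norm_pow_le'' (f : B) (n : ℕ) : ‖f ^ n‖ ≤ ‖f‖ ^ n := norm_pow_le f n

/-- bound for the multipliers -/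
lemma Orb.lam_le (h : Orb d x lam) {C : ℝ} (hC : 0 ≤ C) (ht : Tail x C) (m : ℕ) :
    lam m ≤ ‖sg d‖ * (C ^ d * (‖A d‖ * C ^ d)) := by
  have hn := h.norm_le hC ht
  rw [h.lam_eq m]
  refine (le_abs_self _).trans ?_
  rw [← Real.norm_eq_abs]
  refine ((sg d).le_opNorm _).trans ?_
  have h1 : ‖x (m + 1) ^ d‖ ≤ C ^ d :=
    (norm_pow_le'' _ _).trans (pow_le_pow_left₀ (norm_nonneg _) (hn _) _)
  have h2 : ‖x m ^ d‖ ≤ C ^ d :=
    (norm_pow_le'' _ _).trans (pow_le_pow_left₀ (norm_nonneg _) (hn _) _)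
  have h3 : ‖A d (x m ^ d)‖ ≤ ‖A d‖ * C ^ d :=
    ((A d).le_opNorm _).trans (mul_le_mul_of_nonneg_left h2 (norm_nonneg _))
  have h4 : ‖x (m + 1) ^ d * A d (x m ^ d)‖ ≤ C ^ d * (‖A d‖ * C ^ d) :=
    (norm_mul_le _ _).trans (mul_le_mul h1 h3 (norm_nonneg _) (by positivity))
  exact mul_le_mul_of_nonneg_left h4 (norm_nonneg _)

/-- the pointwise estimate on `x (m+2) ^ d - x m ^ d` -/
lemma Orb.pow_diff (h : Orb d x lam) {C : ℝ} (hC : 0 ≤ C) (ht : Tail x C) (m : ℕ) (j : ℤ) :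
    w j ^ d * |(x (m + 2) ^ d) j - (x m ^ d) j| ≤
      (d * C ^ (d - 1) + d) * (d + 1) * w j ^ (d - 1) * √(1 - lam m / lam (m + 1)) := by
  have hd := h.hd
  set a := x m j with ha
  set b := x (m + 2) j with hb
  have ha0 : 0 ≤ a := h.nonneg _ _
  have hb0 : 0 ≤ b := h.nonneg _ _
  set M := max a b with hM
  have hM0 : 0 ≤ M := le_max_of_le_left ha0
  have hMC : M ≤ C * w j := max_le (h.apply_le ht m j) (h.apply_le ht (m + 2) j)
  have hw := w_pos j
  set ε := 1 - lam m / lam (m + 1) with hε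
  have hε0 : 0 ≤ ε := by
    have h1 := sg_nonneg d _ (h.defect_nonneg m)
    rw [h.sg_defect] at h1
    by_contra hcon
    push Not at hcon
    have : (d + 1 : ℝ) * ε < 0 := mul_neg_of_pos_of_neg (by positivity) hcon
    linarith
  have h1 : (b - a) ^ 2 * M ^ (d - 1) ≤ defect d (x (m + 2)) (x m) j := defect_ge (by omega) _ _ j ha0 hb0
  have h2 : w j ^ (d + 1) * defect d (x (m + 2)) (x m) j ≤ (d + 1) * ε := by
    rw [← h.sg_defect]; exact sg_le_of_nonneg d _ (h.defect_nonneg m) j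
  have h3 : |b ^ d - a ^ d| ≤ d * (|b - a| * M ^ (d - 1)) := by
    obtain ⟨n, rfl⟩ : ∃ n, d = n + 1 := ⟨d - 1, by omega⟩
    have := abs_pow_sub_pow n a b ha0 hb0
    simpa using this
  -- square
  have h4 : (w j ^ d * |b ^ d - a ^ d|) ^ 2 ≤ (d ^ 2 * C ^ (d - 1) * (d + 1)) * (w j ^ (d - 1)) ^ 2 * ε := by
    have e1 : (w j ^ d * |b ^ d - a ^ d|) ^ 2 ≤ (w j ^ d) ^ 2 * (d * (|b - a| * M ^ (d - 1))) ^ 2 := by
      rw [mul_pow]; gcongr
    have e2 : (w j ^ d) ^ 2 * (d * (|b - a| * M ^ (d - 1))) ^ 2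
        = (d ^ 2 * M ^ (d - 1)) * (w j ^ d) ^ 2 * ((b - a) ^ 2 * M ^ (d - 1)) := by
      rw [mul_pow, mul_pow, sq_abs]; ring
    have e3 : M ^ (d - 1) ≤ C ^ (d - 1) * w j ^ (d - 1) := by
      rw [← mul_pow]; exact pow_le_pow_left₀ hM0 hMC _
    have e4 : (w j ^ d) ^ 2 = w j ^ (d - 1) * w j ^ (d + 1) := by
      rw [← pow_mul, ← pow_add]; congr 1; omega
    calc (w j ^ d * |b ^ d - a ^ d|) ^ 2 ≤ _ := e1
      _ = _ := e2
      _ ≤ (d ^ 2 * (C ^ (d - 1) * w j ^ (d - 1))) * (w j ^ d) ^ 2 * defect d (x (m + 2)) (x m) j := by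
          gcongr
      _ = (d ^ 2 * C ^ (d - 1)) * (w j ^ (d - 1)) ^ 2 * (w j ^ (d + 1) * defect d (x (m + 2)) (x m) j) := by
          rw [e4]; ring
      _ ≤ (d ^ 2 * C ^ (d - 1)) * (w j ^ (d - 1)) ^ 2 * ((d + 1) * ε) := by gcongr
      _ = _ := by ring
  have h5 : (d ^ 2 * C ^ (d - 1) * (d + 1)) * (w j ^ (d - 1)) ^ 2 * ε
      ≤ ((d * C ^ (d - 1) + d) * (d + 1) * w j ^ (d - 1) * √ε) ^ 2 := by
    have e1 : ((d * C ^ (d - 1) + d) * (d + 1) * w j ^ (d - 1) * √ε) ^ 2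
      = ((d * C ^ (d - 1) + d) * (d + 1)) ^ 2 * (w j ^ (d - 1)) ^ 2 * ε := by
      rw [mul_pow, mul_pow, Real.sq_sqrt hε0]
    rw [e1]
    have e2 : (d ^ 2 * C ^ (d - 1) * (d + 1) : ℝ) ≤ ((d * C ^ (d - 1) + d) * (d + 1)) ^ 2 := by
      have hc : 0 ≤ C ^ (d - 1) := pow_nonneg hC _
      have hd' : (2 : ℝ) ≤ d := by exact_mod_cast hd
      set c := C ^ (d - 1)
      have : ((d * c + d) * (d + 1)) ^ 2 = (d : ℝ) ^ 2 * (d + 1) * ((d + 1) * (c + 1) ^ 2) := by ring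
      rw [this]
      have h6 : c ≤ (d + 1) * (c + 1) ^ 2 := by nlinarith [sq_nonneg c]
      have h7 : (0 : ℝ) ≤ (d : ℝ) ^ 2 * (d + 1) := by positivity
      nlinarith
    gcongr
  have h6 : 0 ≤ (d * C ^ (d - 1) + d) * (d + 1) * w j ^ (d - 1) * √ε := by
    have hc : 0 ≤ C ^ (d - 1) := pow_nonneg hC _
    positivity
  have h7 := abs_le_of_sq_le_sq' (h4.trans h5) h6
  simpa [ha, hb] using h7.2

/-- the step bound for `A` -/
lemma Orb.A_diff (h : Orb d x lam) {C : ℝ} (hC : 0 ≤ C) (ht : Tail x C) (m : ℕ) :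
    ‖A d (x (m + 2) ^ d) - A d (x m ^ d)‖ ≤
      6 * ((d * C ^ (d - 1) + d) * (d + 1)) * √(1 - lam m / lam (m + 1)) := by
  have hd := h.hd
  have hc : 0 ≤ C ^ (d - 1) := pow_nonneg hC _
  set ε := 1 - lam m / lam (m + 1) with hε
  set κ : ℝ := (d * C ^ (d - 1) + d) * (d + 1) with hκ
  have hκ0 : 0 ≤ κ := by positivity
  refine norm_le' (by positivity) (fun i => ?_)
  have hw := w_pos i
  rw [← map_sub]
  have e := w_mul_A d hd (x (m + 2) ^ d - x m ^ d) i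
  have key : ∀ s : ℤ, (s = -1 ∨ s = 0 ∨ s = 1) →
      |w (i + s) ^ d * (x (m + 2) ^ d - x m ^ d) (i + s)| ≤ 2 * κ * √ε * w i := by
    intro s hs
    have h1 := h.pow_diff hC ht m (i + s)
    have h2 : w (i + s) ≤ 2 * w i := w_le_two _ _ (by omega)
    have h3 : w (i + s) ^ (d - 1) ≤ 2 * w i := by
      refine le_trans ?_ h2
      calc w (i + s) ^ (d - 1) ≤ w (i + s) ^ 1 :=
            pow_le_pow_of_le_one (w_pos _).le (w_le_one _) (by omega)
        _ = w (i + s) := pow_one _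
    rw [abs_mul, abs_of_nonneg (wpow_nonneg _ _)]
    refine h1.trans ?_
    calc κ * w (i + s) ^ (d - 1) * √ε ≤ κ * (2 * w i) * √ε := by gcongr
      _ = 2 * κ * √ε * w i := by ring
  have k1 := key (-1) (by simp)
  have k2 := key 0 (by simp)
  have k3 := key 1 (by simp)
  rw [← sub_eq_add_neg] at k1
  rw [add_zero] at k2
  have : |w i * A d (x (m + 2) ^ d - x m ^ d) i| ≤ 6 * κ * √ε * w i := by
    rw [e]
    refine (abs_add_le _ _).trans ?_
    have := abs_add_le (w (i - 1) ^ d * (x (m + 2) ^ d - x m ^ d) (i - 1))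
      (w i ^ d * (x (m + 2) ^ d - x m ^ d) i)
    linarith
  rw [abs_mul, abs_of_pos hw, mul_comm] at this
  exact le_of_mul_le_mul_right this hw

/-- the step bound -/
lemma Orb.step_bound (h : Orb d x lam) {C : ℝ} (hC : 0 ≤ C) (ht : Tail x C) :
    ∃ K, 0 ≤ K ∧ ∀ m, ‖x (m + 3) - x (m + 1)‖ ≤ K * √(lam (m + 2) - lam m) := by
  have hd := h.hd
  have hc : 0 ≤ C ^ (d - 1) := pow_nonneg hC _
  set κ : ℝ := 6 * ((d * C ^ (d - 1) + d) * (d + 1)) with hκ
  have hκ0 : 0 ≤ κ := by positivity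
  set Lm : ℝ := ‖sg d‖ * (C ^ d * (‖A d‖ * C ^ d)) with hLm
  have hLm0 : 0 ≤ Lm := by positivity
  have l0 := h.lam_pos 0
  refine ⟨(κ * √(1 / lam 0) + √Lm * C) / lam 0, by positivity, fun m => ?_⟩
  have hmono := h.lam_mono
  have a1 : lam 0 ≤ lam m := hmono (Nat.zero_le _)
  have a2 : lam m ≤ lam (m + 1) := hmono (by omega)
  have a3 : lam (m + 1) ≤ lam (m + 2) := hmono (by omega)
  have hx := h.norm_le hC ht (m + 1)
  set D := lam (m + 2) - lam m with hD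
  have hD0 : 0 ≤ D := by linarith
  have b1 : √(1 - lam m / lam (m + 1)) ≤ √(1 / lam 0) * √D := by
    rw [← Real.sqrt_mul (by positivity)]
    apply Real.sqrt_le_sqrt
    have hp : 0 < lam (m + 1) := h.lam_pos _
    have e : 1 - lam m / lam (m + 1) = (1 / lam (m + 1)) * (lam (m + 1) - lam m) := by
      field_simp
    rw [e]
    have : 1 / lam (m + 1) ≤ 1 / lam 0 := one_div_le_one_div_of_le l0 (by linarith)
    have h2 : 0 ≤ 1 / lam 0 := by positivity
    nlinarith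
  have b2 : D ≤ √Lm * √D := by
    have : D ≤ Lm := by
      have := h.lam_le hC ht (m + 2)
      have := h.lam_pos m
      linarith
    calc D = √D * √D := (Real.mul_self_sqrt hD0).symm
      _ ≤ √Lm * √D := mul_le_mul_of_nonneg_right (Real.sqrt_le_sqrt this) (Real.sqrt_nonneg _)
  have e1 : lam (m + 2) • (x (m + 3) - x (m + 1)) =
      (A d (x (m + 2) ^ d) - A d (x m ^ d)) - D • x (m + 1) := by
    rw [h.step, h.step, hD, show m + 2 + 1 = m + 3 from rfl]; module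
  have e2 : lam (m + 2) * ‖x (m + 3) - x (m + 1)‖ ≤ (κ * √(1 / lam 0) + √Lm * C) * √D := by
    have : lam (m + 2) * ‖x (m + 3) - x (m + 1)‖ = ‖lam (m + 2) • (x (m + 3) - x (m + 1))‖ := by
      rw [norm_smul, Real.norm_of_nonneg (h.lam_pos _).le]
    rw [this, e1]
    refine (norm_sub_le _ _).trans ?_
    have f1 := h.A_diff hC ht m
    rw [norm_smul, Real.norm_of_nonneg hD0]
    have f2 : κ * √(1 - lam m / lam (m + 1)) ≤ κ * (√(1 / lam 0) * √D) :=
      mul_le_mul_of_nonneg_left b1 hκ0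
    have f3 : D * ‖x (m + 1)‖ ≤ √Lm * √D * C := mul_le_mul b2 hx (norm_nonneg _) (by positivity)
    calc _ ≤ κ * (√(1 / lam 0) * √D) + √Lm * √D * C := add_le_add (f1.trans f2) f3
      _ = _ := by ring
  have e3 : lam 0 * ‖x (m + 3) - x (m + 1)‖ ≤ (κ * √(1 / lam 0) + √Lm * C) * √D :=
    (mul_le_mul_of_nonneg_right (by linarith) (norm_nonneg _)).trans e2
  rw [div_mul_eq_mul_div, le_div_iff₀ l0]
  linarith

/-- the multipliers converge -/
lemma Orb.lam_tendsto (h : Orb d x lam) {C : ℝ} (hC : 0 ≤ C) (ht : Tail x C) :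
    ∃ L, 0 < L ∧ Tendsto lam atTop (𝓝 L) ∧ ∀ m, lam m ≤ L := by
  have hb : BddAbove (Set.range lam) := ⟨_, by rintro _ ⟨m, rfl⟩; exact h.lam_le hC ht m⟩
  refine ⟨⨆ m, lam m, ?_, tendsto_atTop_ciSup h.lam_mono hb, fun m => le_ciSup hb m⟩
  exact lt_of_lt_of_le (h.lam_pos 0) (le_ciSup hb 0)

end Pool.Agent.Q287.LT
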