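import Pool.Agent.Q287.LT.LT2

/-!
# Tail bound and existence of the normalised orbit
-/

set_option autoImplicit false

namespace Pool.Agent.Q287.LT

open Filter Topology BoundedContinuousFunction

/-- reflection domination -/
lemma dom_prop {d : ℕ} {u : ℕ → ℤ → ℝ} {lam : ℕ → ℝ} (hlam : ∀ m, 0 < lam m)
    (h0 : ∀ m i, 0 ≤ u m i)
    (hs : ∀ m i, lam m * u (m + 1) i = u m (i - 1) ^ d + u m i ^ d + u m (i + 1) ^ d)
    (R : ℤ) (hb : ∀ k i, 2 * R ≤ k → k ≤ 2 * i → u 0 i ≤ u 0 (k - i)) :
    ∀ m k i, 2 * R ≤ k → k ≤ 2 * i → u m i ≤ u m (k - i) := by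
  intro m
  induction m with
  | zero => exact hb
  | succ m ih =>
    intro k i hk hi
    have key : lam m * u (m + 1) i ≤ lam m * u (m + 1) (k - i) := by
      rw [hs, hs]
      rcases lt_trichotomy (k + 1) (2 * i) with h | h | h
      · have e1 := pow_le_pow_left₀ (h0 m (i - 1)) (ih k (i - 1) hk (by omega)) d
        have e2 := pow_le_pow_left₀ (h0 m i) (ih k i hk (by omega)) d
        have e3 := pow_le_pow_left₀ (h0 m (i + 1)) (ih k (i + 1) hk (by omega)) d
        have q1 : k - (i - 1) = k - i + 1 := by ring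
        have q3 : k - (i + 1) = k - i - 1 := by ring
        rw [q1] at e1
        rw [q3] at e3
        linarith
      · have q : k - i = i - 1 := by omega
        have e3 := pow_le_pow_left₀ (h0 m (i + 1)) (ih k (i + 1) hk (by omega)) d
        have q3 : k - (i + 1) = i - 1 - 1 := by omega
        rw [q3] at e3
        rw [q, show i - 1 + 1 = i by ring]
        linarith
      · have q : k - i = i := by omega
        rw [q]
    exact le_of_mul_le_mul_left key (hlam m)

/-- right tail bound -/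
lemma tail_right {d : ℕ} (hd : 2 ≤ d) {u : ℕ → ℤ → ℝ} {lam : ℕ → ℝ} {l0 : ℝ} (hl0 : 0 < l0)
    (hlam : ∀ m, l0 ≤ lam m) (h0 : ∀ m i, 0 ≤ u m i)
    (hs : ∀ m i, lam m * u (m + 1) i = u m (i - 1) ^ d + u m i ^ d + u m (i + 1) ^ d)
    (hone : ∀ m (s : Finset ℤ), ∑ i ∈ s, u m i ^ (d + 1) ≤ 1)
    (R : ℕ) (hb : ∀ k i, 2 * (R : ℤ) ≤ k → k ≤ 2 * i → u 0 i ≤ u 0 (k - i))
    (hz : ∀ i, (R : ℤ) < i → u 0 i = 0) :
    ∃ I : ℕ, ∀ m i, 0 ≤ i → u m i ≤ 4 ^ I * (1 / 4 : ℝ) ^ i.natAbs := by
  have hdom := dom_prop (fun m => lt_of_lt_of_le hl0 (hlam m)) h0 hs R hb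
  have mono1 : ∀ m i, (R : ℤ) ≤ i → u m (i + 1) ≤ u m i := by
    intro m i hi
    have := hdom m (2 * i + 1) (i + 1) (by omega) (by omega)
    rwa [show 2 * i + 1 - (i + 1) = i by ring] at this
  have mono2 : ∀ m (i : ℤ) (n : ℕ), (R : ℤ) ≤ i → u m (i + n) ≤ u m i := by
    intro m i n hi
    induction n with
    | zero => simp
    | succ n ih =>
      have := mono1 m (i + n) (by omega)
      rw [show i + ((n + 1 : ℕ) : ℤ) = i + n + 1 by push_cast; ring]
      exact this.trans ih
  have le1 : ∀ m i, u m i ≤ 1 := by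
    intro m i
    have := hone m {i}
    rw [Finset.sum_singleton] at this
    by_contra hcon
    push Not at hcon
    have := one_lt_pow₀ hcon (show d + 1 ≠ 0 by omega)
    linarith
  set η : ℝ := min 1 (l0 / 12) with hη
  have hη0 : 0 < η := lt_min one_pos (by positivity)
  have hη1 : η ≤ 1 := min_le_left _ _
  have hη2 : η ≤ l0 / 12 := min_le_right _ _
  obtain ⟨n0, hn0⟩ := exists_nat_one_div_lt (pow_pos hη0 (d + 1))
  have small : ∀ m (n : ℕ), n0 ≤ n → u m (R + n) ≤ η := by
    intro m n hn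
    have h1 : ((n : ℝ) + 1) * u m (R + n) ^ (d + 1) ≤ 1 := by
      have := hone m ((Finset.range (n + 1)).map ⟨fun j : ℕ => (R : ℤ) + j, fun a b hab => by
        simpa using hab⟩)
      rw [Finset.sum_map] at this
      refine le_trans ?_ this
      have h2 : ∑ _j ∈ Finset.range (n + 1), u m (R + n) ^ (d + 1) ≤
          ∑ j ∈ Finset.range (n + 1), u m (R + j) ^ (d + 1) := by
        refine Finset.sum_le_sum (fun j hj => ?_)
        have hj' : j ≤ n := by simpa [Nat.lt_succ_iff] using hj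
        have := mono2 m (R + j) (n - j) (by omega)
        rw [show (R : ℤ) + j + ((n - j : ℕ) : ℤ) = R + n by push_cast [Nat.cast_sub hj']; ring] at this
        exact pow_le_pow_left₀ (h0 _ _) this _
      rw [Finset.sum_const, Finset.card_range, nsmul_eq_mul] at h2
      push_cast at h2
      exact h2
    by_contra hcon
    push Not at hcon
    have h2 : η ^ (d + 1) < u m (R + n) ^ (d + 1) := pow_lt_pow_left₀ hcon hη0.le (by omega)
    have h3 : 1 / ((n0 : ℝ) + 1) < u m (R + n) ^ (d + 1) := hn0.trans h2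
    rw [div_lt_iff₀ (by positivity)] at h3
    have h4 : (n0 : ℝ) ≤ n := by exact_mod_cast hn
    have h5 : 0 ≤ u m (R + n) ^ (d + 1) := pow_nonneg (h0 _ _) _
    nlinarith
  have contr : ∀ m (n : ℕ), n0 ≤ n → u (m + 1) (R + n + 1) ≤ (1 / 4) * u m (R + n) := by
    intro m n hn
    have h1 := hs m (R + n + 1)
    rw [show (R : ℤ) + n + 1 - 1 = R + n by ring] at h1
    have h2 : u m (R + n + 1) ≤ u m (R + n) := mono1 m _ (by omega)
    have h3 : u m (R + n + 1 + 1) ≤ u m (R + n) := (mono1 m _ (by omega)).trans h2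
    have h4 : u m (R + n) ≤ η := small m n hn
    have p0 := h0 m (R + n)
    have p2 := pow_le_pow_left₀ (h0 m (R + n + 1)) h2 d
    have p3 := pow_le_pow_left₀ (h0 m (R + n + 1 + 1)) h3 d
    have p4 : u m (R + n) ^ d ≤ η * u m (R + n) := by
      have : u m (R + n) ^ d = u m (R + n) ^ (d - 1) * u m (R + n) := by
        rw [← pow_succ]; congr 1; omega
      rw [this]
      refine mul_le_mul_of_nonneg_right ?_ p0
      calc u m (R + n) ^ (d - 1) ≤ η ^ (d - 1) := pow_le_pow_left₀ p0 h4 _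
        _ ≤ η ^ 1 := pow_le_pow_of_le_one hη0.le hη1 (by omega)
        _ = η := pow_one _
    have p5 : l0 * u (m + 1) (R + n + 1) ≤ lam m * u (m + 1) (R + n + 1) :=
      mul_le_mul_of_nonneg_right (hlam m) (h0 _ _)
    have p6 : l0 * u (m + 1) (R + n + 1) ≤ l0 * ((1 / 4) * u m (R + n)) := by
      have : η * u m (R + n) ≤ (l0 / 12) * u m (R + n) := mul_le_mul_of_nonneg_right hη2 p0
      linarith
    exact le_of_mul_le_mul_left p6 hl0
  have main : ∀ (k : ℕ) m, u m (R + n0 + k) ≤ (1 / 4 : ℝ) ^ k := by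
    intro k
    induction k with
    | zero => intro m; simpa using le1 m _
    | succ k ih =>
      intro m
      cases m with
      | zero => rw [hz _ (by push_cast; omega)]; positivity
      | succ m =>
        have h1 := contr m (n0 + k) (by omega)
        have h2 := ih m
        rw [show (R : ℤ) + ((n0 + k : ℕ) : ℤ) = R + n0 + k by push_cast; ring] at h1
        rw [show (R : ℤ) + n0 + ((k + 1 : ℕ) : ℤ) = R + n0 + k + 1 by push_cast; ring, pow_succ]
        linarith
  refine ⟨R + n0, fun m i hi => ?_⟩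
  obtain ⟨n, rfl⟩ := Int.eq_ofNat_of_zero_le hi
  simp only [Int.natAbs_natCast]
  rcases le_total (R + n0) n with h | h
  · obtain ⟨k, rfl⟩ := Nat.exists_eq_add_of_le h
    have := main k m
    rw [show (((R + n0 + k : ℕ)) : ℤ) = R + n0 + k by push_cast; ring]
    rw [pow_add (1 / 4 : ℝ) (R + n0) k, ← mul_assoc, ← mul_pow]
    norm_num
    simpa using this
  · refine (le1 m _).trans ?_
    obtain ⟨k, hk⟩ := Nat.exists_eq_add_of_le h
    rw [hk, pow_add, mul_right_comm, ← mul_pow]
    norm_num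
    exact one_le_pow₀ (by norm_num)

variable {d : ℕ} {x : ℕ → B} {lam : ℕ → ℝ}

lemma Orb.u_step (h : Orb d x lam) (m : ℕ) (i : ℤ) :
    lam m * (w i * x (m + 1) i) = (w (i - 1) * x m (i - 1)) ^ d + (w i * x m i) ^ d
      + (w (i + 1) * x m (i + 1)) ^ d := by
  have h1 := w_mul_A d h.hd (x m ^ d) i
  rw [h.step] at h1
  simp only [BoundedContinuousFunction.coe_smul, BoundedContinuousFunction.pow_apply, smul_eq_mul] at h1
  rw [mul_pow, mul_pow, mul_pow, ← h1]; ring

lemma Orb.sum_le (h : Orb d x lam) (m : ℕ) (s : Finset ℤ) : ∑ i ∈ s, (w i * x m i) ^ (d + 1) ≤ 1 := by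
  rw [← h.norm_one m, sg_apply]
  have := (sg_summable d (x m ^ (d + 1))).sum_le_tsum s (fun i _ => by
    have := h.nonneg m i
    have := w_pos i
    simp only [BoundedContinuousFunction.pow_apply]
    positivity)
  refine le_trans (le_of_eq ?_) this
  refine Finset.sum_congr rfl (fun i _ => ?_)
  simp [mul_pow]

/-- tail bound for orbits starting from a finitely supported constant profile -/
lemma Orb.tail (h : Orb d x lam) (S : Finset ℤ) (c : ℝ) (hc : 0 ≤ c)
    (h0 : ∀ i, w i * x 0 i = if i ∈ S then c else 0) : ∃ C, 0 ≤ C ∧ Tail x C := by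
  classical
  obtain ⟨R, hR⟩ : ∃ R : ℕ, ∀ i ∈ S, i.natAbs ≤ R := ⟨S.sup Int.natAbs, fun i hi => Finset.le_sup hi⟩
  have hu0 : ∀ m i, 0 ≤ w i * x m i := fun m i => mul_nonneg (w_pos i).le (h.nonneg m i)
  have l0 := h.lam_pos 0
  have hl : ∀ m, lam 0 ≤ lam m := fun m => h.lam_mono (Nat.zero_le m)
  obtain ⟨I1, hI1⟩ := tail_right h.hd (u := fun m i => w i * x m i) l0 hl hu0
    (fun m i => h.u_step m i) (fun m s => h.sum_le m s) R
    (by
      intro k i hk hi
      rw [h0, h0]
      by_cases hiS : i ∈ S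
      · have := hR i hiS
        have : k - i = i := by omega
        rw [this]
      · rw [if_neg hiS]; split_ifs <;> simp [hc])
    (by
      intro i hi
      rw [h0, if_neg]
      intro hiS
      have := hR i hiS
      omega)
  have wneg : ∀ i, w (-i) = w i := by intro i; simp [w]
  obtain ⟨I2, hI2⟩ := tail_right h.hd (u := fun m i => w (-i) * x m (-i)) l0 hl
    (fun m i => hu0 m (-i))
    (fun m i => by
      have := h.u_step m (-i)
      rw [this, show -i - 1 = -(i + 1) by ring, show -i + 1 = -(i - 1) by ring]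
      ring)
    (fun m s => by
      have := h.sum_le m (s.map ⟨fun i => -i, fun a b hab => by simpa using hab⟩)
      rwa [Finset.sum_map] at this) R
    (by
      intro k i hk hi
      rw [h0, h0]
      by_cases hiS : -i ∈ S
      · have := hR (-i) hiS
        have : -(k - i) = -i := by omega
        rw [this]
      · rw [if_neg hiS]; split_ifs <;> simp [hc])
    (by
      intro i hi
      rw [h0, if_neg]
      intro hiS
      have := hR (-i) hiS
      omega)
  refine ⟨4 ^ I1 + 4 ^ I2, by positivity, fun m i => ?_⟩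
  have hp : 0 ≤ (1 / 4 : ℝ) ^ i.natAbs := by positivity
  have q1 : (0 : ℝ) ≤ 4 ^ I1 * (1 / 4 : ℝ) ^ i.natAbs := by positivity
  have q2 : (0 : ℝ) ≤ 4 ^ I2 * (1 / 4 : ℝ) ^ i.natAbs := by positivity
  rcases le_total 0 i with hi | hi
  · have := hI1 m i hi
    rw [add_mul]; linarith
  · have := hI2 m (-i) (by omega)
    simp only [neg_neg, Int.natAbs_neg] at this
    rw [add_mul]; linarith

/-! ### existence of the normalised orbit -/

/-- nonnegative and nonzero -/
def Pos (f : B) : Prop := (∀ i, 0 ≤ f i) ∧ ∃ i, 0 < f i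

lemma Pos.sg_pos {f : B} (h : Pos f) (n : ℕ) : 0 < sg d (f ^ n) := by
  obtain ⟨h1, i, hi⟩ := h
  have := sg_le_of_nonneg d (f ^ n) (fun j => by
    simp only [BoundedContinuousFunction.pow_apply]; exact pow_nonneg (h1 j) _) i
  refine lt_of_lt_of_le ?_ this
  have := w_pos i
  simp only [BoundedContinuousFunction.pow_apply]
  positivity

lemma Pos.A (hd : 2 ≤ d) {f : B} (h : Pos f) : Pos (A d (f ^ d)) := by
  obtain ⟨h1, i, hi⟩ := h
  have hp : ∀ j, 0 ≤ (f ^ d) j := fun j => by
    simp only [BoundedContinuousFunction.pow_apply]; exact pow_nonneg (h1 j) _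
  refine ⟨fun j => A_nonneg d hd _ hp j, i, ?_⟩
  rw [A_apply d hd]
  have e1 := mul_nonneg (coef_nonneg d (-1) i) (hp (i - 1))
  have e2 := mul_nonneg (coef_nonneg d 1 i) (hp (i + 1))
  have e3 : 0 < coef d 0 i * (f ^ d) i := by
    have := coef_pos d 0 i
    simp only [BoundedContinuousFunction.pow_apply]
    positivity
  linarith

lemma Pos.smul {f : B} (h : Pos f) {c : ℝ} (hc : 0 < c) : Pos (c • f) := by
  obtain ⟨h1, i, hi⟩ := h
  refine ⟨fun j => ?_, i, ?_⟩
  · simp only [BoundedContinuousFunction.coe_smul, smul_eq_mul]; exact mul_nonneg hc.le (h1 j)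
  · simp only [BoundedContinuousFunction.coe_smul, smul_eq_mul]; exact mul_pos hc hi

/-- normalising factor -/
noncomputable def nrm (d : ℕ) (f : B) : ℝ := (sg d (f ^ (d + 1))) ^ ((1 : ℝ) / (d + 1))

lemma nrm_pos {f : B} (h : Pos f) : 0 < nrm d f := Real.rpow_pos_of_pos (h.sg_pos _) _

lemma nrm_pow {f : B} (h : Pos f) : nrm d f ^ (d + 1) = sg d (f ^ (d + 1)) := by
  unfold nrm
  rw [← Real.rpow_natCast, ← Real.rpow_mul (h.sg_pos _).le]
  push_cast
  rw [one_div, inv_mul_cancel₀ (by positivity), Real.rpow_one]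

lemma sg_normalised {f : B} (h : Pos f) : sg d (((nrm d f)⁻¹ • f) ^ (d + 1)) = 1 := by
  rw [smul_pow, map_smul, smul_eq_mul, inv_pow, nrm_pow h]
  exact inv_mul_cancel₀ (h.sg_pos _).ne'

/-- start -/
noncomputable def start (S : Finset ℤ) : B := by
  classical
  exact mk (fun i => if i ∈ S then 1 / w i else 0) (∑ i ∈ S, 1 / w i) (by
    intro i
    have hp : ∀ j, 0 ≤ 1 / w j := fun j => by have := w_pos j; positivity
    split_ifs with h
    · rw [abs_of_nonneg (hp i)]
      exact Finset.single_le_sum (f := fun j => 1 / w j) (fun j _ => hp j) h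
    · simp only [abs_zero]
      exact Finset.sum_nonneg (fun j _ => hp j))

lemma start_apply (S : Finset ℤ) (i : ℤ) : w i * start S i = if i ∈ S then 1 else 0 := by
  classical
  have := (w_pos i).ne'
  simp only [start, mk_apply]
  split_ifs with h
  · field_simp
  · simp

lemma start_pos (S : Finset ℤ) (hS : S.Nonempty) : Pos (start S) := by
  classical
  obtain ⟨i, hi⟩ := hS
  have h1 : ∀ j, 0 ≤ start S j := by
    intro j
    simp only [start, mk_apply]
    have := w_pos j
    split_ifs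
    · positivity
    · exact le_refl _
  refine ⟨h1, i, ?_⟩
  simp only [start, mk_apply, if_pos hi]
  have := w_pos i
  positivity

/-- orbit -/
noncomputable def orb (d : ℕ) (S : Finset ℤ) : ℕ → B
  | 0 => (nrm d (start S))⁻¹ • start S
  | m + 1 => (nrm d (A d (orb d S m ^ d)))⁻¹ • A d (orb d S m ^ d)

lemma orb_pos (hd : 2 ≤ d) (S : Finset ℤ) (hS : S.Nonempty) (m : ℕ) : Pos (orb d S m) := by
  induction m with
  | zero => exact (start_pos S hS).smul (inv_pos.2 (nrm_pos (start_pos S hS)))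
  | succ m ih => exact (ih.A hd).smul (inv_pos.2 (nrm_pos (ih.A hd)))

/-- the unnormalised messages -/
def U (d : ℕ) (S : Finset ℤ) : ℕ → ℤ → ℝ
  | 0 => fun i => if i ∈ S then 1 else 0
  | m + 1 => fun i => U d S m (i - 1) ^ d + U d S m i ^ d + U d S m (i + 1) ^ d

lemma orb_Orb (hd : 2 ≤ d) (S : Finset ℤ) (hS : S.Nonempty) :
    Orb d (orb d S) (fun m => nrm d (A d (orb d S m ^ d))) := by
  refine ⟨hd, fun m => (orb_pos hd S hS m).1, fun m => ?_, fun m => nrm_pos ((orb_pos hd S hS m).A hd),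
    fun m => ?_⟩
  · cases m with
    | zero => exact sg_normalised (start_pos S hS)
    | succ m => exact sg_normalised ((orb_pos hd S hS m).A hd)
  · change _ = _ • ((nrm d (A d (orb d S m ^ d)))⁻¹ • A d (orb d S m ^ d))
    rw [smul_smul, mul_inv_cancel₀ (nrm_pos ((orb_pos hd S hS m).A hd)).ne', one_smul]

lemma orb_U (hd : 2 ≤ d) (S : Finset ℤ) (hS : S.Nonempty) (m : ℕ) :
    ∃ κ, 0 < κ ∧ ∀ i, U d S m i = κ * (w i * orb d S m i) := by
  induction m with
  | zero =>
    refine ⟨nrm d (start S), nrm_pos (start_pos S hS), fun i => ?_⟩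
    simp only [U, orb, BoundedContinuousFunction.coe_smul, smul_eq_mul]
    rw [← start_apply S i]
    have := (nrm_pos (d := d) (start_pos S hS)).ne'
    field_simp
  | succ m ih =>
    obtain ⟨κ, hκ, hU⟩ := ih
    have ho := orb_Orb hd S hS
    refine ⟨κ ^ d * nrm d (A d (orb d S m ^ d)), mul_pos (pow_pos hκ _) (ho.lam_pos m), fun i => ?_⟩
    have h1 := ho.u_step m i
    simp only [U]
    rw [hU, hU, hU, mul_pow, mul_pow, mul_pow, mul_assoc, h1]
    ring

/-- the tail of the orbit -/
lemma orb_tail (hd : 2 ≤ d) (S : Finset ℤ) (hS : S.Nonempty) : ∃ C, 0 ≤ C ∧ Tail (orb d S) C := by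
  refine (orb_Orb hd S hS).tail S (nrm d (start S))⁻¹ (inv_pos.2 (nrm_pos (start_pos S hS))).le
    (fun i => ?_)
  simp only [orb, BoundedContinuousFunction.coe_smul, smul_eq_mul]
  have := start_apply S i
  calc w i * ((nrm d (start S))⁻¹ * start S i) = (nrm d (start S))⁻¹ * (w i * start S i) := by ring
    _ = _ := by rw [this]; split_ifs <;> simp

end Pool.Agent.Q287.LT
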