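import Pool.Agent.Q287.LT.LT1

/-!
# The functional `F` and its gradient-like map `G`
-/

set_option autoImplicit false

namespace Pool.Agent.Q287.LT

open Filter Topology BoundedContinuousFunction

/-- the homogeneous map -/
noncomputable def T (d : ℕ) (f : B) : B := A d (f ^ d)
/-- the norm functional -/
noncomputable def N (d : ℕ) (f : B) : ℝ := sg d (f ^ (d + 1))

/-- derivative of `T` -/
noncomputable def TD (d : ℕ) (f : B) : B →L[ℝ] B := A d ∘L ((d : ℝ) • mulL (f ^ (d - 1)))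
/-- derivative of `N` -/
noncomputable def ND (d : ℕ) (f : B) : B →L[ℝ] ℝ := sg d ∘L (((d : ℝ) + 1) • mulL (f ^ d))

lemma TD_apply (d : ℕ) (f h : B) : TD d f h = (d : ℝ) • A d (f ^ (d - 1) * h) := by
  simp [TD]

lemma ND_apply (d : ℕ) (f h : B) : ND d f h = ((d : ℝ) + 1) * sg d (f ^ d * h) := by
  simp [ND]

lemma hasPow (n : ℕ) (f : B) :
    HasFDerivAt (fun g : B => g ^ n) ((n : ℝ) • mulL (f ^ (n - 1))) f := by
  refine (hasFDerivAt_pow (𝕜 := ℝ) (𝔸 := B) n (x := f)).congr_fderiv ?_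
  ext1 h
  simp only [ContinuousLinearMap.smul_apply, ContinuousLinearMap.id_apply, mulL_apply, smul_eq_mul]
  rw [nsmul_eq_mul, mul_assoc, ← nsmul_eq_mul, Nat.cast_smul_eq_nsmul]

lemma hasT (d : ℕ) (f : B) : HasFDerivAt (T d) (TD d f) f :=
  (A d).hasFDerivAt.comp f (hasPow d f)

lemma hasN (d : ℕ) (f : B) : HasFDerivAt (N d) (ND d f) f := by
  have h1 := (sg d).hasFDerivAt.comp f (hasPow (d + 1) f)
  refine h1.congr_fderiv ?_
  ext1 h
  simp [ND]

/-- the gradient-like map -/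
noncomputable def G0 (d : ℕ) (f : B) : B := N d (T d f) • f - N d f • T d (T d f)

/-- its derivative -/
noncomputable def G0D (d : ℕ) (f : B) : B →L[ℝ] B :=
  (N d (T d f) • ContinuousLinearMap.id ℝ B + ((ND d (T d f)) ∘L (TD d f)).smulRight f)
  - (N d f • ((TD d (T d f)) ∘L (TD d f)) + (ND d f).smulRight (T d (T d f)))

lemma hasG0 (d : ℕ) (f : B) : HasFDerivAt (G0 d) (G0D d f) f := by
  have h1 : HasFDerivAt (fun g => N d (T d g)) ((ND d (T d f)) ∘L (TD d f)) f :=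
    (hasN d (T d f)).comp f (hasT d f)
  have h2 : HasFDerivAt (fun g => T d (T d g)) ((TD d (T d f)) ∘L (TD d f)) f :=
    (hasT d (T d f)).comp f (hasT d f)
  exact (h1.smul (hasFDerivAt_id f)).sub ((hasN d f).smul h2)

/-- the normalised gradient-like map -/
noncomputable def Gr (d : ℕ) (L : ℝ) (f : B) : B := (L ^ (d + 1))⁻¹ • G0 d f + (N d f - 1) • f

/-- its derivative -/
noncomputable def GrD (d : ℕ) (L : ℝ) (f : B) : B →L[ℝ] B :=
  (L ^ (d + 1))⁻¹ • G0D d f + ((N d f - 1) • ContinuousLinearMap.id ℝ B + (ND d f).smulRight f)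

lemma hasGr (d : ℕ) (L : ℝ) (f : B) : HasFDerivAt (Gr d L) (GrD d L f) f := by
  have h1 := (hasG0 d f).const_smul (L ^ (d + 1))⁻¹
  have h2 := ((hasN d f).sub_const 1).smul (hasFDerivAt_id f)
  exact h1.add h2

lemma pow_ana (n : ℕ) (f : B) : AnalyticAt ℝ (fun g : B => g ^ n) f := by
  have : AnalyticAt ℝ (fun g : B => g) f := analyticAt_id
  exact this.pow n

lemma T_ana (d : ℕ) (f : B) : AnalyticAt ℝ (T d) f :=
  ((A d).analyticAt _).comp (pow_ana d f)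

lemma N_ana (d : ℕ) (f : B) : AnalyticAt ℝ (N d) f :=
  ((sg d).analyticAt _).comp (pow_ana (d + 1) f)

lemma G0_ana (d : ℕ) (f : B) : AnalyticAt ℝ (G0 d) f := by
  have h1 : AnalyticAt ℝ (fun g => N d (T d g)) f := (N_ana d _).comp (T_ana d f)
  have h2 : AnalyticAt ℝ (fun g => T d (T d g)) f := (T_ana d _).comp (T_ana d f)
  exact (h1.smul analyticAt_id).sub ((N_ana d f).smul h2)

lemma Gr_ana (d : ℕ) (L : ℝ) (f : B) : AnalyticAt ℝ (Gr d L) f := by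
  have h1 : AnalyticAt ℝ (fun g => (L ^ (d + 1))⁻¹ • G0 d g) f := by
    have := (analyticAt_const (𝕜 := ℝ) (v := (L ^ (d + 1))⁻¹) (x := f)).smul (G0_ana d f)
    exact this
  have h2 : AnalyticAt ℝ (fun g => (N d g - 1) • g) f :=
    ((N_ana d f).sub analyticAt_const).smul analyticAt_id
  exact h1.add h2

lemma Gr_cont (d : ℕ) (L : ℝ) : Continuous (Gr d L) :=
  continuous_iff_continuousAt.2 fun f => (Gr_ana d L f).continuousAt

/-- the functional -/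
noncomputable def FF (d : ℕ) (f : B) : ℝ := Real.log (N d (T d f)) - d * Real.log (N d f)

lemma FF_ana (d : ℕ) (f : B) (h1 : 0 < N d f) (h2 : 0 < N d (T d f)) : AnalyticAt ℝ (FF d) f := by
  have a1 : AnalyticAt ℝ (fun g => N d (T d g)) f := (N_ana d _).comp (T_ana d f)
  have a2 : AnalyticAt ℝ (fun g => Real.log (N d g)) f :=
    AnalyticAt.comp (g := Real.log) (f := N d) (analyticAt_log h1) (N_ana d f)
  have a3 : AnalyticAt ℝ (fun g => Real.log (N d (T d g))) f :=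
    AnalyticAt.comp (g := Real.log) (f := fun g => N d (T d g)) (analyticAt_log h2) a1
  exact a3.sub ((analyticAt_const (v := (d : ℝ))).mul a2)

/-- its derivative -/
noncomputable def FFD (d : ℕ) (f : B) : B →L[ℝ] ℝ :=
  (N d (T d f))⁻¹ • ((ND d (T d f)) ∘L (TD d f)) - (d : ℝ) • ((N d f)⁻¹ • ND d f)

lemma hasFF (d : ℕ) (f : B) (h1 : 0 < N d f) (h2 : 0 < N d (T d f)) :
    HasFDerivAt (FF d) (FFD d f) f := by
  have a1 : HasFDerivAt (fun g => N d (T d g)) ((ND d (T d f)) ∘L (TD d f)) f :=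
    (hasN d (T d f)).comp f (hasT d f)
  exact (a1.log h2.ne').sub (((hasN d f).log h1.ne').const_mul (d : ℝ))

variable {d : ℕ}

lemma ND_TD (hd : 2 ≤ d) (f h : B) :
    ND d (T d f) (TD d f h) = (d : ℝ) * (d + 1) * sg d (f ^ (d - 1) * h * T d (T d f)) := by
  rw [ND_apply, TD_apply, mul_smul_comm, map_smul, sg_symm d hd, smul_eq_mul]
  have : A d (T d f ^ d) = T d (T d f) := rfl
  rw [this]; ring

lemma pow_split (hd : 2 ≤ d) (f : B) : f ^ d = f ^ (d - 1) * f := by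
  rw [← pow_succ]; congr 1; omega

lemma FFD_apply (hd : 2 ≤ d) (f h : B) (h1 : 0 < N d f) (h2 : 0 < N d (T d f)) :
    FFD d f h = - ((d : ℝ) * (d + 1) / (N d f * N d (T d f))) * sg d (f ^ (d - 1) * h * G0 d f) := by
  have e1 : FFD d f h = (N d (T d f))⁻¹ * ND d (T d f) (TD d f h) - d * ((N d f)⁻¹ * ND d f h) := rfl
  have e2 : sg d (f ^ (d - 1) * h * G0 d f) = N d (T d f) * sg d (f ^ d * h)
      - N d f * sg d (f ^ (d - 1) * h * T d (T d f)) := by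
    rw [G0, mul_sub, mul_smul_comm, mul_smul_comm, map_sub, map_smul, map_smul, pow_split hd f]
    simp only [smul_eq_mul]
    congr 3
    ring
  rw [e1, ND_TD hd, ND_apply, e2]
  field_simp
  ring

lemma sg_pow_G0 (hd : 2 ≤ d) (f : B) : sg d (f ^ d * G0 d f) = 0 := by
  rw [G0, mul_sub, mul_smul_comm, mul_smul_comm, map_sub, map_smul, map_smul]
  have e1 : sg d (f ^ d * f) = N d f := by rw [← pow_succ]; rfl
  have e2 : sg d (f ^ d * T d (T d f)) = N d (T d f) := by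
    change sg d (f ^ d * A d (T d f ^ d)) = _
    rw [sg_symm d hd]
    change sg d (T d f ^ d * T d f) = _
    rw [← pow_succ]; rfl
  rw [e1, e2, smul_eq_mul, smul_eq_mul]; ring

lemma sg_pow_Gr (hd : 2 ≤ d) (L : ℝ) (f : B) : sg d (f ^ d * Gr d L f) = (N d f - 1) * N d f := by
  rw [Gr, mul_add, mul_smul_comm, mul_smul_comm, map_add, map_smul, map_smul, sg_pow_G0 hd,
    smul_zero, zero_add, ← pow_succ]
  rfl

lemma G0_le (hd : 2 ≤ d) {L : ℝ} (hL : 0 < L) (f : B) (h1 : 0 < N d f) :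
    ‖G0 d f‖ ≤ L ^ (d + 1) * (1 + ‖sg d‖ * ‖f‖ ^ d * ‖f‖ / N d f) * ‖Gr d L f‖ := by
  have hLp : 0 < L ^ (d + 1) := pow_pos hL _
  have e : G0 d f = L ^ (d + 1) • (Gr d L f - (N d f - 1) • f) := by
    rw [Gr, add_sub_cancel_right, smul_smul, mul_inv_cancel₀ hLp.ne', one_smul]
  have h2 : |N d f - 1| * N d f ≤ ‖sg d‖ * (‖f‖ ^ d * ‖Gr d L f‖) := by
    have : |(N d f - 1) * N d f| ≤ ‖sg d‖ * (‖f‖ ^ d * ‖Gr d L f‖) := by
      rw [← sg_pow_Gr hd L f, ← Real.norm_eq_abs]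
      refine ((sg d).le_opNorm _).trans ?_
      refine mul_le_mul_of_nonneg_left ?_ (norm_nonneg _)
      refine (norm_mul_le _ _).trans ?_
      exact mul_le_mul_of_nonneg_right (norm_pow_le f d) (norm_nonneg _)
    rwa [abs_mul, abs_of_pos h1] at this
  have h3 : |N d f - 1| ≤ ‖sg d‖ * (‖f‖ ^ d * ‖Gr d L f‖) / N d f := by
    rw [le_div_iff₀ h1]; exact h2
  rw [e, norm_smul, Real.norm_of_nonneg hLp.le, mul_assoc]
  refine mul_le_mul_of_nonneg_left ?_ hLp.le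
  refine (norm_sub_le _ _).trans ?_
  rw [norm_smul, Real.norm_eq_abs]
  have h4 : |N d f - 1| * ‖f‖ ≤ ‖sg d‖ * (‖f‖ ^ d * ‖Gr d L f‖) / N d f * ‖f‖ :=
    mul_le_mul_of_nonneg_right h3 (norm_nonneg _)
  refine (add_le_add le_rfl h4).trans (le_of_eq ?_)
  ring

lemma FFD_le (hd : 2 ≤ d) (f : B) (h1 : 0 < N d f) (h2 : 0 < N d (T d f)) :
    ‖FFD d f‖ ≤ (d : ℝ) * (d + 1) / (N d f * N d (T d f)) * (‖sg d‖ * ‖f‖ ^ (d - 1)) * ‖G0 d f‖ := by
  refine ContinuousLinearMap.opNorm_le_bound _ (by positivity) (fun h => ?_)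
  rw [FFD_apply hd f h h1 h2, norm_mul, norm_neg, Real.norm_of_nonneg (by positivity)]
  have h3 : ‖sg d (f ^ (d - 1) * h * G0 d f)‖ ≤ ‖sg d‖ * (‖f‖ ^ (d - 1) * ‖h‖ * ‖G0 d f‖) := by
    refine ((sg d).le_opNorm _).trans (mul_le_mul_of_nonneg_left ?_ (norm_nonneg _))
    refine (norm_mul_le _ _).trans (mul_le_mul_of_nonneg_right ?_ (norm_nonneg _))
    refine (norm_mul_le _ _).trans (mul_le_mul_of_nonneg_right (norm_pow_le f _) (norm_nonneg _))
  have h4 : 0 ≤ (d : ℝ) * (d + 1) / (N d f * N d (T d f)) := by positivity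
  refine (mul_le_mul_of_nonneg_left h3 h4).trans (le_of_eq ?_)
  ring

/-- the derivative of `F` is controlled by `G` near a normalised point -/
lemma FF_bound (hd : 2 ≤ d) {L : ℝ} (hL : 0 < L) (φ : B) (h1 : N d φ = 1) (h2 : 0 < N d (T d φ)) :
    ∃ C, 0 ≤ C ∧ ∀ᶠ f in 𝓝 φ, ‖fderiv ℝ (FF d) f‖ ≤ C * ‖Gr d L f‖ := by
  set c := N d (T d φ) with hc
  set R := ‖φ‖ + 1 with hR
  refine ⟨(d : ℝ) * (d + 1) / (1 / 2 * (c / 2)) * (‖sg d‖ * R ^ (d - 1)) *
    (L ^ (d + 1) * (1 + ‖sg d‖ * R ^ d * R / (1 / 2))), by positivity, ?_⟩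
  have t1 : ∀ᶠ f in 𝓝 φ, 1 / 2 < N d f := by
    have : Tendsto (N d) (𝓝 φ) (𝓝 (N d φ)) := (N_ana d φ).continuousAt
    rw [h1] at this
    exact this.eventually (lt_mem_nhds (by norm_num))
  have t2 : ∀ᶠ f in 𝓝 φ, c / 2 < N d (T d f) := by
    have : Tendsto (fun f => N d (T d f)) (𝓝 φ) (𝓝 c) :=
      ((N_ana d _).comp (T_ana d φ)).continuousAt
    exact this.eventually (lt_mem_nhds (by linarith))
  have t3 : ∀ᶠ f in 𝓝 φ, ‖f‖ < R := by
    have : Tendsto (fun f : B => ‖f‖) (𝓝 φ) (𝓝 ‖φ‖) := continuous_norm.continuousAt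
    exact this.eventually (gt_mem_nhds (by linarith))
  filter_upwards [t1, t2, t3] with f a1 a2 a3
  have p1 : 0 < N d f := by linarith
  have p2 : 0 < N d (T d f) := by linarith
  rw [(hasFF d f p1 p2).fderiv]
  have b1 := FFD_le hd f p1 p2
  have b2 := G0_le hd hL f p1
  have hfn := norm_nonneg f
  have hLp : 0 < L ^ (d + 1) := pow_pos hL _
  calc ‖FFD d f‖ ≤ (d : ℝ) * (d + 1) / (N d f * N d (T d f)) * (‖sg d‖ * ‖f‖ ^ (d - 1)) * ‖G0 d f‖ := b1
    _ ≤ (d : ℝ) * (d + 1) / (N d f * N d (T d f)) * (‖sg d‖ * ‖f‖ ^ (d - 1)) *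
        (L ^ (d + 1) * (1 + ‖sg d‖ * ‖f‖ ^ d * ‖f‖ / N d f) * ‖Gr d L f‖) := by gcongr
    _ ≤ (d : ℝ) * (d + 1) / (1 / 2 * (c / 2)) * (‖sg d‖ * R ^ (d - 1)) *
        (L ^ (d + 1) * (1 + ‖sg d‖ * R ^ d * R / (1 / 2)) * ‖Gr d L f‖) := by gcongr
    _ = _ := by ring

end Pool.Agent.Q287.LT
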