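import Pool.Agent.Q287.LT.LT4

/-!
# Critical points: the kernel of the linearisation has dimension at most two
-/

set_option autoImplicit false

namespace Pool.Agent.Q287.LT

open Filter Topology BoundedContinuousFunction

/-- a normalised 2-periodic point -/
structure Crit (d : ℕ) (L : ℝ) (φ φ' : B) : Prop where
  hd : 2 ≤ d
  hL : 0 < L
  nonneg : ∀ i, 0 ≤ φ i
  nonneg' : ∀ i, 0 ≤ φ' i
  one : N d φ = 1
  one' : N d φ' = 1
  t1 : T d φ = L • φ'
  t2 : T d φ' = L • φ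

variable {d : ℕ} {L : ℝ} {φ φ' : B}

lemma T_pos (hd : 2 ≤ d) {f : B} (hf : ∀ i, 0 ≤ f i) (s : ℤ) (hs : s = -1 ∨ s = 0 ∨ s = 1) (i : ℤ)
    (h : 0 < f (i + s)) : 0 < T d f i := by
  have hp : ∀ j, 0 ≤ (f ^ d) j := fun j => by
    simp only [BoundedContinuousFunction.pow_apply]; exact pow_nonneg (hf j) _
  unfold T
  rw [A_apply d hd]
  have e1 := mul_nonneg (coef_nonneg d (-1) i) (hp (i - 1))
  have e0 := mul_nonneg (coef_nonneg d 0 i) (hp i)
  have e2 := mul_nonneg (coef_nonneg d 1 i) (hp (i + 1))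
  have e3 : 0 < coef d s i * (f ^ d) (i + s) := by
    have := coef_pos d s i
    simp only [BoundedContinuousFunction.pow_apply]
    positivity
  rcases hs with h | h | h
  · rw [h, ← sub_eq_add_neg] at e3; linarith
  · rw [h, add_zero] at e3; linarith
  · rw [h] at e3; linarith

lemma Crit.pos (h : Crit d L φ φ') : ∀ i, 0 < φ i := by
  have hex : ∃ i, 0 < φ i := by
    by_contra hcon
    push Not at hcon
    have : φ = 0 := by
      ext i; exact le_antisymm (hcon i) (h.nonneg i)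
    have h1 := h.one
    rw [this, N, zero_pow (by omega), map_zero] at h1
    norm_num at h1
  obtain ⟨i0, hi0⟩ := hex
  have step : ∀ i s, (s = -1 ∨ s = 0 ∨ s = 1) → 0 < φ i → 0 < φ (i + s) := by
    intro i s hs hi
    have h1 : 0 < φ' (i + s) := by
      have := T_pos h.hd h.nonneg (-s) (by omega) (i + s) (by simpa using hi)
      rw [h.t1] at this
      exact (pos_iff_pos_of_mul_pos (by simpa using this)).1 h.hL
    have := T_pos h.hd h.nonneg' 0 (by simp) (i + s) (by simpa using h1)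
    rw [h.t2] at this
    exact (pos_iff_pos_of_mul_pos (by simpa using this)).1 h.hL
  intro i
  refine Int.inductionOn' i i0 hi0 (fun k _ hk => step k 1 (by simp) hk) (fun k _ hk => ?_)
  have := step k (-1) (by simp) hk
  rwa [← sub_eq_add_neg] at this

lemma Crit.pos' (h : Crit d L φ φ') : ∀ i, 0 < φ' i := by
  intro i
  have := T_pos h.hd h.nonneg 0 (by simp) i (by simpa using h.pos i)
  rw [h.t1] at this
  exact (pos_iff_pos_of_mul_pos (by simpa using this)).1 h.hL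

lemma Crit.swap (h : Crit d L φ φ') : Crit d L φ' φ :=
  ⟨h.hd, h.hL, h.nonneg', h.nonneg, h.one', h.one, h.t2, h.t1⟩

lemma T_smul (c : ℝ) (f : B) : T d (c • f) = c ^ d • T d f := by
  rw [T, smul_pow, map_smul]; rfl

lemma N_smul (c : ℝ) (f : B) : N d (c • f) = c ^ (d + 1) * N d f := by
  rw [N, smul_pow, map_smul]; rfl

lemma Crit.TT (h : Crit d L φ φ') : T d (T d φ) = L ^ (d + 1) • φ := by
  rw [h.t1, T_smul, h.t2, smul_smul, ← pow_succ]

lemma Crit.NT (h : Crit d L φ φ') : N d (T d φ) = L ^ (d + 1) := by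
  rw [h.t1, N_smul, h.one', mul_one]

lemma Crit.Gr_zero (h : Crit d L φ φ') : Gr d L φ = 0 := by
  rw [Gr, G0, h.NT, h.TT, h.one]; simp

lemma Crit.FF_eq (h : Crit d L φ φ') : FF d φ = (d + 1) * Real.log L := by
  rw [FF, h.NT, h.one, Real.log_pow]; simp

lemma Crit.GrD_apply (h : Crit d L φ φ') (k : B) :
    GrD d L φ k = k - ((d : ℝ) ^ 2 / L ^ 2) • A d (φ' ^ (d - 1) * A d (φ ^ (d - 1) * k))
      + (((d : ℝ) ^ 2 + d) * sg d (φ ^ d * k)) • φ := by
  have hd := h.hd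
  have hL := h.hL
  have e1 : GrD d L φ k = (L ^ (d + 1))⁻¹ • (N d (T d φ) • k + (ND d (T d φ) (TD d φ k)) • φ
      - (N d φ • TD d (T d φ) (TD d φ k) + (ND d φ k) • T d (T d φ)))
      + ((N d φ - 1) • k + (ND d φ k) • φ) := rfl
  rw [e1, h.NT, h.one, ND_TD hd, h.TT, ND_apply, TD_apply, TD_apply, h.t1]
  have e2 : sg d (φ ^ (d - 1) * k * (L ^ (d + 1) • φ)) = L ^ (d + 1) * sg d (φ ^ d * k) := by
    rw [mul_smul_comm, map_smul, smul_eq_mul, pow_split hd φ]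
    congr 2; ring
  have e3 : (L • φ') ^ (d - 1) * ((d : ℝ) • A d (φ ^ (d - 1) * k))
      = (L ^ (d - 1) * d) • (φ' ^ (d - 1) * A d (φ ^ (d - 1) * k)) := by
    rw [smul_pow, smul_mul_smul_comm]
  rw [e2, e3, map_smul]
  set s := sg d (φ ^ d * k)
  set Y := A d (φ' ^ (d - 1) * A d (φ ^ (d - 1) * k))
  have hLd : L ^ (d + 1) = L ^ (d - 1) * L ^ 2 := by rw [← pow_add]; congr 1; omega
  have hp : L ^ (d - 1) ≠ 0 := (pow_pos hL _).ne'
  have hp2 : L ≠ 0 := hL.ne'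
  rw [hLd]
  have e4 : (L ^ (d - 1) * L ^ 2)⁻¹ • ((L ^ (d - 1) * L ^ 2) • k
        + ((d : ℝ) * (d + 1) * (L ^ (d - 1) * L ^ 2 * s)) • φ
        - ((1 : ℝ) • (d : ℝ) • (L ^ (d - 1) * d) • Y
          + (((d : ℝ) + 1) * s) • (L ^ (d - 1) * L ^ 2) • φ))
        + (((1 : ℝ) - 1) • k + (((d : ℝ) + 1) * s) • φ)
      = ((L ^ (d - 1) * L ^ 2)⁻¹ * (L ^ (d - 1) * L ^ 2)) • k
        - ((L ^ (d - 1) * L ^ 2)⁻¹ * (d * (L ^ (d - 1) * d))) • Y
        + ((L ^ (d - 1) * L ^ 2)⁻¹ * (L ^ (d - 1) * L ^ 2) * ((d : ℝ) * (d + 1) * s - (d + 1) * s)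
          + (d + 1) * s) • φ := by module
  rw [e4]
  have c1 : (L ^ (d - 1) * L ^ 2)⁻¹ * (L ^ (d - 1) * L ^ 2) = 1 := inv_mul_cancel₀ (by positivity)
  have c2 : (L ^ (d - 1) * L ^ 2)⁻¹ * (d * (L ^ (d - 1) * d)) = (d : ℝ) ^ 2 / L ^ 2 := by
    field_simp
  rw [c1, c2, one_smul]
  congr 2
  ring

lemma Crit.sgA (h : Crit d L φ φ') (k : B) :
    sg d (φ ^ d * A d (φ' ^ (d - 1) * A d (φ ^ (d - 1) * k))) = L ^ 2 * sg d (φ ^ d * k) := by
  have hd := h.hd
  rw [sg_symm d hd]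
  have t1 : A d (φ ^ d) = L • φ' := h.t1
  have t2 : A d (φ' ^ d) = L • φ := h.t2
  rw [t1, mul_smul_comm, map_smul,
    show φ' ^ (d - 1) * A d (φ ^ (d - 1) * k) * φ' = φ' ^ d * A d (φ ^ (d - 1) * k) by
      rw [pow_split hd φ']; ring, sg_symm d hd, t2, mul_smul_comm, map_smul, smul_eq_mul, smul_eq_mul,
    show φ ^ (d - 1) * k * φ = φ ^ d * k by rw [pow_split hd φ]; ring]
  ring

lemma Crit.sg_one (h : Crit d L φ φ') : sg d (φ ^ d * φ) = 1 := by
  rw [← pow_succ]; exact h.one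

lemma Crit.ker_sg (h : Crit d L φ φ') {k : B} (hk : GrD d L φ k = 0) : sg d (φ ^ d * k) = 0 := by
  have h1 : sg d (φ ^ d * GrD d L φ k) = 0 := by rw [hk, mul_zero, map_zero]
  rw [h.GrD_apply, mul_add, mul_sub, map_add, map_sub, mul_smul_comm, map_smul, h.sgA, mul_smul_comm,
    map_smul, h.sg_one] at h1
  have hL := h.hL.ne'
  have e : (d : ℝ) ^ 2 / L ^ 2 * (L ^ 2 * sg d (φ ^ d * k)) = (d : ℝ) ^ 2 * sg d (φ ^ d * k) := by
    field_simp
  rw [smul_eq_mul, smul_eq_mul, e] at h1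
  have h2 : ((d : ℝ) + 1) * sg d (φ ^ d * k) = 0 := by linarith
  exact (mul_eq_zero.1 h2).resolve_left (by positivity)

lemma Crit.ker_eq (h : Crit d L φ φ') {k : B} (hk : GrD d L φ k = 0) :
    ((d : ℝ) ^ 2 / L ^ 2) • A d (φ' ^ (d - 1) * A d (φ ^ (d - 1) * k)) = k := by
  have h1 := h.GrD_apply k
  rw [hk, h.ker_sg hk, mul_zero, zero_smul, add_zero] at h1
  exact (sub_eq_zero.1 h1.symm).symm

/-- symmetry of the linearisation -/
lemma Crit.ker_orth (h : Crit d L φ φ') {p : B} (hp : GrD d L φ p = 0) (k : B) :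
    sg d (φ ^ (d - 1) * p * GrD d L φ k) = 0 := by
  have hd := h.hd
  have e0 := h.ker_eq hp
  have e1 : sg d (φ ^ (d - 1) * p * A d (φ' ^ (d - 1) * A d (φ ^ (d - 1) * k)))
      = sg d (φ ^ (d - 1) * k * A d (φ' ^ (d - 1) * A d (φ ^ (d - 1) * p))) := by
    rw [sg_symm d hd,
      show φ' ^ (d - 1) * A d (φ ^ (d - 1) * k) * A d (φ ^ (d - 1) * p)
        = (φ' ^ (d - 1) * A d (φ ^ (d - 1) * p)) * A d (φ ^ (d - 1) * k) by ring, sg_symm d hd]
  rw [h.GrD_apply, mul_add, mul_sub, map_add, map_sub, mul_smul_comm, map_smul, mul_smul_comm,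
    map_smul, e1, ← map_smul, ← mul_smul_comm, e0,
    show φ ^ (d - 1) * p * φ = φ ^ d * p by rw [pow_split hd φ]; ring, h.ker_sg hp,
    show φ ^ (d - 1) * p * k = φ ^ (d - 1) * k * p by ring]
  simp

/-! ### sequences -/

/-- the invariant form -/
def WW (z y z' y' : ℤ → ℝ) (i : ℤ) : ℝ := z i * y' (i + 1) - z (i + 1) * y' i - z' i * y (i + 1)
  + z' (i + 1) * y i

lemma WW_step {a b z y z' y' : ℤ → ℝ} (ha : ∀ i, a i ≠ 0) (hb : ∀ i, b i ≠ 0)
    (h1 : ∀ i, z i = a i * (y (i - 1) + y i + y (i + 1)))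
    (h2 : ∀ i, y i = b i * (z (i - 1) + z i + z (i + 1)))
    (h1' : ∀ i, z' i = a i * (y' (i - 1) + y' i + y' (i + 1)))
    (h2' : ∀ i, y' i = b i * (z' (i - 1) + z' i + z' (i + 1))) (i : ℤ) :
    WW z y z' y' i = WW z y z' y' (i - 1) := by
  have e1 : y (i + 1) = z i / a i - y i - y (i - 1) := by
    have := h1 i; have := ha i; field_simp; linarith
  have e2 : z (i + 1) = y i / b i - z i - z (i - 1) := by
    have := h2 i; have := hb i; field_simp; linarith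
  have e3 : y' (i + 1) = z' i / a i - y' i - y' (i - 1) := by
    have := h1' i; have := ha i; field_simp; linarith
  have e4 : z' (i + 1) = y' i / b i - z' i - z' (i - 1) := by
    have := h2' i; have := hb i; field_simp; linarith
  unfold WW
  rw [sub_add_cancel, e1, e2, e3, e4]
  ring

lemma WW_zero {a b z y z' y' : ℤ → ℝ} (ha : ∀ i, a i ≠ 0) (hb : ∀ i, b i ≠ 0)
    (h1 : ∀ i, z i = a i * (y (i - 1) + y i + y (i + 1)))
    (h2 : ∀ i, y i = b i * (z (i - 1) + z i + z (i + 1)))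
    (h1' : ∀ i, z' i = a i * (y' (i - 1) + y' i + y' (i + 1)))
    (h2' : ∀ i, y' i = b i * (z' (i - 1) + z' i + z' (i + 1)))
    (tz : Tendsto z cofinite (𝓝 0)) (ty : Tendsto y cofinite (𝓝 0))
    (tz' : Tendsto z' cofinite (𝓝 0)) (ty' : Tendsto y' cofinite (𝓝 0)) :
    WW z y z' y' 0 = 0 := by
  have hconst : ∀ n : ℕ, WW z y z' y' n = WW z y z' y' 0 := by
    intro n
    induction n with
    | zero => rfl
    | succ n ih =>
      rw [WW_step ha hb h1 h2 h1' h2', ← ih]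
      congr 1; push_cast; ring
  have inj1 : Tendsto (fun n : ℕ => (n : ℤ)) atTop cofinite := by
    rw [← Nat.cofinite_eq_atTop]
    exact Nat.cast_injective.tendsto_cofinite
  have inj2 : Tendsto (fun n : ℕ => (n : ℤ) + 1) atTop cofinite := by
    rw [← Nat.cofinite_eq_atTop]
    exact Function.Injective.tendsto_cofinite (fun a b hab => by simpa using hab)
  have t : Tendsto (fun n : ℕ => WW z y z' y' n) atTop (𝓝 (0 * 0 - 0 * 0 - 0 * 0 + 0 * 0)) :=
    ((((tz.comp inj1).mul (ty'.comp inj2)).sub ((tz.comp inj2).mul (ty'.comp inj1))).sub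
      ((tz'.comp inj1).mul (ty.comp inj2))).add ((tz'.comp inj2).mul (ty.comp inj1))
  simp only [hconst] at t
  have := tendsto_nhds_unique t tendsto_const_nhds
  linarith

lemma seq_zero {a b z y : ℤ → ℝ} (ha : ∀ i, a i ≠ 0) (hb : ∀ i, b i ≠ 0)
    (h1 : ∀ i, z i = a i * (y (i - 1) + y i + y (i + 1)))
    (h2 : ∀ i, y i = b i * (z (i - 1) + z i + z (i + 1)))
    (z0 : z 0 = 0) (z1 : z 1 = 0) (y0 : y 0 = 0) (y1 : y 1 = 0) : ∀ i, z i = 0 := by
  have key : ∀ i, z i = 0 ∧ z (i + 1) = 0 ∧ y i = 0 ∧ y (i + 1) = 0 := by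
    intro i
    refine Int.inductionOn' i 0 ⟨z0, by simpa using z1, y0, by simpa using y1⟩ (fun k _ hk => ?_)
      (fun k _ hk => ?_)
    · obtain ⟨a1, a2, a3, a4⟩ := hk
      have e1 := h1 (k + 1)
      have e2 := h2 (k + 1)
      rw [add_sub_cancel_right, a2, a3, a4, zero_add, zero_add] at e1
      rw [add_sub_cancel_right, a4, a1, a2, zero_add, zero_add] at e2
      exact ⟨a2, (mul_eq_zero.1 e2.symm).resolve_left (hb _), a4, (mul_eq_zero.1 e1.symm).resolve_left (ha _)⟩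
    · obtain ⟨a1, a2, a3, a4⟩ := hk
      have e1 := h1 k
      have e2 := h2 k
      rw [a1, a3, a4, add_zero, add_zero] at e1
      rw [a3, a1, a2, add_zero, add_zero] at e2
      rw [sub_add_cancel]
      exact ⟨(mul_eq_zero.1 e2.symm).resolve_left (hb _), a1, (mul_eq_zero.1 e1.symm).resolve_left (ha _), a3⟩
  exact fun i => (key i).1

/-- the symplectic form on `ℝ⁴` -/
noncomputable def omg : LinearMap.BilinForm ℝ ((ℝ × ℝ) × (ℝ × ℝ)) :=
  LinearMap.mk₂ ℝ (fun x y => x.1.1 * y.2.2 - x.1.2 * y.2.1 - y.1.1 * x.2.2 + y.1.2 * x.2.1)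
    (by intro x x' y; simp; ring) (by intro c x y; simp; ring)
    (by intro x y y'; simp; ring) (by intro c x y; simp; ring)

lemma omg_apply (x y : (ℝ × ℝ) × (ℝ × ℝ)) :
    omg x y = x.1.1 * y.2.2 - x.1.2 * y.2.1 - y.1.1 * x.2.2 + y.1.2 * x.2.1 := rfl

lemma omg_nondeg : omg.Nondegenerate := by
  constructor
  · intro x hx
    have a1 := hx ((0, 0), (0, 1))
    have a2 := hx ((0, 0), (1, 0))
    have a3 := hx ((1, 0), (0, 0))
    have a4 := hx ((0, 1), (0, 0))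
    rw [omg_apply] at a1 a2 a3 a4
    simp at a1 a2 a3 a4
    refine Prod.ext (Prod.ext ?_ ?_) (Prod.ext ?_ ?_) <;> simp [a1, a2, a3, a4]
  · intro x hx
    have a1 := hx ((0, 0), (0, 1))
    have a2 := hx ((0, 0), (1, 0))
    have a3 := hx ((1, 0), (0, 0))
    have a4 := hx ((0, 1), (0, 0))
    rw [omg_apply] at a1 a2 a3 a4
    simp at a1 a2 a3 a4
    refine Prod.ext (Prod.ext ?_ ?_) (Prod.ext ?_ ?_) <;> simp [a1, a2, a3, a4]

lemma isotropic_le (V : Submodule ℝ ((ℝ × ℝ) × (ℝ × ℝ))) (hV : ∀ x ∈ V, ∀ y ∈ V, omg x y = 0) :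
    Module.finrank ℝ V ≤ 2 := by
  have h1 : V ≤ omg.orthogonal V := by
    intro y hy
    rw [LinearMap.BilinForm.mem_orthogonal_iff]
    intro x hx
    exact hV x hx y hy
  have h2 := Submodule.finrank_mono h1
  rw [LinearMap.BilinForm.finrank_orthogonal omg_nondeg] at h2
  have h3 : Module.finrank ℝ ((ℝ × ℝ) × (ℝ × ℝ)) = 4 := by simp
  omega

end Pool.Agent.Q287.LT
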