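import Pool.Agent.Q287.LT.LT5
import Pool.Agent.Q287.LT.KL

/-!
# The chart at a critical point
-/

set_option autoImplicit false

namespace Pool.Agent.Q287.LT

open Filter Topology BoundedContinuousFunction

variable {d : ℕ} {L : ℝ} {φ φ' : B}

/-- the partner -/
noncomputable def kL (d : ℕ) (L : ℝ) (φ : B) : B →L[ℝ] B := ((d : ℝ) / L) • (A d ∘L mulL (φ ^ (d - 1)))

lemma kL_apply (h : B) : kL d L φ h = ((d : ℝ) / L) • A d (φ ^ (d - 1) * h) := rfl

/-- coordinates -/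
noncomputable def zf (d : ℕ) (φ : B) (i : ℤ) : B →L[ℝ] ℝ := (w i ^ d) • (ev i ∘L mulL (φ ^ (d - 1)))

lemma zf_apply (i : ℤ) (h : B) : zf d φ i h = w i ^ d * (φ ^ (d - 1) * h) i := rfl

lemma zf_apply' (hd : 2 ≤ d) (i : ℤ) (h : B) :
    zf d φ i h = (w i * φ i) ^ (d - 1) * (w i * h i) := by
  rw [zf_apply]
  simp only [BoundedContinuousFunction.mul_apply, BoundedContinuousFunction.pow_apply]
  have : w i ^ d = w i ^ (d - 1) * w i := by rw [← pow_succ]; congr 1; omega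
  rw [this, mul_pow]; ring

lemma zf_tendsto (hd : 2 ≤ d) (h : B) : Tendsto (fun i => zf d φ i h) cofinite (𝓝 0) := by
  have h1 : Tendsto (fun i => w i * ‖φ ^ (d - 1) * h‖) cofinite (𝓝 0) := by
    simpa using w_tendsto.mul_const ‖φ ^ (d - 1) * h‖
  refine squeeze_zero_norm (fun i => ?_) h1
  rw [zf_apply, norm_mul, Real.norm_of_nonneg (wpow_nonneg d i)]
  have h2 : w i ^ d ≤ w i := by
    calc w i ^ d ≤ w i ^ 1 := pow_le_pow_of_le_one (w_pos i).le (w_le_one i) (by omega)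
      _ = w i := pow_one _
  exact mul_le_mul h2 ((φ ^ (d - 1) * h).norm_coe_le_norm i) (norm_nonneg _) (w_pos i).le

/-- `w * kL h` in terms of the coordinates -/
lemma w_kL (hd : 2 ≤ d) (h : B) (i : ℤ) :
    w i * kL d L φ h i = ((d : ℝ) / L) * (zf d φ (i - 1) h + zf d φ i h + zf d φ (i + 1) h) := by
  rw [kL_apply]
  have := w_mul_A d hd (φ ^ (d - 1) * h) i
  simp only [BoundedContinuousFunction.coe_smul, smul_eq_mul]
  rw [zf_apply, zf_apply, zf_apply, ← this]; ring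

lemma Crit.kk (h : Crit d L φ φ') {k : B} (hk : GrD d L φ k = 0) : kL d L φ' (kL d L φ k) = k := by
  have := h.ker_eq hk
  rw [kL_apply, kL_apply, mul_smul_comm, map_smul, smul_smul]
  have e : (d : ℝ) / L * (d / L) = (d : ℝ) ^ 2 / L ^ 2 := by ring
  rw [e]; exact this

/-- relations -/
lemma Crit.rel1 (h : Crit d L φ φ') {k : B} (hk : GrD d L φ k = 0) (i : ℤ) :
    zf d φ i k = ((w i * φ i) ^ (d - 1) * ((d : ℝ) / L)) *
      (zf d φ' (i - 1) (kL d L φ k) + zf d φ' i (kL d L φ k) + zf d φ' (i + 1) (kL d L φ k)) := by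
  have h1 := w_kL (L := L) (φ := φ') h.hd (kL d L φ k) i
  rw [h.kk hk] at h1
  rw [zf_apply' h.hd, h1]; ring

lemma Crit.rel2 (h : Crit d L φ φ') (k : B) (i : ℤ) :
    zf d φ' i (kL d L φ k) = ((w i * φ' i) ^ (d - 1) * ((d : ℝ) / L)) *
      (zf d φ (i - 1) k + zf d φ i k + zf d φ (i + 1) k) := by
  rw [zf_apply' h.hd, w_kL h.hd]; ring

/-- the map to `ℝ⁴` -/
noncomputable def Psi (d : ℕ) (L : ℝ) (φ φ' : B) : B →ₗ[ℝ] (ℝ × ℝ) × (ℝ × ℝ) :=
  (((zf d φ 0 : B →ₗ[ℝ] ℝ).prod (zf d φ 1 : B →ₗ[ℝ] ℝ)).prod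
    ((((zf d φ' 0) ∘L (kL d L φ) : B →L[ℝ] ℝ) : B →ₗ[ℝ] ℝ).prod
      (((zf d φ' 1) ∘L (kL d L φ) : B →L[ℝ] ℝ) : B →ₗ[ℝ] ℝ)))

lemma Psi_apply (k : B) : Psi d L φ φ' k =
    ((zf d φ 0 k, zf d φ 1 k), (zf d φ' 0 (kL d L φ k), zf d φ' 1 (kL d L φ k))) := rfl

lemma Crit.apos (h : Crit d L φ φ') (i : ℤ) : (w i * φ i) ^ (d - 1) * ((d : ℝ) / L) ≠ 0 := by
  have h1 := w_pos i
  have h2 := h.pos i
  have h3 := h.hL
  have h4 : (0 : ℝ) < d := by have := h.hd; exact_mod_cast (by omega : 0 < d)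
  positivity

lemma Crit.bpos (h : Crit d L φ φ') (i : ℤ) : (w i * φ' i) ^ (d - 1) * ((d : ℝ) / L) ≠ 0 := by
  have h1 := w_pos i
  have h2 := h.pos' i
  have h3 := h.hL
  have h4 : (0 : ℝ) < d := by have := h.hd; exact_mod_cast (by omega : 0 < d)
  positivity

lemma Crit.Psi_inj (h : Crit d L φ φ') {k : B} (hk : GrD d L φ k = 0) (h0 : Psi d L φ φ' k = 0) : k = 0 := by
  rw [Psi_apply] at h0
  have a1 : zf d φ 0 k = 0 := congrArg (fun t => t.1.1) h0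
  have a2 : zf d φ 1 k = 0 := congrArg (fun t => t.1.2) h0
  have a3 : zf d φ' 0 (kL d L φ k) = 0 := congrArg (fun t => t.2.1) h0
  have a4 : zf d φ' 1 (kL d L φ k) = 0 := congrArg (fun t => t.2.2) h0
  have hz := seq_zero (z := fun i => zf d φ i k) (y := fun i => zf d φ' i (kL d L φ k))
    h.apos h.bpos (fun i => h.rel1 hk i) (fun i => h.rel2 k i) a1 a2 a3 a4
  ext i
  have h1 : zf d φ i k = 0 := hz i
  rw [zf_apply' h.hd] at h1
  have hw := w_pos i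
  have hp := h.pos i
  have h2 : (w i * φ i) ^ (d - 1) ≠ 0 := by positivity
  have h3 := (mul_eq_zero.1 h1).resolve_left h2
  simpa using (mul_eq_zero.1 h3).resolve_left hw.ne'

lemma Crit.iso (h : Crit d L φ φ') {k k' : B} (hk : GrD d L φ k = 0) (hk' : GrD d L φ k' = 0) :
    omg (Psi d L φ φ' k) (Psi d L φ φ' k') = 0 := by
  have := WW_zero (z := fun i => zf d φ i k) (y := fun i => zf d φ' i (kL d L φ k))
    (z' := fun i => zf d φ i k') (y' := fun i => zf d φ' i (kL d L φ k'))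
    h.apos h.bpos (fun i => h.rel1 hk i) (fun i => h.rel2 k i) (fun i => h.rel1 hk' i)
    (fun i => h.rel2 k' i) (zf_tendsto h.hd _) (zf_tendsto h.hd _) (zf_tendsto h.hd _) (zf_tendsto h.hd _)
  rw [omg_apply, Psi_apply, Psi_apply]
  simpa [WW] using this

/-- a finite-dimensional space of dimension at most two is a quotient of the plane -/
lemma exists_two (V : Type*) [AddCommGroup V] [Module ℝ V] [FiniteDimensional ℝ V]
    (hV : Module.finrank ℝ V ≤ 2) : ∃ (j : V →ₗ[ℝ] ℝ × ℝ) (q : ℝ × ℝ →ₗ[ℝ] V), q ∘ₗ j = LinearMap.id := by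
  set n := Module.finrank ℝ V with hn
  let e : V ≃ₗ[ℝ] (Fin n → ℝ) := (Module.finBasis ℝ V).equivFun
  let q0 : (Fin 2 → ℝ) →ₗ[ℝ] (Fin n → ℝ) := LinearMap.funLeft ℝ ℝ (Fin.castLE hV)
  have hq0 : Function.Surjective q0 :=
    LinearMap.funLeft_surjective_of_injective ℝ ℝ _ (Fin.castLE_injective hV)
  let e2 : (Fin 2 → ℝ) ≃ₗ[ℝ] (ℝ × ℝ) := LinearEquiv.finTwoArrow ℝ ℝ
  let q : ℝ × ℝ →ₗ[ℝ] V := (e.symm : (Fin n → ℝ) →ₗ[ℝ] V) ∘ₗ q0 ∘ₗ (e2.symm : (ℝ × ℝ) →ₗ[ℝ] (Fin 2 → ℝ))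
  have hq : Function.Surjective q := by
    intro v
    obtain ⟨y, hy⟩ := hq0 (e v)
    refine ⟨e2 y, ?_⟩
    simp [q, hy]
  obtain ⟨j, hj⟩ := LinearMap.exists_rightInverse_of_surjective q (LinearMap.range_eq_top.2 hq)
  exact ⟨j, q, hj⟩

/-- abstract construction of the chart data -/
theorem exists_equiv_abs {E : Type*} [NormedAddCommGroup E] [NormedSpace ℝ E] [CompleteSpace E]
    (D K0 : E →L[ℝ] E) (hDK : ∀ k, D k = k - K0 k) (hK0 : IsCompactOperator K0)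
    (Ψ : E →ₗ[ℝ] (ℝ × ℝ) × (ℝ × ℝ)) (hinjΨ : ∀ k, D k = 0 → Ψ k = 0 → k = 0)
    (hiso : ∀ k k', D k = 0 → D k' = 0 → omg (Ψ k) (Ψ k') = 0)
    (horth : ∀ p k, D p = 0 → D k = -p → p = 0) :
    ∃ (P : E →L[ℝ] ℝ × ℝ) (ι : ℝ × ℝ →L[ℝ] E) (M : E ≃L[ℝ] E), (M : E →L[ℝ] E) = D + ι ∘L P := by
  set V : Submodule ℝ E := LinearMap.ker (D : E →ₗ[ℝ] E) with hV
  have hfr : FiniteDimensional ℝ V ∧ Module.finrank ℝ V ≤ 2 := by
    set g : V →ₗ[ℝ] (ℝ × ℝ) × (ℝ × ℝ) := Ψ.domRestrict V with hg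
    have hinj : Function.Injective g := by
      intro k k' hkk
      have h1 : g (k - k') = 0 := by rw [map_sub, hkk, sub_self]
      have h2 : ((k - k' : V) : E) = 0 := hinjΨ _ (k - k').2 h1
      have h3 : k - k' = 0 := Subtype.ext h2
      exact sub_eq_zero.1 h3
    refine ⟨FiniteDimensional.of_injective g hinj, ?_⟩
    rw [(LinearEquiv.ofInjective g hinj).finrank_eq]
    refine isotropic_le _ ?_
    rintro _ ⟨k, rfl⟩ _ ⟨k', rfl⟩
    exact hiso _ _ k.2 k'.2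
  obtain ⟨hfin, hrank⟩ := hfr
  obtain ⟨p, hp⟩ := Submodule.ClosedComplemented.of_finiteDimensional (𝕜 := ℝ) V
  obtain ⟨j, q, hqj⟩ := exists_two V hrank
  set P : E →L[ℝ] ℝ × ℝ := (LinearMap.toContinuousLinearMap j) ∘L p with hP
  set ι : ℝ × ℝ →L[ℝ] E := V.subtypeL ∘L (LinearMap.toContinuousLinearMap q) with hι
  have hιP : ∀ k, ι (P k) = (p k : E) := by
    intro k
    have : q (j (p k)) = p k := LinearMap.congr_fun hqj (p k)
    change ((q (j (p k)) : V) : E) = _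
    rw [this]
  set M0 : E →L[ℝ] E := D + ι ∘L P with hM0
  have hM0a : ∀ k, M0 k = D k + (p k : E) := by
    intro k
    change D k + ι (P k) = _
    rw [hιP]
  have hinj : ∀ k, M0 k = 0 → k = 0 := by
    intro k hk
    rw [hM0a] at hk
    have hpk : D (p k : E) = 0 := (p k).2
    have h2 : D k = -(p k : E) := eq_neg_of_add_eq_zero_left hk
    have h4 : (p k : E) = 0 := horth _ k hpk h2
    rw [h4, neg_zero] at h2
    have h8 := hp ⟨k, h2⟩
    have h9 : (p k : E) = k := congrArg (Subtype.val) h8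
    rw [← h9, h4]
  set K : E →L[ℝ] E := K0 - ι ∘L P with hK
  have hKM : ∀ k, M0 k = k - K k := by
    intro k
    have e1 : K k = K0 k - ι (P k) := rfl
    have e2 : M0 k = D k + ι (P k) := rfl
    rw [e1, e2, hDK]
    abel
  have hKc : IsCompactOperator K :=
    hK0.sub ((isCompactOperator_of_locallyCompactSpace_dom P).clm_comp ι)
  have hnot : ¬ Module.End.HasEigenvalue (K : Module.End ℝ E) 1 := by
    intro he
    obtain ⟨v, hv⟩ := he.exists_hasEigenvector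
    have h1 : K v = v := by
      have := hv.apply_eq_smul
      simpa using this
    apply hv.2
    apply hinj
    rw [hKM, h1, sub_self]
  have hres := (hKc.hasEigenvalue_or_mem_resolventSet (μ := (1 : ℝ)) one_ne_zero).resolve_left hnot
  rw [spectrum.mem_resolventSet_iff] at hres
  have hM0eq : algebraMap ℝ (E →L[ℝ] E) 1 - K = M0 := by
    ext1 k
    rw [hKM, map_one]; rfl
  rw [hM0eq] at hres
  obtain ⟨u, hu⟩ := hres
  refine ⟨P, ι, ContinuousLinearEquiv.unitsEquiv ℝ E u, ?_⟩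
  rw [← hM0, ← hu]
  ext1 k
  rfl

/-- the chart data -/
theorem Crit.exists_equiv (h : Crit d L φ φ') :
    ∃ (P : B →L[ℝ] ℝ × ℝ) (ι : ℝ × ℝ →L[ℝ] B) (M : B ≃L[ℝ] B), (M : B →L[ℝ] B) = GrD d L φ + ι ∘L P := by
  set K : B →L[ℝ] B := ((d : ℝ) ^ 2 / L ^ 2) • (A d ∘L (mulL (φ' ^ (d - 1)) ∘L (A d ∘L mulL (φ ^ (d - 1)))))
    - ((((d : ℝ) ^ 2 + d) • (sg d ∘L mulL (φ ^ d))).smulRight φ) with hK
  have hDK : ∀ k, GrD d L φ k = k - K k := by
    intro k
    have e1 : K k = ((d : ℝ) ^ 2 / L ^ 2) • A d (φ' ^ (d - 1) * A d (φ ^ (d - 1) * k))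
        - (((d : ℝ) ^ 2 + d) * sg d (φ ^ d * k)) • φ := rfl
    rw [e1, h.GrD_apply]
    abel
  have hKc : IsCompactOperator K := by
    have c1 : IsCompactOperator (A d ∘L (mulL (φ' ^ (d - 1)) ∘L (A d ∘L mulL (φ ^ (d - 1))))) :=
      (compact_A d h.hd).comp_clm _
    have c2 : IsCompactOperator ((((d : ℝ) ^ 2 + d) • (sg d ∘L mulL (φ ^ d))).smulRight φ) :=
      compact_rank_one _ _
    exact (c1.smul _).sub c2
  refine exists_equiv_abs (GrD d L φ) K hDK hKc (Psi d L φ φ') (fun k hk h0 => h.Psi_inj hk h0)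
    (fun k k' hk hk' => h.iso hk hk') ?_
  intro p k hpk h2
  have h1 := h.ker_orth hpk k
  have h2' : GrD d L φ k = (-1 : ℝ) • p := by rw [h2]; ext i; simp
  rw [h2', mul_smul_comm, map_smul, smul_eq_mul, neg_one_mul, neg_eq_zero] at h1
  have hnn : ∀ i, 0 ≤ (φ ^ (d - 1) * p * p) i := by
    intro i
    have := h.nonneg i
    simp only [BoundedContinuousFunction.mul_apply, BoundedContinuousFunction.pow_apply]
    rw [mul_assoc]
    have := mul_self_nonneg (p i)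
    positivity
  have h3 := sg_eq_zero d _ hnn h1
  ext i
  have h5 : (φ ^ (d - 1) * p * p) i = 0 := by rw [h3]; rfl
  simp only [BoundedContinuousFunction.mul_apply, BoundedContinuousFunction.pow_apply] at h5
  have h6 : φ i ^ (d - 1) ≠ 0 := (pow_pos (h.pos i) _).ne'
  rcases mul_eq_zero.1 h5 with h7 | h7
  · simpa using (mul_eq_zero.1 h7).resolve_left h6
  · simpa using h7

theorem Crit.exists_chart (h : Crit d L φ φ') :
    ∃ P g' ρ r0 K, Chart (Gr d L) (FF d) φ P g' ρ r0 K := by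
  obtain ⟨P, ι, M, hM⟩ := h.exists_equiv
  have hNT : 0 < N d (T d φ) := by rw [h.NT]; exact pow_pos h.hL _
  obtain ⟨C, hC, hdF⟩ := FF_bound h.hd h.hL φ h.one hNT
  obtain ⟨g', ρ, r0, K, hc⟩ := chart_exists (Gr_ana d L φ)
    (FF_ana d φ (by rw [h.one]; exact one_pos) hNT) h.Gr_zero P ι M
    (by rw [(hasGr d L φ).fderiv]; exact hM) hC hdF
  exact ⟨P, g', ρ, r0, K, hc⟩

end Pool.Agent.Q287.LT
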