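import Pool.Agent.Q287.LT.LT3
import Pool.Agent.Q287.LT.LT6

/-!
# Convergence of the normalised orbit along both parities
-/

set_option autoImplicit false

namespace Pool.Agent.Q287.LT

open Filter Topology BoundedContinuousFunction

variable {d : ℕ} {x : ℕ → B} {lam : ℕ → ℝ}

/-- the shifted orbit -/
lemma Orb.shift (h : Orb d x lam) (k : ℕ) : Orb d (fun m => x (m + k)) (fun m => lam (m + k)) :=
  ⟨h.hd, fun m i => h.nonneg _ i, fun m => h.norm_one _, fun m => h.lam_pos _, fun m => by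
    have := h.step (m + k)
    rw [this, show m + k + 1 = m + 1 + k by ring]⟩

lemma Orb.T_step (h : Orb d x lam) (m : ℕ) : T d (x m) = lam m • x (m + 1) := h.step m

/-- compactness of the orbit -/
lemma Orb.compact (h : Orb d x lam) {C : ℝ} (hC : 0 ≤ C) (ht : Tail x C) :
    ∃ Q : Set B, IsCompact Q ∧ ∀ m, x (m + 1) ∈ Q := by
  obtain ⟨K0, hK0, hsub⟩ := (compact_A d h.hd).image_closedBall_subset_compact (C ^ d)
  refine ⟨(fun p : ℝ × B => p.1 • p.2) '' (Set.Icc 0 (lam 0)⁻¹ ×ˢ K0),
    ((isCompact_Icc.prod hK0).image (by fun_prop)), fun m => ?_⟩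
  have h1 : A d (x m ^ d) ∈ K0 := by
    apply hsub
    refine ⟨x m ^ d, ?_, rfl⟩
    rw [mem_closedBall_zero_iff]
    exact (norm_pow_le _ _).trans (pow_le_pow_left₀ (norm_nonneg _) (h.norm_le hC ht m) _)
  refine ⟨((lam m)⁻¹, A d (x m ^ d)), ⟨⟨(inv_pos.2 (h.lam_pos m)).le, ?_⟩, h1⟩, ?_⟩
  · exact inv_anti₀ (h.lam_pos 0) (h.lam_mono (Nat.zero_le m))
  · simp only
    rw [h.step, smul_smul, inv_mul_cancel₀ (h.lam_pos m).ne', one_smul]

lemma N_cont (d : ℕ) : Continuous (N d) := continuous_iff_continuousAt.2 fun f => (N_ana d f).continuousAt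
lemma T_cont (d : ℕ) : Continuous (T d) := continuous_iff_continuousAt.2 fun f => (T_ana d f).continuousAt

theorem Orb.even_conv (h : Orb d x lam) {C : ℝ} (hC : 0 ≤ C) (ht : Tail x C) :
    ∃ φ, Tendsto (fun n => x (2 * n + 2)) atTop (𝓝 φ) := by
  have hd := h.hd
  obtain ⟨L, hL, hLt, hLle⟩ := h.lam_tendsto hC ht
  obtain ⟨K, hK, hstep⟩ := h.step_bound hC ht
  obtain ⟨Q, hQ, hxQ⟩ := h.compact hC ht
  set X : ℕ → B := fun n => x (2 * n + 2) with hX
  set κ : ℕ → ℝ := fun n => L - lam (2 * n + 1) with hκ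
  have hmono := h.lam_mono
  have hXQ : ∀ n, X n ∈ Q := fun n => hxQ (2 * n + 1)
  have hκ0 : ∀ n, 0 ≤ κ n := fun n => sub_nonneg.2 (hLle _)
  have hκa : Antitone κ := by
    intro a b hab
    have := hmono (show 2 * a + 1 ≤ 2 * b + 1 by omega)
    simp only [hκ]; linarith
  have hat : Tendsto (fun n : ℕ => 2 * n + 1) atTop atTop :=
    tendsto_atTop_mono (fun n => by omega : ∀ n : ℕ, n ≤ 2 * n + 1) tendsto_id
  have hκt : Tendsto κ atTop (𝓝 0) := by
    have := (hLt.comp hat).const_sub L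
    simpa [hκ] using this
  have hXstep : ∀ n, ‖X (n + 1) - X n‖ ≤ K * √(κ n - κ (n + 1)) := by
    intro n
    have := hstep (2 * n + 1)
    simp only [hX, hκ]
    rw [show 2 * (n + 1) + 2 = 2 * n + 1 + 3 by ring, show 2 * (n + 1) + 1 = 2 * n + 1 + 2 by ring,
      show L - lam (2 * n + 1) - (L - lam (2 * n + 1 + 2)) = lam (2 * n + 1 + 2) - lam (2 * n + 1) by ring]
    exact this
  have hXs0 : Tendsto (fun n => ‖X (n + 1) - X n‖) atTop (𝓝 0) := by
    have h1 : Tendsto (fun n => K * √(κ n - κ (n + 1))) atTop (𝓝 0) := by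
      have h2 : Tendsto (fun n => κ n - κ (n + 1)) atTop (𝓝 (0 - 0)) :=
        hκt.sub (hκt.comp (tendsto_add_atTop_nat 1))
      rw [sub_zero] at h2
      have h3 := (Real.continuous_sqrt.tendsto 0).comp h2
      rw [Real.sqrt_zero] at h3
      simpa using h3.const_mul K
    exact squeeze_zero (fun n => norm_nonneg _) hXstep h1
  -- limit points are critical
  have hcrit : ∀ ψ, MapClusterPt ψ atTop X → Crit d L ψ (L⁻¹ • T d ψ) := by
    intro ψ hψ
    obtain ⟨s, hs, hst⟩ := hψ.tendsto_subseq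
    have hs' : Tendsto s atTop atTop := hs.tendsto_atTop
    have t0 : Tendsto (fun k => x (2 * s k + 2)) atTop (𝓝 ψ) := hst
    have tl : ∀ c : ℕ, Tendsto (fun k => lam (2 * s k + c)) atTop (𝓝 L) := by
      intro c
      refine hLt.comp ?_
      exact tendsto_atTop_mono (fun k => by have := hs.le_apply (x := k); omega : ∀ k : ℕ, k ≤ 2 * s k + c)
        tendsto_id
    have t1 : Tendsto (fun k => x (2 * s k + 3)) atTop (𝓝 (L⁻¹ • T d ψ)) := by
      have e : ∀ k, x (2 * s k + 3) = (lam (2 * s k + 2))⁻¹ • T d (x (2 * s k + 2)) := by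
        intro k
        rw [h.T_step, smul_smul, inv_mul_cancel₀ (h.lam_pos _).ne', one_smul]
      simp only [e]
      exact ((tl 2).inv₀ hL.ne').smul (((T_cont d).tendsto ψ).comp t0)
    have t2 : Tendsto (fun k => x (2 * s k + 4)) atTop (𝓝 ψ) := by
      have e : ∀ k, x (2 * s k + 4) = X (s k) + (X (s k + 1) - X (s k)) := by
        intro k
        simp only [hX]
        rw [show 2 * (s k + 1) + 2 = 2 * s k + 4 by ring]; abel
      simp only [e]
      have h1 : Tendsto (fun k => X (s k + 1) - X (s k)) atTop (𝓝 0) := by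
        rw [tendsto_zero_iff_norm_tendsto_zero]
        exact hXs0.comp hs'
      have h2 : Tendsto (fun k => X (s k)) atTop (𝓝 ψ) := hst
      simpa using h2.add h1
    have t3 : Tendsto (fun k => T d (x (2 * s k + 3))) atTop (𝓝 (L • ψ)) := by
      have e : ∀ k, T d (x (2 * s k + 3)) = lam (2 * s k + 3) • x (2 * s k + 4) := fun k => h.T_step _
      simp only [e]
      exact (tl 3).smul t2
    have nn : ∀ (f : ℕ → B) (g : B), (∀ k i, 0 ≤ f k i) → Tendsto f atTop (𝓝 g) → ∀ i, 0 ≤ g i := by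
      intro f g hf hg i
      have : Tendsto (fun k => ev i (f k)) atTop (𝓝 (ev i g)) := ((ev i).continuous.tendsto g).comp hg
      exact ge_of_tendsto' this (fun k => hf k i)
    have no : ∀ (f : ℕ → B) (g : B), (∀ k, N d (f k) = 1) → Tendsto f atTop (𝓝 g) → N d g = 1 := by
      intro f g hf hg
      have : Tendsto (fun k => N d (f k)) atTop (𝓝 (N d g)) := ((N_cont d).tendsto g).comp hg
      simp only [hf] at this
      exact (tendsto_nhds_unique this tendsto_const_nhds)
    refine ⟨hd, hL, nn _ _ (fun k => h.nonneg _) t0, nn _ _ (fun k => h.nonneg _) t1,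
      no _ _ (fun k => h.norm_one _) t0, no _ _ (fun k => h.norm_one _) t1, ?_, ?_⟩
    · rw [smul_smul, mul_inv_cancel₀ hL.ne', one_smul]
    · exact tendsto_nhds_unique (((T_cont d).tendsto _).comp t1) t3
  set Λ : Set B := {ψ | MapClusterPt ψ atTop X} with hΛ
  have hΛc : IsPreconnected Λ := limitSet_preconnected hQ hXQ hXs0
  obtain ⟨φ, _, hφ⟩ := hQ.exists_mapClusterPt_of_frequently (l := atTop) (f := X)
    (Eventually.of_forall hXQ).frequently
  have hφΛ : φ ∈ Λ := hφ
  obtain ⟨P, g', ρ, r0, K', hc⟩ := (hcrit φ hφ).exists_chart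
  obtain ⟨ψ, hψ, hcase⟩ := kl_of_chart hΛc hφΛ (Gr_cont d L) (fun ψ hψ => (hcrit ψ hψ).Gr_zero)
    (fun ψ hψ => (hcrit ψ hψ).FF_eq) hc
  refine ⟨ψ, ?_⟩
  rcases hcase with hsing | ⟨θ, hθ0, hθ1, C', hC', hKL⟩
  · refine hQ.tendsto_nhds_of_unique_mapClusterPt (Eventually.of_forall hXQ) (fun z _ hz => ?_)
    have : z ∈ Λ := hz
    rw [hsing] at this
    exact this
  · set D : ℝ := L ^ θ * (C' * ((L ^ (d + 1))⁻¹ * (L ^ d * (L * K + √L * C)))) with hD
    have hθ : 0 ≤ θ := by linarith
    refine trap hκ0 hκa hκt hK hXstep hψ (C' := D) hθ0 hθ1 (by positivity) ?_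
    filter_upwards [hKL] with y hy n hn
    rw [← hn] at hy
    set m := 2 * n + 2 with hm
    have hXn : X n = x m := rfl
    rw [hXn] at hy
    have hNT : N d (T d (x m)) = lam m ^ (d + 1) := by
      rw [h.T_step, N_smul]
      have : N d (x (m + 1)) = 1 := h.norm_one _
      rw [this, mul_one]
    have hN1 : N d (x m) = 1 := h.norm_one _
    have hFF : FF d (x m) = (d + 1) * Real.log (lam m) := by
      rw [FF, hNT, hN1, Real.log_pow]; simp
    have hlm := h.lam_pos m
    have hlL := hLle m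
    -- K (n+1) ≤ L * |F - F*|
    have e1 : κ (n + 1) ≤ L * |FF d (x m) - (d + 1) * Real.log L| := by
      have a1 : κ (n + 1) ≤ L - lam m := by
        have := hmono (show m ≤ 2 * (n + 1) + 1 by omega)
        simp only [hκ]; linarith
      have a2 : L - lam m ≤ L * (Real.log L - Real.log (lam m)) := by
        have := Real.log_le_sub_one_of_pos (show 0 < lam m / L by positivity)
        rw [Real.log_div hlm.ne' hL.ne'] at this
        have b1 : 1 - lam m / L ≤ Real.log L - Real.log (lam m) := by linarith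
        have b2 : L - lam m = L * (1 - lam m / L) := by field_simp
        rw [b2]
        exact mul_le_mul_of_nonneg_left b1 hL.le
      have a3 : Real.log L - Real.log (lam m) ≤ |FF d (x m) - (d + 1) * Real.log L| := by
        rw [hFF, abs_sub_comm]
        have b3 : 0 ≤ Real.log L - Real.log (lam m) := sub_nonneg.2 (Real.log_le_log hlm hlL)
        have b4 : (0 : ℝ) ≤ d := Nat.cast_nonneg d
        refine le_trans ?_ (le_abs_self _)
        have : (d + 1 : ℝ) * Real.log L - (d + 1) * Real.log (lam m)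
          = (Real.log L - Real.log (lam m)) + d * (Real.log L - Real.log (lam m)) := by ring
        rw [this]
        have : 0 ≤ d * (Real.log L - Real.log (lam m)) := mul_nonneg b4 b3
        linarith
      exact a1.trans (a2.trans (mul_le_mul_of_nonneg_left a3 hL.le))
    have e2 : κ (n + 1) ^ θ ≤ L ^ θ * (C' * ‖Gr d L (x m)‖) := by
      refine (Real.rpow_le_rpow (hκ0 _) e1 hθ).trans ?_
      rw [Real.mul_rpow hL.le (abs_nonneg _)]
      exact mul_le_mul_of_nonneg_left hy (Real.rpow_nonneg hL.le _)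
    -- the gradient
    set δ := κ n - κ (n + 1) with hδ
    have hδe : δ = lam (2 * n + 3) - lam (2 * n + 1) := by
      simp only [hδ, hκ]; rw [show 2 * (n + 1) + 1 = 2 * n + 3 by ring]; ring
    have hG : Gr d L (x m) = (L ^ (d + 1))⁻¹ • (lam m ^ d • (lam m • (x m - x (m + 2))
        - (lam (m + 1) - lam m) • x (m + 2))) := by
      rw [Gr, G0, hN1, hNT, sub_self, zero_smul, add_zero, one_smul, h.T_step, T_smul, h.T_step, pow_succ]
      congr 1
      module
    have hm2 : ‖x m - x (m + 2)‖ ≤ K * √δ := by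
      have := hXstep n
      rw [norm_sub_rev]
      exact this
    have hdl : |lam (m + 1) - lam m| ≤ √L * √δ := by
      have b1 : lam m ≤ lam (m + 1) := hmono (by omega)
      have b2 : lam (2 * n + 1) ≤ lam m := hmono (by omega)
      have b3 : lam (m + 1) = lam (2 * n + 3) := rfl
      rw [abs_of_nonneg (by linarith)]
      have b4 : lam (m + 1) - lam m ≤ δ := by rw [hδe, ← b3]; linarith
      have b5 : 0 ≤ δ := by rw [hδe, ← b3]; linarith
      have b6 : δ ≤ L := by
        have := hLle (2 * n + 3)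
        have := h.lam_pos (2 * n + 1)
        rw [hδe]; linarith
      calc lam (m + 1) - lam m ≤ δ := b4
        _ = √δ * √δ := (Real.mul_self_sqrt b5).symm
        _ ≤ √L * √δ := mul_le_mul_of_nonneg_right (Real.sqrt_le_sqrt b6) (Real.sqrt_nonneg _)
    have hGn : ‖Gr d L (x m)‖ ≤ (L ^ (d + 1))⁻¹ * (L ^ d * (L * K + √L * C)) * √δ := by
      rw [hG, norm_smul, norm_smul, Real.norm_of_nonneg (by positivity), Real.norm_of_nonneg (by positivity)]
      have c1 : ‖lam m • (x m - x (m + 2)) - (lam (m + 1) - lam m) • x (m + 2)‖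
          ≤ (L * K + √L * C) * √δ := by
        refine (norm_sub_le _ _).trans ?_
        rw [norm_smul, norm_smul, Real.norm_of_nonneg hlm.le, Real.norm_eq_abs]
        have d1 : lam m * ‖x m - x (m + 2)‖ ≤ L * (K * √δ) :=
          mul_le_mul hlL hm2 (norm_nonneg _) hL.le
        have d2 : |lam (m + 1) - lam m| * ‖x (m + 2)‖ ≤ √L * √δ * C :=
          mul_le_mul hdl (h.norm_le hC ht _) (norm_nonneg _) (by positivity)
        linarith
      have c2 : lam m ^ d ≤ L ^ d := pow_le_pow_left₀ hlm.le hlL d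
      calc (L ^ (d + 1))⁻¹ * (lam m ^ d * ‖lam m • (x m - x (m + 2)) - (lam (m + 1) - lam m) • x (m + 2)‖)
          ≤ (L ^ (d + 1))⁻¹ * (L ^ d * ((L * K + √L * C) * √δ)) := by gcongr
        _ = _ := by ring
    calc κ (n + 1) ^ θ ≤ L ^ θ * (C' * ‖Gr d L (x m)‖) := e2
      _ ≤ L ^ θ * (C' * ((L ^ (d + 1))⁻¹ * (L ^ d * (L * K + √L * C)) * √δ)) := by
          have := Real.rpow_nonneg hL.le θ
          gcongr
      _ = D * √δ := by rw [hD]; ring

/-- convergence along both parities -/
theorem Orb.parity_conv (h : Orb d x lam) {C : ℝ} (hC : 0 ≤ C) (ht : Tail x C) (s : ℕ) :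
    ∃ φ, Tendsto (fun n => x (2 * n + s)) atTop (𝓝 φ) := by
  obtain ⟨φ, hφ⟩ := (h.shift s).even_conv hC (fun m i => ht (m + s) i)
  refine ⟨φ, ?_⟩
  rw [← tendsto_add_atTop_iff_nat 1]
  refine hφ.congr (fun n => ?_)
  rw [show 2 * n + 2 + s = 2 * (n + 1) + s by ring]

end Pool.Agent.Q287.LT
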