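import Pool.Agent.Q287.LT.LT7

/-!
# For `d = 2` the two parities have the same limit
-/

set_option autoImplicit false

namespace Pool.Agent.Q287.LT

open Filter Topology BoundedContinuousFunction

/-- two nonnegative summable solutions of the 2-periodic system for `d = 2` coincide -/
lemma two_eq {u v : ℤ → ℝ} {K : ℝ} (hu0 : ∀ i, 0 < u i) (hv0 : ∀ i, 0 < v i)
    (huK : ∀ i, u i ≤ K * w i) (hvK : ∀ i, v i ≤ K * w i)
    (hu : ∀ i, u i = v (i - 1) ^ 2 + v i ^ 2 + v (i + 1) ^ 2)
    (hv : ∀ i, v i = u (i - 1) ^ 2 + u i ^ 2 + u (i + 1) ^ 2) : ∀ i, u i = v i := by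
  set t : ℤ → ℝ := fun i => u i + v i with ht
  have ht0 : ∀ i, 0 < t i := fun i => add_pos (hu0 i) (hv0 i)
  have hK0 : 0 < K := by
    have := (hu0 0).trans_le (huK 0)
    exact (pos_iff_pos_of_mul_pos this).2 (w_pos 0)
  have htt : Tendsto t cofinite (𝓝 0) := by
    have h1 : Tendsto (fun i => 2 * K * w i) cofinite (𝓝 0) := by
      simpa using w_tendsto.const_mul (2 * K)
    refine squeeze_zero (fun i => (ht0 i).le) (fun i => ?_) h1
    have := huK i; have := hvK i
    simp only [ht]; linarith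
  -- a maximum
  obtain ⟨i0, hmax⟩ : ∃ i0, ∀ i, t i ≤ t i0 := by
    have hfin : {i : ℤ | ¬ (t i < t 0)}.Finite := by
      have := htt.eventually (gt_mem_nhds (ht0 0))
      rwa [Filter.eventually_cofinite] at this
    have hne : (hfin.toFinset).Nonempty := ⟨0, by simp⟩
    obtain ⟨i0, hi0, hm⟩ := hfin.toFinset.exists_max_image t hne
    refine ⟨i0, fun i => ?_⟩
    by_cases hi : t i < t 0
    · have : t 0 ≤ t i0 := hm 0 (by simp)
      linarith
    · exact hm i (by simpa using hi)
  have hsq : ∀ i, (t (i - 1) ^ 2 + t i ^ 2 + t (i + 1) ^ 2) / 2 ≤ t i := by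
    intro i
    have h1 := hu i
    have h2 := hv i
    have q1 := sq_nonneg (u (i - 1) - v (i - 1))
    have q2 := sq_nonneg (u i - v i)
    have q3 := sq_nonneg (u (i + 1) - v (i + 1))
    have e : t i = (v (i - 1) ^ 2 + v i ^ 2 + v (i + 1) ^ 2) + (u (i - 1) ^ 2 + u i ^ 2 + u (i + 1) ^ 2) := by
      simp only [ht]
      rw [← h1, ← h2]
    rw [e]
    simp only [ht]
    nlinarith
  have hM : t i0 < 1 := by
    by_contra hcon
    push Not at hcon
    have a0 := hsq i0
    have a1 := hsq (i0 + 1)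
    have a2 := hsq (i0 - 1)
    rw [add_sub_cancel_right] at a1
    rw [sub_add_cancel] at a2
    have b1 : (t (i0 + 1) - 1) ^ 2 ≤ 1 - t i0 ^ 2 := by nlinarith [sq_nonneg (t (i0 + 1 + 1))]
    have b2 : (t (i0 - 1) - 1) ^ 2 ≤ 1 - t i0 ^ 2 := by nlinarith [sq_nonneg (t (i0 - 1 - 1))]
    have b3 : 1 - t i0 ^ 2 ≤ 0 := by nlinarith
    have b4 : t (i0 + 1) = 1 := by
      have : (t (i0 + 1) - 1) ^ 2 = 0 := le_antisymm (b1.trans b3) (sq_nonneg _)
      have := pow_eq_zero_iff (two_ne_zero) |>.1 this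
      linarith
    have b5 : t (i0 - 1) = 1 := by
      have : (t (i0 - 1) - 1) ^ 2 = 0 := le_antisymm (b2.trans b3) (sq_nonneg _)
      have := pow_eq_zero_iff (two_ne_zero) |>.1 this
      linarith
    have b6 : t i0 ^ 2 ≤ 1 := by nlinarith [sq_nonneg (t (i0 + 1) - 1)]
    rw [b4, b5] at a0
    nlinarith
  have ht1 : ∀ i, t i < 1 := fun i => (hmax i).trans_lt hM
  set z : ℤ → ℝ := fun i => u i - v i with hz
  set a : ℤ → ℝ := fun i => t i * z i with ha
  have hza : ∀ i, z i = -(a (i - 1) + a i + a (i + 1)) := by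
    intro i
    have h1 := hu i
    have h2 := hv i
    have e : z i = (v (i - 1) ^ 2 + v i ^ 2 + v (i + 1) ^ 2) - (u (i - 1) ^ 2 + u i ^ 2 + u (i + 1) ^ 2) := by
      simp only [hz]; rw [← h1, ← h2]
    rw [e]
    simp only [ha, ht, hz]
    ring
  have hzt : ∀ i, |z i| ≤ t i := by
    intro i
    have := hu0 i; have := hv0 i
    simp only [hz, ht]
    rw [abs_le]; constructor <;> linarith
  have hz1 : ∀ i, |z i| ≤ 1 := fun i => (hzt i).trans (ht1 i).le
  have hat : ∀ i, |a i| ≤ 2 * K * w i := by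
    intro i
    simp only [ha]
    rw [abs_mul, abs_of_pos (ht0 i)]
    have h1 : t i ≤ 2 * K * w i := by
      have := huK i; have := hvK i
      simp only [ht]; linarith
    have h2 := hz1 i
    have h3 := ht0 i
    nlinarith [abs_nonneg (z i)]
  have ha1 : ∀ i, |a i| ≤ 1 := by
    intro i
    simp only [ha]
    rw [abs_mul, abs_of_pos (ht0 i)]
    have h1 := (ht1 i).le
    have h2 := hz1 i
    have h3 := ht0 i
    nlinarith [abs_nonneg (z i)]
  have hsum : ∀ g : ℤ → ℝ, (∀ i, |g i| ≤ 1) → Summable (fun i => a i * g i) := by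
    intro g hg
    refine Summable.of_norm_bounded (g := fun i => 2 * K * w i) (w_summable.mul_left _) (fun i => ?_)
    rw [Real.norm_eq_abs, abs_mul]
    have h1 := hat i
    have h2 := hg i
    have h3 := abs_nonneg (a i)
    nlinarith [abs_nonneg (g i)]
  have s0 : Summable (fun i => a i * a i) := hsum a ha1
  have s1 : Summable (fun i => a i * a (i + 1)) := hsum (fun i => a (i + 1)) (fun i => ha1 _)
  have sm : Summable (fun i => a i * a (i - 1)) := hsum (fun i => a (i - 1)) (fun i => ha1 _)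
  have sz : Summable (fun i => a i * z i) := hsum z hz1
  have s0' : Summable (fun i => a (i + 1) * a (i + 1)) :=
    (Equiv.addRight (1 : ℤ)).summable_iff.2 s0
  have e0' : (∑' i, a (i + 1) * a (i + 1)) = ∑' i, a i * a i :=
    (Equiv.addRight (1 : ℤ)).tsum_eq (fun i => a i * a i)
  have em : (∑' i, a i * a (i - 1)) = ∑' i, a i * a (i + 1) := by
    rw [← (Equiv.addRight (1 : ℤ)).tsum_eq]
    congr 1; ext i
    simp only [Equiv.coe_addRight, add_sub_cancel_right]
    ring
  have hpos : 0 ≤ (∑' i, a i * a i) + ∑' i, a i * a (i + 1) := by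
    have h1 : 0 ≤ ∑' i, (a i + a (i + 1)) ^ 2 := tsum_nonneg (fun i => sq_nonneg _)
    have h2 : (∑' i, (a i + a (i + 1)) ^ 2)
        = (∑' i, a i * a i) + (∑' i, a (i + 1) * a (i + 1)) + 2 * ∑' i, a i * a (i + 1) := by
      rw [← tsum_mul_left, ← s0.tsum_add s0', ← (s0.add s0').tsum_add (s1.mul_left 2)]
      congr 1; ext i; ring
    rw [h2, e0'] at h1
    linarith
  have hzsum : (∑' i, a i * z i) = -((∑' i, a i * a (i - 1)) + (∑' i, a i * a i) + ∑' i, a i * a (i + 1)) := by
    rw [← sm.tsum_add s0, ← (sm.add s0).tsum_add s1, ← tsum_neg]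
    congr 1; ext i
    rw [hza i]; ring
  have hle : (∑' i, (a i * z i - a i * a i)) ≤ 0 := by
    rw [sz.tsum_sub s0, hzsum, em]
    linarith
  have hterm : ∀ i, 0 ≤ a i * z i - a i * a i := by
    intro i
    have : a i * z i - a i * a i = t i * (1 - t i) * z i ^ 2 := by simp only [ha]; ring
    rw [this]
    have := ht0 i
    have := ht1 i
    have : 0 < 1 - t i := by linarith
    positivity
  have hzero : ∀ i, a i * z i - a i * a i = 0 := by
    have h1 := (sz.sub s0).hasSum
    have h2 : (∑' i, (a i * z i - a i * a i)) = 0 := le_antisymm hle (tsum_nonneg hterm)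
    rw [h2] at h1
    have h3 := (hasSum_zero_iff_of_nonneg hterm).1 h1
    intro i
    exact congrFun h3 i
  intro i
  have h1 := hzero i
  have h2 : a i * z i - a i * a i = t i * (1 - t i) * z i ^ 2 := by simp only [ha]; ring
  rw [h2] at h1
  have h3 : t i * (1 - t i) ≠ 0 := by
    have := ht0 i
    have := ht1 i
    have : 0 < 1 - t i := by linarith
    positivity
  have h4 := (mul_eq_zero.1 h1).resolve_left h3
  have h5 := pow_eq_zero_iff (two_ne_zero) |>.1 h4
  simp only [hz] at h5
  linarith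

lemma Crit.eq_two {L : ℝ} {φ φ' : B} (h : Crit 2 L φ φ') : φ = φ' := by
  have hL := h.hL
  have rel : ∀ {f g : B}, T 2 f = L • g → ∀ i, w i * g i / L =
      (w (i - 1) * f (i - 1) / L) ^ 2 + (w i * f i / L) ^ 2 + (w (i + 1) * f (i + 1) / L) ^ 2 := by
    intro f g hfg i
    have h1 := w_mul_A 2 le_rfl (f ^ 2) i
    have h2 : A 2 (f ^ 2) = L • g := hfg
    rw [h2] at h1
    simp only [BoundedContinuousFunction.coe_smul, BoundedContinuousFunction.pow_apply, smul_eq_mul] at h1
    have : w i * g i / L = (w i * (L * g i)) / L ^ 2 := by field_simp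
    rw [this, h1]
    field_simp
  have key := two_eq (u := fun i => w i * φ i / L) (v := fun i => w i * φ' i / L)
    (K := (‖φ‖ + ‖φ'‖) / L)
    (fun i => div_pos (mul_pos (w_pos i) (h.pos i)) hL)
    (fun i => div_pos (mul_pos (w_pos i) (h.pos' i)) hL)
    (fun i => by
      have h1 := (le_abs_self _).trans (abs_apply_le φ i)
      have h2 := w_pos i
      have h3 := norm_nonneg φ'
      rw [div_mul_eq_mul_div, div_le_div_iff_of_pos_right hL]
      nlinarith)
    (fun i => by
      have h1 := (le_abs_self _).trans (abs_apply_le φ' i)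
      have h2 := w_pos i
      have h3 := norm_nonneg φ
      rw [div_mul_eq_mul_div, div_le_div_iff_of_pos_right hL]
      nlinarith)
    (rel h.t2) (rel h.t1)
  ext i
  have h1 : w i * φ i / L = w i * φ' i / L := key i
  have h2 := w_pos i
  field_simp at h1
  exact h1

end Pool.Agent.Q287.LT
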