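import Pool.Agent.Q287.LT.LT8

/-!
# Lipschitz functions on trees: counting
-/

set_option autoImplicit false

namespace Pool.Agent.Q287.LT

open Filter Topology BoundedContinuousFunction MeasureTheory
open scoped ENNReal NNReal

/-- vertices of the `d`-ary tree at distance at most `n` from the root: words of length at most `n` -/
abbrev Ball (d n : ℕ) : Type := {v : List (Fin d) // v.length ≤ n}

instance (d n : ℕ) : Finite (Ball d n) := (List.finite_length_le (Fin d) n).to_subtype

/-- Lipschitz functions with leaf values in `S`; the children of the word `v` are the words `v ++ [i]` -/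
def Lip (d n : ℕ) (S : Set ℤ) : Set (Ball d n → ℤ) :=
  {f | (∀ v v' : Ball d n, (∃ i, v'.1 = v.1 ++ [i]) → |f v - f v'| ≤ 1) ∧
    ∀ v : Ball d n, v.1.length = n → f v ∈ S}

/-- the restriction to the ball of radius `r` (extended by `0` if `r > n`) -/
def restr (d n r : ℕ) (f : Ball d n → ℤ) : Ball d r → ℤ :=
  fun v => if h : v.1.length ≤ n then f ⟨v.1, h⟩ else 0

variable {d : ℕ}

/-- root -/
def rt (d n : ℕ) : Ball d n := ⟨[], Nat.zero_le _⟩

/-- subtree function -/
def sub {n : ℕ} (f : Ball d (n + 1) → ℤ) (i : Fin d) : Ball d n → ℤ :=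
  fun v => f ⟨i :: v.1, by simpa using v.2⟩

/-- decomposition at the root -/
def E (d n : ℕ) : (Ball d (n + 1) → ℤ) ≃ ℤ × (Fin d → (Ball d n → ℤ)) where
  toFun f := (f (rt d (n + 1)), fun i => sub f i)
  invFun p := fun v => match v with
    | ⟨[], _⟩ => p.1
    | ⟨i :: l, h⟩ => p.2 i ⟨l, by simpa using h⟩
  left_inv f := by
    funext v
    obtain ⟨l, h⟩ := v
    cases l with
    | nil => rfl
    | cons i l => rfl
  right_inv p := rfl

lemma E_symm_rt (n : ℕ) (p : ℤ × (Fin d → (Ball d n → ℤ))) : (E d n).symm p (rt d (n + 1)) = p.1 := rfl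
lemma E_symm_sub (n : ℕ) (p : ℤ × (Fin d → (Ball d n → ℤ))) (i : Fin d) : sub ((E d n).symm p) i = p.2 i := rfl

lemma Lip_zero (S : Set ℤ) (f : Ball d 0 → ℤ) : f ∈ Lip d 0 S ↔ f (rt d 0) ∈ S := by
  constructor
  · intro h; exact h.2 _ rfl
  · intro h
    refine ⟨?_, ?_⟩
    · rintro v v' ⟨i, hi⟩
      have h1 := v'.2
      rw [hi] at h1
      simp at h1
    · intro v hv
      have : v = rt d 0 := Subtype.ext (List.length_eq_zero_iff.1 hv)
      rw [this]; exact h

lemma Lip_succ (n : ℕ) (S : Set ℤ) (f : Ball d (n + 1) → ℤ) :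
    f ∈ Lip d (n + 1) S ↔ ∀ i, |f (rt d (n + 1)) - sub f i (rt d n)| ≤ 1 ∧ sub f i ∈ Lip d n S := by
  constructor
  · rintro ⟨h1, h2⟩ i
    refine ⟨h1 _ _ ⟨i, rfl⟩, ?_, ?_⟩
    · rintro v v' ⟨j, hj⟩
      exact h1 _ _ ⟨j, by change i :: v'.1 = i :: v.1 ++ [j]; rw [hj]; rfl⟩
    · intro v hv
      exact h2 _ (by change (i :: v.1).length = n + 1; simp [hv])
  · intro h
    refine ⟨?_, ?_⟩
    · rintro ⟨v, hv⟩ ⟨v', hv'⟩ ⟨j, hj⟩
      simp only at hj
      subst hj
      cases v with
      | nil => exact (h j).1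
      | cons i l => exact (h i).2.1 ⟨l, by simpa using hv⟩ ⟨l ++ [j], by simpa using hv'⟩ ⟨j, rfl⟩
    · rintro ⟨v, hv⟩ hl
      cases v with
      | nil => simp at hl
      | cons i l => exact (h i).2.2 ⟨l, by simpa using hv⟩ (by simpa using hl)

/-- weights -/
noncomputable def Wt (d : ℕ) (u : ℤ → ℝ≥0) : (n : ℕ) → (Ball d n → ℤ) → ℝ≥0
  | 0, f => u (f (rt d 0)) ^ d
  | n + 1, f => ∏ i, (if |f (rt d (n + 1)) - sub f i (rt d n)| ≤ 1 then Wt d u n (sub f i) else 0)

/-- indicator -/
noncomputable def ind (S : Finset ℤ) : ℤ → ℝ≥0 := fun i => if i ∈ S then 1 else 0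

lemma Wt_ind (hd : 1 ≤ d) (S : Finset ℤ) (n : ℕ) (f : Ball d n → ℤ) :
    Wt d (ind S) n f = by classical exact if f ∈ Lip d n (S : Set ℤ) then 1 else 0 := by
  classical
  induction n with
  | zero =>
    simp only [Wt, ind, Lip_zero, Finset.mem_coe]
    split_ifs
    · simp
    · rw [zero_pow (by omega)]
  | succ n ih =>
    simp only [Wt]
    split_ifs with h
    · rw [Lip_succ] at h
      refine Finset.prod_eq_one (fun i _ => ?_)
      rw [if_pos (h i).1, ih, if_pos (h i).2]
    · rw [Lip_succ] at h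
      push Not at h
      obtain ⟨i, hi⟩ := h
      refine Finset.prod_eq_zero (Finset.mem_univ i) ?_
      split_ifs with h1
      · rw [ih, if_neg (hi h1)]
      · rfl

/-- product of sums -/
lemma tsum_pi_prod {Y : Type*} (k : ℕ) (h : Fin k → Y → ℝ≥0∞) :
    ∑' F : Fin k → Y, ∏ i, h i (F i) = ∏ i, ∑' y, h i y := by
  induction k with
  | zero => simp
  | succ k ih =>
    rw [← (Fin.consEquiv (fun _ : Fin (k + 1) => Y)).tsum_eq, ENNReal.tsum_prod']
    simp only [Fin.consEquiv_apply, Fin.prod_univ_succ, Fin.cons_zero, Fin.cons_succ]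
    simp only [ENNReal.tsum_mul_left]
    rw [ENNReal.tsum_mul_right, ih (fun i => h i.succ)]

/-- one step -/
def TU (d : ℕ) (u : ℤ → ℝ≥0) : ℤ → ℝ≥0 := fun i => u (i - 1) ^ d + u i ^ d + u (i + 1) ^ d

/-- three-term sum -/
lemma tsum_three {Y : Type*} (c : Y → ℤ) (g : Y → ℝ≥0∞) (x : ℤ) :
    ∑' y, (if |x - c y| ≤ 1 then g y else 0) =
      (∑' y, if c y = x - 1 then g y else 0) + (∑' y, if c y = x then g y else 0)
        + ∑' y, if c y = x + 1 then g y else 0 := by
  rw [← ENNReal.tsum_add, ← ENNReal.tsum_add]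
  congr 1; ext y
  rcases lt_trichotomy (c y) (x - 1) with h | h | h
  · rw [if_neg (by rw [abs_le]; omega), if_neg (by omega), if_neg (by omega), if_neg (by omega)]; simp
  · rw [if_pos (by rw [abs_le]; omega), if_pos h, if_neg (by omega), if_neg (by omega)]; simp
  · rcases lt_trichotomy (c y) (x + 1) with h' | h' | h'
    · rw [if_pos (by rw [abs_le]; omega), if_neg (by omega), if_pos (by omega), if_neg (by omega)]; simp
    · rw [if_pos (by rw [abs_le]; omega), if_neg (by omega), if_neg (by omega), if_pos h']; simp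
    · rw [if_neg (by rw [abs_le]; omega), if_neg (by omega), if_neg (by omega), if_neg (by omega)]; simp

lemma Wt_E (u : ℤ → ℝ≥0) (n : ℕ) (x : ℤ) (F : Fin d → (Ball d n → ℤ)) :
    Wt d u (n + 1) ((E d n).symm (x, F)) =
      ∏ i, (if |x - F i (rt d n)| ≤ 1 then Wt d u n (F i) else 0) := rfl

lemma rt_uniq (v : Ball d 0) : v = rt d 0 :=
  Subtype.ext (List.length_eq_zero_iff.1 (Nat.le_zero.1 v.2))

/-- total weight with given root value -/
lemma sum_root (u : ℤ → ℝ≥0) (n : ℕ) (x : ℤ) :
    ∑' f : Ball d n → ℤ, (if f (rt d n) = x then (Wt d u n f : ℝ≥0∞) else 0)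
      = (((TU d)^[n] u x : ℝ≥0) : ℝ≥0∞) ^ d := by
  induction n generalizing x with
  | zero =>
    rw [tsum_eq_single (fun _ => x) (fun f hf => ?_)]
    · simp [Wt]
    · rw [if_neg]
      intro h
      apply hf
      funext v
      rw [rt_uniq v, h]
  | succ n ih =>
    rw [← (E d n).symm.tsum_eq, ENNReal.tsum_prod', tsum_eq_single x (fun y hy => ?_)]
    · have e1 : ∀ F : Fin d → (Ball d n → ℤ),
          (if (E d n).symm (x, F) (rt d (n + 1)) = x then
            ((Wt d u (n + 1) ((E d n).symm (x, F)) : ℝ≥0) : ℝ≥0∞) else 0)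
          = ∏ i, (if |x - F i (rt d n)| ≤ 1 then ((Wt d u n (F i) : ℝ≥0) : ℝ≥0∞) else 0) := by
        intro F
        rw [if_pos (E_symm_rt n (x, F))]
        rw [Wt_E, ENNReal.ofNNReal_finsetProd]
        refine Finset.prod_congr rfl (fun i _ => ?_)
        by_cases hc : |x - F i (rt d n)| ≤ 1
        · rw [if_pos hc, if_pos hc]
        · rw [if_neg hc, if_neg hc]; simp
      simp only [e1]
      rw [tsum_pi_prod d (fun _ g => if |x - g (rt d n)| ≤ 1 then ((Wt d u n g : ℝ≥0) : ℝ≥0∞) else 0)]
      rw [tsum_three (fun g : Ball d n → ℤ => g (rt d n)) (fun g => ((Wt d u n g : ℝ≥0) : ℝ≥0∞)) x,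
        ih, ih, ih, Finset.prod_const, Finset.card_univ, Fintype.card_fin, Function.iterate_succ_apply']
      simp [TU]
    · have : ∀ F : Fin d → (Ball d n → ℤ), (if (E d n).symm (y, F) (rt d (n + 1)) = x then
            ((Wt d u (n + 1) ((E d n).symm (y, F)) : ℝ≥0) : ℝ≥0∞) else 0) = 0 := by
        intro F
        rw [if_neg]
        rw [E_symm_rt]; exact hy
      simp [this]

open scoped Classical in
/-- total weight with given restriction -/
lemma sum_restr (u : ℤ → ℝ≥0) (k r : ℕ) (g : Ball d r → ℤ) :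
    (∑' f : Ball d (k + r) → ℤ, (if restr d (k + r) r f = g then (Wt d u (k + r) f : ℝ≥0∞) else 0))
      = ((Wt d ((TU d)^[k] u) r g : ℝ≥0) : ℝ≥0∞) := by
  classical
  induction r with
  | zero =>
    have h1 := sum_root (d := d) u k (g (rt d 0))
    simp only [Wt, ENNReal.coe_pow]
    rw [← h1]
    congr 1; ext f
    have : (restr d (k + 0) 0 f = g) ↔ f (rt d k) = g (rt d 0) := by
      constructor
      · intro h; rw [← h]; rfl
      · intro h
        funext v
        rw [rt_uniq v]
        exact h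
    simp only [this]
    rfl
  | succ r ih =>
    change (∑' f : Ball d ((k + r) + 1) → ℤ, (if restr d ((k + r) + 1) (r + 1) f = g then
      (Wt d u ((k + r) + 1) f : ℝ≥0∞) else 0)) = _
    rw [← (E d (k + r)).symm.tsum_eq, ENNReal.tsum_prod', tsum_eq_single (g (rt d (r + 1))) (fun y hy => ?_)]
    · have key : ∀ (y : ℤ) (F : Fin d → (Ball d (k + r) → ℤ)),
          (restr d ((k + r) + 1) (r + 1) ((E d (k + r)).symm (y, F)) = g) ↔
            y = g (rt d (r + 1)) ∧ ∀ i, restr d (k + r) r (F i) = sub g i := by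
        intro y F
        constructor
        · intro h
          refine ⟨by rw [← h]; rfl, fun i => ?_⟩
          rw [← h]
          funext v
          simp only [restr, sub]
          have hv := v.2
          rw [dif_pos (by omega), dif_pos (by simp; omega)]
          rfl
        · rintro ⟨h1, h2⟩
          funext v
          obtain ⟨l, hl⟩ := v
          cases l with
          | nil => exact h1
          | cons i l =>
            have h3 := congrFun (h2 i) ⟨l, by simpa using hl⟩
            simp only [restr, sub] at h3 ⊢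
            have hl' : l.length ≤ r := by simpa using hl
            rw [dif_pos (by omega)] at h3
            rw [dif_pos (by simp; omega)]
            exact h3
      have e1 : ∀ F : Fin d → (Ball d (k + r) → ℤ),
          (if restr d ((k + r) + 1) (r + 1) ((E d (k + r)).symm (g (rt d (r + 1)), F)) = g then
            ((Wt d u ((k + r) + 1) ((E d (k + r)).symm (g (rt d (r + 1)), F)) : ℝ≥0) : ℝ≥0∞) else 0)
          = ∏ i, (if |g (rt d (r + 1)) - sub g i (rt d r)| ≤ 1 then
              (if restr d (k + r) r (F i) = sub g i then ((Wt d u (k + r) (F i) : ℝ≥0) : ℝ≥0∞) else 0) else 0) := by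
        intro F
        by_cases hF : ∀ i, restr d (k + r) r (F i) = sub g i
        · rw [if_pos ((key _ _).2 ⟨rfl, hF⟩)]
          rw [Wt_E, ENNReal.ofNNReal_finsetProd]
          refine Finset.prod_congr rfl (fun i _ => ?_)
          have h4 : F i (rt d (k + r)) = sub g i (rt d r) := by
            rw [← hF i]; rfl
          rw [if_pos (hF i)]
          by_cases hc : |g (rt d (r + 1)) - sub g i (rt d r)| ≤ 1
          · rw [if_pos hc, if_pos (by rw [h4]; exact hc)]
          · rw [if_neg hc, if_neg (by rw [h4]; exact hc)]; simp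
        · rw [if_neg (fun h => hF ((key _ _).1 h).2)]
          push Not at hF
          obtain ⟨i, hi⟩ := hF
          symm
          refine Finset.prod_eq_zero (Finset.mem_univ i) ?_
          rw [if_neg hi]; simp
      simp only [e1]
      rw [tsum_pi_prod d (fun i f => (if |g (rt d (r + 1)) - sub g i (rt d r)| ≤ 1 then
              (if restr d (k + r) r f = sub g i then ((Wt d u (k + r) f : ℝ≥0) : ℝ≥0∞) else 0) else 0))]
      simp only [Wt, ENNReal.ofNNReal_finsetProd]
      refine Finset.prod_congr rfl (fun i _ => ?_)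
      split_ifs with h5
      · exact ih (sub g i)
      · simp
    · have : ∀ F : Fin d → (Ball d (k + r) → ℤ),
          (if restr d ((k + r) + 1) (r + 1) ((E d (k + r)).symm (y, F)) = g then
            ((Wt d u ((k + r) + 1) ((E d (k + r)).symm (y, F)) : ℝ≥0) : ℝ≥0∞) else 0) = 0 := by
        intro F
        rw [if_neg]
        intro h
        apply hy
        rw [← h]; rfl
      simp [this]

/-- total weight -/
lemma sum_total (u : ℤ → ℝ≥0) (n : ℕ) :
    ∑' f : Ball d n → ℤ, (Wt d u n f : ℝ≥0∞) = ∑' x, (((TU d)^[n] u x : ℝ≥0) : ℝ≥0∞) ^ d := by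
  simp only [← sum_root]
  rw [ENNReal.tsum_comm]
  congr 1; ext f
  rw [tsum_eq_single (f (rt d n)) (fun x hx => by rw [if_neg (Ne.symm hx)]), if_pos rfl]

end Pool.Agent.Q287.LT
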